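import Pool.Agent.Work.MP_240aa8_pr.Indep

/-!
`k`-dependent colour-symmetric proper colourings of cycles as weight functions, the construction
of such from word functions (`k = 1`), and the passage to probability measures.
-/

namespace Pool.Agent.Work.MP_240aa8_pr

open Finset SimpleGraph MeasureTheory ProbabilityTheory

/-- A `k`-dependent colour-symmetric proper colouring of the `n`-cycle, as a weight function. -/
structure IsSymDep (k n : ℕ) (K : Type) [Fintype K] (w : (Fin n → K) → ℝ) : Prop where
  nonneg : ∀ x, 0 ≤ w x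
  total : ∑ x, w x = 1
  proper : ∀ x, w x ≠ 0 → ∀ i j, (cycleGraph n).Adj i j → x i ≠ x j
  symm : ∀ σ : Equiv.Perm K, ∀ x : Fin n → K, w (σ ∘ x) = w x
  dep : ∀ A B : Set (Fin n), (∀ a ∈ A, ∀ b ∈ B, k < (cycleGraph n).dist a b) →
     ∀ f g : (Fin n → K) → ℝ, (∀ x y : Fin n → K, (∀ i ∈ A, x i = y i) → f x = f y) →
     (∀ x y : Fin n → K, (∀ i ∈ B, x i = y i) → g x = g y) →
     ∑ x, w x * (f x * g x) = (∑ x, w x * f x) * ∑ x, w x * g x

lemma IsSymDep.mono {k k' n : ℕ} {K : Type} [Fintype K] {w : (Fin n → K) → ℝ}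
    (h : IsSymDep k n K w) (hk : k ≤ k') : IsSymDep k' n K w where
  nonneg := h.nonneg
  total := h.total
  proper := h.proper
  symm := h.symm
  dep := fun A B hAB => h.dep A B fun a ha b hb => lt_of_le_of_lt hk (hAB a ha b hb)

section Cyc

variable {K : Type} [Fintype K] {n : ℕ}

/-- Adjacency in the cycle between consecutive residues. -/
lemma adj_succ_mod (hn : 3 ≤ n) (i : ℕ) :
    (cycleGraph n).Adj ⟨i % n, Nat.mod_lt _ (by omega)⟩ ⟨(i + 1) % n, Nat.mod_lt _ (by omega)⟩ := by
  obtain ⟨m, rfl⟩ : ∃ m, n = m + 2 := ⟨n - 2, by omega⟩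
  rw [cycleGraph_adj]
  right
  apply Fin.ext
  rw [Fin.val_sub]
  simp only [Fin.val_one]
  have h1 : i % (m + 2) < m + 2 := Nat.mod_lt _ (by omega)
  rcases Nat.lt_or_ge (i % (m + 2) + 1) (m + 2) with h | h
  · have : (i + 1) % (m + 2) = i % (m + 2) + 1 := by
      rw [Nat.add_mod, Nat.mod_eq_of_lt (show 1 < m + 2 by omega), Nat.mod_eq_of_lt h]
    rw [this]
    have : m + 2 - i % (m + 2) + (i % (m + 2) + 1) = (m + 2) + 1 := by omega
    rw [this, Nat.add_mod_left, Nat.mod_eq_of_lt (by omega)]
  · have h2 : i % (m + 2) = m + 1 := by omega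
    have : (i + 1) % (m + 2) = 0 := by
      rw [Nat.add_mod, h2, Nat.mod_eq_of_lt (show 1 < m + 2 by omega)]
      simp
    rw [this, h2]
    have : m + 2 - (m + 1) + 0 = 1 := by omega
    rw [this, Nat.mod_eq_of_lt (by omega)]

lemma eq_succ_of_adj (hn : 3 ≤ n) {i j : Fin n} (h : (cycleGraph n).Adj i j) :
    (j.val = (i.val + 1) % n) ∨ (i.val = (j.val + 1) % n) := by
  obtain ⟨m, rfl⟩ : ∃ m, n = m + 2 := ⟨n - 2, by omega⟩
  rw [cycleGraph_adj] at h
  rcases h with h | h
  · right
    have : i = j + 1 := by rw [← h]; abel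
    rw [this, Fin.val_add]
    simp
  · left
    have : j = i + 1 := by rw [← h]; abel
    rw [this, Fin.val_add]
    simp

lemma exists_neutral (hn : 3 ≤ n) {A B : Set (Fin n)} {a b : Fin n} (ha : a ∈ A) (hb : b ∈ B)
    (hAB : ∀ a ∈ A, ∀ b ∈ B, 1 < (cycleGraph n).dist a b) : ∃ v : Fin n, v ∉ A ∧ v ∉ B := by
  by_contra hcon
  push Not at hcon
  have key : ∀ i : ℕ, (⟨(a.val + i) % n, Nat.mod_lt _ (by omega)⟩ : Fin n) ∈ A := by
    intro i
    induction i with
    | zero =>
        have : (⟨(a.val + 0) % n, Nat.mod_lt _ (by omega)⟩ : Fin n) = a := by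
          apply Fin.ext; simp [Nat.mod_eq_of_lt a.isLt]
        rw [this]; exact ha
    | succ i ih =>
        by_contra hnot
        have hB := hcon _ hnot
        have h1 := hAB _ ih _ hB
        have hadj := adj_succ_mod hn (a.val + i)
        rw [← dist_eq_one_iff_adj] at hadj
        have e : (⟨(a.val + (i + 1)) % n, Nat.mod_lt _ (by omega)⟩ : Fin n) =
            ⟨(a.val + i + 1) % n, Nat.mod_lt _ (by omega)⟩ := by
          apply Fin.ext; simp [add_assoc]
        rw [e, hadj] at h1
        exact absurd h1 (lt_irrefl _)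
  have hbA : b ∈ A := by
    have := key (n - a.val + b.val)
    have e : (⟨(a.val + (n - a.val + b.val)) % n, Nat.mod_lt _ (by omega)⟩ : Fin n) = b := by
      apply Fin.ext
      have h1 := a.isLt
      have : a.val + (n - a.val + b.val) = n + b.val := by omega
      simp only [this, Nat.add_mod_left, Nat.mod_eq_of_lt b.isLt]
    rw [e] at this
    exact this
  have := hAB b hbA b hb
  simp at this

variable {p Pc : List K → ℝ}

lemma Pc_rotate (hrot : ∀ a w, Pc (a :: w) = Pc (w ++ [a])) :
    ∀ (k : ℕ) (l : List K), Pc (l.rotate k) = Pc l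
  | 0, l => by simp
  | k + 1, [] => by simp
  | k + 1, a :: l => by
      rw [List.rotate_cons_succ, Pc_rotate hrot k, hrot]

lemma zero_of_two (hn : 3 ≤ n)
    (hprop : ∀ (a : K) (w : List K), (a :: a :: w).length = n → Pc (a :: a :: w) = 0) :
    ∀ (l : List K), l.length = n → ∀ {c : K}, l[0]? = some c → l[1]? = some c → Pc l = 0
  | [], hl, _, _, _ => by simp at hl; omega
  | [a], hl, _, _, _ => by simp at hl; omega
  | a :: b :: w, hl, c, h0, h1 => by
      simp only [List.getElem?_cons_zero, Option.some.injEq] at h0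
      simp only [List.getElem?_cons_succ, List.getElem?_cons_zero, Option.some.injEq] at h1
      have : a = b := by rw [h0, h1]
      subst this
      exact hprop a w hl

open Classical in
/-- indicator of agreement with `α` on `A` -/
noncomputable def indA (A : Set (Fin n)) (α x : Fin n → K) : ℝ := if ∀ i ∈ A, x i = α i then 1 else 0

open Classical in
lemma core_indep (hn : 3 ≤ n) (hp0 : p [] = 1) (hp : ∀ u v, ∑ a, p (u ++ a :: v) = p u * p v)
    (hrot : ∀ a w, Pc (a :: w) = Pc (w ++ [a]))
    (hmarg : ∀ w : List K, w.length + 1 = n → ∑ a, Pc (a :: w) = p w)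
    {A B : Set (Fin n)} (hAB : ∀ a ∈ A, ∀ b ∈ B, 1 < (cycleGraph n).dist a b)
    {v : Fin n} (hvA : v ∉ A) (hvB : v ∉ B) (α β : Fin n → K) :
    ∑ x : Fin n → K, Pc (List.ofFn x) * (indA A α x * indA B β x) =
      (∑ x : Fin n → K, Pc (List.ofFn x) * indA A α x) *
        ∑ x : Fin n → K, Pc (List.ofFn x) * indA B β x := by
  obtain ⟨m, rfl⟩ : ∃ m, n = m + 1 := ⟨n - 1, by omega⟩
  have hdisj : ∀ i, i ∈ A → i ∉ B := by
    intro i hiA hiB
    have := hAB i hiA i hiB
    simp at this
  set lab : Fin (m + 1) → Option Bool × (K → ℝ) := fun i =>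
    if i ∈ A then (some true, fun c => if c = α i then 1 else 0)
    else if i ∈ B then (some false, fun c => if c = β i then 1 else 0)
    else (none, 1) with hlab
  have hA : ∀ x : Fin (m + 1) → K, ∏ i, fA (lab i) (x i) = indA A α x := by
    intro x
    have : ∀ i, fA (lab i) (x i) = if i ∈ A → x i = α i then 1 else 0 := by
      intro i
      by_cases hi : i ∈ A
      · simp [hlab, hi, fA]
      · by_cases hi' : i ∈ B
        · simp [hlab, hi, hi', fA]
        · simp [hlab, hi, hi', fA]
    simp only [this, indA]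
    by_cases h : ∀ i ∈ A, x i = α i
    · rw [if_pos h]
      refine Finset.prod_eq_one fun i _ => if_pos (h i)
    · rw [if_neg h]
      push Not at h
      obtain ⟨i, hi, hi'⟩ := h
      refine Finset.prod_eq_zero (Finset.mem_univ i) (if_neg ?_)
      tauto
  have hB : ∀ x : Fin (m + 1) → K, ∏ i, fB (lab i) (x i) = indA B β x := by
    intro x
    have : ∀ i, fB (lab i) (x i) = if i ∈ B → x i = β i then 1 else 0 := by
      intro i
      by_cases hi : i ∈ A
      · simp [hlab, hi, fB, hdisj i hi]
      · by_cases hi' : i ∈ B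
        · simp [hlab, hi, hi', fB]
        · simp [hlab, hi, hi', fB]
    simp only [this, indA]
    by_cases h : ∀ i ∈ B, x i = β i
    · rw [if_pos h]
      refine Finset.prod_eq_one fun i _ => if_pos (h i)
    · rw [if_neg h]
      push Not at h
      obtain ⟨i, hi, hi'⟩ := h
      refine Finset.prod_eq_zero (Finset.mem_univ i) (if_neg ?_)
      tauto
  have hAll : ∀ x : Fin (m + 1) → K, ∏ i, fAll (lab i) (x i) = indA A α x * indA B β x := by
    intro x
    rw [← hA, ← hB, ← Finset.prod_mul_distrib]
    refine Finset.prod_congr rfl fun i _ => ?_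
    by_cases hi : i ∈ A
    · simp [hlab, hi, fB, fA, fAll]
    · by_cases hi' : i ∈ B
      · simp [hlab, hi, hi', fB, fA, fAll]
      · simp [hlab, hi, hi', fB, fA, fAll]
  have key := cyc_indep hp0 hp hrot m (fun w hw => hmarg w (by omega)) (List.ofFn lab) (by simp)
    v.val ?_ ?_
  · rw [List.map_ofFn, List.map_ofFn, List.map_ofFn, Es_ofFn, Es_ofFn, Es_ofFn] at key
    simp only [Function.comp_apply, hA, hB, hAll] at key
    simp only [mul_comm (Pc _)]
    exact key
  · rw [List.isChain_iff_getElem]
    intro i hi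
    rw [List.getElem_rotate, List.getElem_rotate, List.getElem_ofFn, List.getElem_ofFn]
    simp only [List.length_ofFn]
    have hadj := adj_succ_mod hn (i + v.val)
    have e : (⟨(i + 1 + v.val) % (m + 1), Nat.mod_lt _ (by omega)⟩ : Fin (m + 1)) =
        ⟨(i + v.val + 1) % (m + 1), Nat.mod_lt _ (by omega)⟩ := by
      apply Fin.ext; simp only; congr 1; omega
    rw [e]
    generalize (⟨(i + v.val + 1) % (m + 1), Nat.mod_lt _ (by omega)⟩ : Fin (m + 1)) = b at *
    generalize (⟨(i + v.val) % (m + 1), Nat.mod_lt _ (by omega)⟩ : Fin (m + 1)) = a at *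
    have hab : (cycleGraph (m + 1)).dist a b = 1 := dist_eq_one_iff_adj.2 hadj
    have hba : (cycleGraph (m + 1)).dist b a = 1 := dist_eq_one_iff_adj.2 hadj.symm
    have l1 : ∀ i, (lab i).1 = some true ↔ i ∈ A := by
      intro i
      by_cases hi : i ∈ A
      · simp [hlab, hi]
      · by_cases hi' : i ∈ B
        · simp [hlab, hi, hi']
        · simp [hlab, hi, hi']
    have l2 : ∀ i, (lab i).1 = some false → i ∈ B := by
      intro i
      by_cases hi : i ∈ A
      · simp [hlab, hi]
      · by_cases hi' : i ∈ B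
        · simp [hlab, hi']
        · simp [hlab, hi, hi']
    refine ⟨fun h => ?_, fun h => ?_⟩
    · have := hAB a ((l1 a).1 h.1) b (l2 b h.2)
      omega
    · have := hAB b ((l1 b).1 h.2) a (l2 a h.1)
      omega
  · intro x hx
    rw [List.head?_eq_getElem?, List.getElem?_rotate (by simp)] at hx
    simp only [zero_add, List.length_ofFn, Nat.mod_eq_of_lt v.isLt] at hx
    rw [List.getElem?_eq_getElem (by rw [List.length_ofFn]; exact v.isLt)] at hx
    simp only [List.getElem_ofFn, Option.mem_def, Option.some.injEq] at hx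
    subst hx
    simp [hlab, hvA, hvB]

open Classical in
lemma expand_dep [Nonempty K] {A : Set (Fin n)} {f : (Fin n → K) → ℝ}
    (hf : ∀ x y : Fin n → K, (∀ i ∈ A, x i = y i) → f x = f y) (x0 : Fin n → K) (x : Fin n → K) :
    f x = ∑ α : Fin n → K, (if ∀ i, i ∉ A → α i = x0 i then f α else 0) * indA A α x := by
  rw [Finset.sum_eq_single (fun i => if i ∈ A then x i else x0 i)]
  · have h1 : ∀ i, i ∉ A → (fun i => if i ∈ A then x i else x0 i) i = x0 i := by
      intro i hi; simp [hi]
    have h2 : ∀ i ∈ A, x i = (fun i => if i ∈ A then x i else x0 i) i := by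
      intro i hi; simp [hi]
    rw [if_pos h1, indA, if_pos h2, mul_one]
    exact hf _ _ h2
  · intro α _ hα
    by_cases h1 : ∀ i, i ∉ A → α i = x0 i
    · by_cases h2 : ∀ i ∈ A, x i = α i
      · exfalso
        apply hα
        funext i
        by_cases hi : i ∈ A
        · simp [hi, h2 i hi]
        · simp [hi, h1 i hi]
      · rw [indA, if_neg h2, mul_zero]
    · rw [if_neg h1, zero_mul]
  · intro h; exact absurd (Finset.mem_univ _) h

theorem isSymDep_of_words [Nonempty K] (hn : 3 ≤ n) (hp0 : p [] = 1)
    (hp : ∀ u v, ∑ a, p (u ++ a :: v) = p u * p v)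
    (hrot : ∀ a w, Pc (a :: w) = Pc (w ++ [a]))
    (hmarg : ∀ w : List K, w.length + 1 = n → ∑ a, Pc (a :: w) = p w)
    (hpos : ∀ w : List K, w.length = n → 0 ≤ Pc w)
    (hprop : ∀ (a : K) (w : List K), (a :: a :: w).length = n → Pc (a :: a :: w) = 0)
    (hsym : ∀ (σ : Equiv.Perm K) (w : List K), Pc (w.map σ) = Pc w) :
    IsSymDep 1 n K (fun x => Pc (List.ofFn x)) where
  nonneg := fun x => hpos _ (by simp)
  total := by
    obtain ⟨m, rfl⟩ : ∃ m, n = m + 1 := ⟨n - 1, by omega⟩
    have h := Es_ofFn (m + 1) (fun _ => (1 : K → ℝ)) Pc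
    simp only [Pi.one_apply, Finset.prod_const_one, one_mul] at h
    rw [← h, List.ofFn_succ, Es_cyc_one m (fun w hw => hmarg w (by omega)) _ (by simp)]
    refine Es_all_one hp0 hp _ ?_
    intro φ hφ
    simp only [List.mem_ofFn] at hφ
    obtain ⟨i, rfl⟩ := hφ
    rfl
  proper := by
    have main : ∀ x : Fin n → K, ∀ i : Fin n,
        x i = x ⟨(i.val + 1) % n, Nat.mod_lt _ (by omega)⟩ → Pc (List.ofFn x) = 0 := by
      intro x i hx
      rw [← Pc_rotate hrot i.val]
      have hl : ((List.ofFn x).rotate i.val).length = n := by simp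
      have h0 : ((List.ofFn x).rotate i.val)[0]? = some (x i) := by
        rw [List.getElem?_eq_getElem (by omega), List.getElem_rotate, List.getElem_ofFn]
        congr 2
        apply Fin.ext
        simp [Nat.mod_eq_of_lt i.isLt]
      have h1 : ((List.ofFn x).rotate i.val)[1]? =
          some (x ⟨(i.val + 1) % n, Nat.mod_lt _ (by omega)⟩) := by
        rw [List.getElem?_eq_getElem (by omega), List.getElem_rotate, List.getElem_ofFn]
        congr 2
        apply Fin.ext
        simp [add_comm]
      exact zero_of_two hn hprop _ hl h0 (by rw [h1, ← hx])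
    intro x hx i j hij hxij
    rcases eq_succ_of_adj hn hij with h | h
    · apply hx
      refine main x i ?_
      rw [hxij]
      congr 1
      apply Fin.ext; simp [h]
    · apply hx
      refine main x j ?_
      rw [← hxij]
      congr 1
      apply Fin.ext; simp [h]
  symm := fun σ x => by
    rw [← hsym σ (List.ofFn x), List.map_ofFn]
  dep := by
    classical
    intro A B hAB f g hf hg
    have htot : ∑ x : Fin n → K, Pc (List.ofFn x) = 1 := by
      obtain ⟨m, rfl⟩ : ∃ m, n = m + 1 := ⟨n - 1, by omega⟩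
      have h := Es_ofFn (m + 1) (fun _ => (1 : K → ℝ)) Pc
      simp only [Pi.one_apply, Finset.prod_const_one, one_mul] at h
      rw [← h, List.ofFn_succ, Es_cyc_one m (fun w hw => hmarg w (by omega)) _ (by simp)]
      refine Es_all_one hp0 hp _ ?_
      intro φ hφ
      simp only [List.mem_ofFn] at hφ
      obtain ⟨i, rfl⟩ := hφ
      rfl
    let x0 : Fin n → K := fun _ => Classical.arbitrary K
    rcases A.eq_empty_or_nonempty with rfl | ⟨a, ha⟩
    · have hc : ∀ x, f x = f x0 := fun x => hf _ _ (by simp)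
      simp only [hc]
      have : ∀ x : Fin n → K, Pc (List.ofFn x) * (f x0 * g x) =
          f x0 * (Pc (List.ofFn x) * g x) := fun x => by ring
      simp only [this]
      rw [← Finset.mul_sum, ← Finset.sum_mul, htot, one_mul]
    rcases B.eq_empty_or_nonempty with rfl | ⟨b, hb⟩
    · have hc : ∀ x, g x = g x0 := fun x => hg _ _ (by simp)
      simp only [hc]
      have : ∀ x : Fin n → K, Pc (List.ofFn x) * (f x * g x0) =
          (Pc (List.ofFn x) * f x) * g x0 := fun x => by ring
      simp only [this]
      rw [← Finset.sum_mul, ← Finset.sum_mul, htot, one_mul]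
    obtain ⟨v, hvA, hvB⟩ := exists_neutral hn ha hb hAB
    set F : (Fin n → K) → ℝ := fun α => if ∀ i, i ∉ A → α i = x0 i then f α else 0 with hF
    set G : (Fin n → K) → ℝ := fun α => if ∀ i, i ∉ B → α i = x0 i then g α else 0 with hG
    have ef : ∀ x, f x = ∑ α : Fin n → K, F α * indA A α x := fun x => expand_dep hf x0 x
    have eg : ∀ x, g x = ∑ β : Fin n → K, G β * indA B β x := fun x => expand_dep hg x0 x
    have l1 : ∑ x : Fin n → K, Pc (List.ofFn x) * (f x * g x) =
        ∑ α : Fin n → K, ∑ β : Fin n → K, F α * G β *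
          ∑ x : Fin n → K, Pc (List.ofFn x) * (indA A α x * indA B β x) := by
      have : ∀ x : Fin n → K, Pc (List.ofFn x) * (f x * g x) =
          ∑ α : Fin n → K, ∑ β : Fin n → K,
            F α * G β * (Pc (List.ofFn x) * (indA A α x * indA B β x)) := by
        intro x
        rw [ef x, eg x, Finset.sum_mul_sum, Finset.mul_sum]
        refine Finset.sum_congr rfl fun α _ => ?_
        rw [Finset.mul_sum]
        refine Finset.sum_congr rfl fun β _ => ?_
        ring
      simp only [this]
      rw [Finset.sum_comm]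
      refine Finset.sum_congr rfl fun α _ => ?_
      rw [Finset.sum_comm]
      refine Finset.sum_congr rfl fun β _ => ?_
      rw [Finset.mul_sum]
    have l2 : ∑ x : Fin n → K, Pc (List.ofFn x) * f x =
        ∑ α : Fin n → K, F α * ∑ x : Fin n → K, Pc (List.ofFn x) * indA A α x := by
      have : ∀ x : Fin n → K, Pc (List.ofFn x) * f x =
          ∑ α : Fin n → K, F α * (Pc (List.ofFn x) * indA A α x) := by
        intro x
        rw [ef x, Finset.mul_sum]
        refine Finset.sum_congr rfl fun α _ => ?_
        ring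
      simp only [this]
      rw [Finset.sum_comm]
      refine Finset.sum_congr rfl fun α _ => ?_
      rw [Finset.mul_sum]
    have l3 : ∑ x : Fin n → K, Pc (List.ofFn x) * g x =
        ∑ β : Fin n → K, G β * ∑ x : Fin n → K, Pc (List.ofFn x) * indA B β x := by
      have : ∀ x : Fin n → K, Pc (List.ofFn x) * g x =
          ∑ β : Fin n → K, G β * (Pc (List.ofFn x) * indA B β x) := by
        intro x
        rw [eg x, Finset.mul_sum]
        refine Finset.sum_congr rfl fun α _ => ?_
        ring
      simp only [this]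
      rw [Finset.sum_comm]
      refine Finset.sum_congr rfl fun α _ => ?_
      rw [Finset.mul_sum]
    rw [l1, l2, l3, Finset.sum_mul_sum]
    refine Finset.sum_congr rfl fun α _ => Finset.sum_congr rfl fun β _ => ?_
    rw [core_indep hn hp0 hp hrot hmarg hAB hvA hvB α β]
    ring

end Cyc

section Meas

variable {k n q : ℕ}

/-- The measure on colourings with weights `w`. -/
noncomputable def wmeas (w : (Fin n → Fin q) → ℝ) : Measure (Fin n → Fin q) :=
  ∑ x, ENNReal.ofReal (w x) • Measure.dirac x

lemma wmeas_apply (w : (Fin n → Fin q) → ℝ) (hw : ∀ x, 0 ≤ w x) (s : Set (Fin n → Fin q)) :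
    wmeas w s = ENNReal.ofReal (∑ x, w x * s.indicator (fun _ => (1 : ℝ)) x) := by
  classical
  have hs : MeasurableSet s := Set.Finite.measurableSet (Set.toFinite s)
  rw [wmeas, Measure.finsetSum_apply, ENNReal.ofReal_sum_of_nonneg]
  · refine Finset.sum_congr rfl fun x _ => ?_
    rw [Measure.smul_apply, Measure.dirac_apply' _ hs, smul_eq_mul, ENNReal.ofReal_mul (hw x)]
    congr 1
    by_cases hx : x ∈ s <;> simp [hx]
  · intro x _
    exact mul_nonneg (hw x) (Set.indicator_nonneg (fun _ _ => zero_le_one) _)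

theorem exists_measure {w : (Fin n → Fin q) → ℝ} (h : IsSymDep k n (Fin q) w) :
    ∃ μ : Measure (Fin n → Fin q), IsProbabilityMeasure μ ∧
          (∀ᵐ x ∂μ, ∀ i j : Fin n, (SimpleGraph.cycleGraph n).Adj i j → x i ≠ x j) ∧
          (∀ σ : Equiv.Perm (Fin q), μ.map (fun x : Fin n → Fin q => σ ∘ x) = μ) ∧
          (∀ A B : Set (Fin n),
            (∀ a ∈ A, ∀ b ∈ B, k < (SimpleGraph.cycleGraph n).dist a b) →
            IndepFun (fun x : Fin n → Fin q => fun a : A => x a)
              (fun x : Fin n → Fin q => fun b : B => x b) μ) := by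
  classical
  refine ⟨wmeas w, ⟨?_⟩, ?_, ?_, ?_⟩
  · rw [wmeas_apply w h.nonneg]
    simp [h.total]
  · rw [ae_iff, wmeas_apply w h.nonneg]
    rw [Finset.sum_eq_zero, ENNReal.ofReal_zero]
    intro x _
    by_cases hx : w x = 0
    · rw [hx, zero_mul]
    · rw [Set.indicator_of_notMem, mul_zero]
      simp only [Set.mem_ofPred_eq, not_not]
      exact h.proper x hx
  · intro σ
    have hm : Measurable (fun x : Fin n → Fin q => (σ ∘ x : Fin n → Fin q)) :=
      measurable_of_finite _
    ext s hs
    rw [Measure.map_apply hm hs, wmeas_apply w h.nonneg, wmeas_apply w h.nonneg]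
    congr 1
    have e : ∀ x : Fin n → Fin q, w x = w (σ ∘ x) := fun x => (h.symm σ x).symm
    let τ : (Fin n → Fin q) ≃ (Fin n → Fin q) :=
      { toFun := fun x => σ ∘ x
        invFun := fun x => σ.symm ∘ x
        left_inv := fun x => by funext i; simp
        right_inv := fun x => by funext i; simp }
    rw [← τ.sum_comp (fun x => w x * s.indicator (fun _ => (1 : ℝ)) x)]
    refine Finset.sum_congr rfl fun x _ => ?_
    have hτ : τ x = σ ∘ x := rfl
    rw [hτ, ← e x]
    congr 1
  · intro A B hAB
    rw [indepFun_iff_measure_inter_preimage_eq_mul]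
    intro s t _ _
    rw [wmeas_apply w h.nonneg, wmeas_apply w h.nonneg, wmeas_apply w h.nonneg,
      ← ENNReal.ofReal_mul]
    · congr 1
      have := h.dep A B hAB
        (((fun x : Fin n → Fin q => fun a : A => x a) ⁻¹' s).indicator (fun _ => (1 : ℝ)))
        (((fun x : Fin n → Fin q => fun b : B => x b) ⁻¹' t).indicator (fun _ => (1 : ℝ)))
        ?_ ?_
      · rw [← this]
        refine Finset.sum_congr rfl fun x _ => ?_
        congr 1
        simp only [Set.indicator, Set.mem_inter_iff]
        split_ifs <;> simp_all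
      · intro x y hxy
        have : (fun a : A => x a) = (fun a : A => y a) := by
          funext a; exact hxy a a.2
        simp only [Set.indicator, Set.mem_preimage, this]
      · intro x y hxy
        have : (fun a : B => x a) = (fun a : B => y a) := by
          funext a; exact hxy a a.2
        simp only [Set.indicator, Set.mem_preimage, this]
    · exact Finset.sum_nonneg fun x _ => mul_nonneg (h.nonneg x)
        (Set.indicator_nonneg (fun _ _ => zero_le_one) _)

end Meas

end Pool.Agent.Work.MP_240aa8_pr
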