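import Pool.Agent.Work.MP_240aa8_pr.Gam
import Pool.Agent.Work.MP_240aa8_pr.Dep

/-!
The cyclic word function, its rotation invariance, positivity, properness and marginals.
-/

namespace Pool.Agent.Work.MP_240aa8_pr

open Finset Matrix

variable {K : Type}

/-- the kernel between two letters -/
noncomputable def G (t : ℝ) (a : K) (w : List K) (b : K) : ℝ := g t (some a) w (some b)

lemma G_self (t : ℝ) (a : K) (w : List K) : G t a w a = 0 := g_not_ok t (by simp) w

lemma ss_assoc : ∀ (w : List K) (f : List K → K → List K → K → List K → ℝ),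
    ss w (fun u c v => ss v (fun m e s => f u c m e s)) =
      ss w (fun u e s => ss u (fun p c m => f p c m e s))
  | [], f => rfl
  | a :: w, f => by
      rw [ss_cons, ss_cons, ss_nil, zero_add]
      simp only [ss_cons]
      rw [ss_add, ss_assoc w (fun u c m e s => f (a :: u) c m e s)]

lemma ss_sub (w : List K) (f f' : List K → K → List K → ℝ) :
    ss w (fun u a v => f u a v - f' u a v) = ss w f - ss w f' := by
  have h := ss_add w f (fun u a v => (-1) * f' u a v)
  rw [ss_mul_left] at h
  have e : ss w (fun u a v => f u a v - f' u a v) =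
      ss w (fun u a v => f u a v + (-1) * f' u a v) := ss_congr fun u c v _ => by ring
  rw [e, h]; ring

lemma ss_abs_le {w : List K} {f f' : List K → K → List K → ℝ}
    (h : ∀ u c v, w = u ++ c :: v → |f u c v| ≤ f' u c v) : |ss w f| ≤ ss w f' := by
  rw [abs_le]
  constructor
  · have h1 : 0 ≤ ss w (fun u c v => f' u c v - (-1) * f u c v) :=
      ss_nonneg fun u c v huv => by have := (abs_le.1 (h u c v huv)).1; linarith
    rw [ss_sub, ss_mul_left] at h1
    linarith
  · have h1 : 0 ≤ ss w (fun u c v => f' u c v - f u c v) :=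
      ss_nonneg fun u c v huv => by have := (abs_le.1 (h u c v huv)).2; linarith
    rw [ss_sub] at h1
    linarith

noncomputable def hk (t y : ℝ) : ℕ → K → List K → K → ℝ
  | 0, b, w, d => y * G t b w d
  | n + 1, b, w, d => y * G t b w d + ss w (fun u c v => y * G t b u c * hk t y n c v d)

/-- the chain kernel -/
noncomputable def H (t y : ℝ) (b : K) (w : List K) (d : K) : ℝ := hk t y w.length b w d

lemma hk_eq (t y : ℝ) : ∀ (n : ℕ) (b : K) (w : List K) (d : K), w.length ≤ n →
    hk t y n b w d = H t y b w d := by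
  intro n
  induction n using Nat.strong_induction_on with
  | _ n ih =>
  intro b w d hw
  match n, w with
  | 0, w =>
      obtain rfl : w = [] := List.length_eq_zero_iff.1 (by omega)
      rfl
  | n + 1, [] => simp [H, hk]
  | n + 1, x :: w =>
      rw [H, List.length_cons]
      rw [List.length_cons] at hw
      simp only [hk]
      congr 1
      refine ss_congr fun u c v h => ?_
      have hl := congrArg List.length h
      simp only [List.length_cons, List.length_append] at hl
      rw [ih n (by omega) c v d (by omega), ih w.length (by omega) c v d (by omega)]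

lemma H_left (t y : ℝ) (b : K) (w : List K) (d : K) :
    H t y b w d = y * G t b w d + ss w (fun u c v => y * G t b u c * H t y c v d) := by
  rw [← hk_eq t y (w.length + 1) b w d (by omega)]
  simp only [hk]
  congr 1
  refine ss_congr fun u c v h => ?_
  have hl := congrArg List.length h
  simp only [List.length_cons, List.length_append] at hl
  rw [hk_eq t y _ c v d (by omega)]

lemma H_right (t y : ℝ) : ∀ (n : ℕ) (b : K) (w : List K) (d : K), w.length ≤ n →
    H t y b w d = y * G t b w d + ss w (fun u c v => H t y b u c * (y * G t c v d)) := by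
  intro n
  induction n with
  | zero =>
      intro b w d hw
      obtain rfl : w = [] := List.length_eq_zero_iff.1 (by omega)
      rw [H_left, ss_nil, ss_nil]
  | succ n ih =>
      intro b w d hw
      rw [H_left]
      congr 1
      have e1 : ss w (fun u c v => y * G t b u c * H t y c v d) =
          ss w (fun u c v => y * G t b u c * (y * G t c v d) +
            ss v (fun m e s => y * G t b u c * (H t y c m e * (y * G t e s d)))) := by
        refine ss_congr fun u c v h => ?_
        have hl := congrArg List.length h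
        simp only [List.length_cons, List.length_append] at hl
        rw [ih c v d (by omega), ss_mul_left]
        ring
      have e2 : ss w (fun u c v => H t y b u c * (y * G t c v d)) =
          ss w (fun u c v => y * G t b u c * (y * G t c v d) +
            ss u (fun p e m => y * G t b p e * (H t y e m c * (y * G t c v d)))) := by
        refine ss_congr fun u c v h => ?_
        rw [H_left t y b u c]
        have : ss u (fun p e m => y * G t b p e * (H t y e m c * (y * G t c v d))) =
            (y * G t c v d) * ss u (fun p e m => y * G t b p e * H t y e m c) := by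
          rw [← ss_mul_left]
          exact ss_congr fun _ _ _ _ => by ring
        rw [this]
        ring
      rw [e1, e2, ss_add, ss_add]
      congr 1
      exact ss_assoc w (fun u c m e s => y * G t b u c * (H t y c m e * (y * G t e s d)))

/-- the cyclic chain sum -/
noncomputable def Ey (t y : ℝ) : List K → ℝ
  | [] => 0
  | a :: z => H t y a z a +
      ss z (fun u c v => ss v (fun m d s => H t y c m d * (y * G t d (s ++ a :: u) c)))

lemma Ey_cons (t y : ℝ) (a : K) (z : List K) : Ey t y (a :: z) = H t y a z a +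
      ss z (fun u c v => ss v (fun m d s => H t y c m d * (y * G t d (s ++ a :: u) c))) := rfl

theorem Ey_rot (t y : ℝ) (a : K) (w : List K) : Ey t y (a :: w) = Ey t y (w ++ [a]) := by
  cases w with
  | nil => rfl
  | cons b z =>
      rw [List.cons_append, Ey_cons, Ey_cons, ss_cons, ss_append, ss_cons, ss_nil]
      simp only [ss_nil, add_zero]
      rw [H_left t y a (b :: z) a, G_self, ss_cons, H_right t y _ b (z ++ [a]) b le_rfl, G_self,
        ss_append, ss_cons, ss_nil]
      simp only [List.append_nil, add_zero, mul_zero, zero_add]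
      have e1 : ss z (fun u c v => ss (v ++ [a]) (fun m d s =>
            H t y c m d * (y * G t d (s ++ b :: u) c))) =
          ss z (fun u c v => ss v (fun m d s => H t y c m d * (y * G t d (s ++ a :: b :: u) c))) +
          ss z (fun u c v => y * G t a (b :: u) c * H t y c v a) := by
        rw [← ss_add]
        refine ss_congr fun u c v _ => ?_
        rw [ss_append, ss_cons, ss_nil]
        simp only [List.append_nil, List.nil_append, List.append_assoc, List.cons_append, add_zero]
        ring
      rw [e1]
      ring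

lemma G_nonneg {t : ℝ} (ht : 0 < t) (ht1 : t < 1) (a : K) (w : List K) (b : K) :
    0 ≤ G t a w b := g_nonneg ht ht1 _ _ _ _ le_rfl

lemma H_nonneg {t : ℝ} (ht : 0 < t) (ht1 : t < 1) : ∀ (n : ℕ) (b : K) (w : List K) (d : K),
    w.length ≤ n → 0 ≤ H t 1 b w d := by
  intro n
  induction n with
  | zero =>
      intro b w d hw
      obtain rfl : w = [] := List.length_eq_zero_iff.1 (by omega)
      rw [H_left, ss_nil, add_zero, one_mul]
      exact G_nonneg ht ht1 _ _ _
  | succ n ih =>
      intro b w d hw
      rw [H_left]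
      refine add_nonneg (by rw [one_mul]; exact G_nonneg ht ht1 _ _ _) (ss_nonneg ?_)
      intro u c v h
      have hl := congrArg List.length h
      simp only [List.length_cons, List.length_append] at hl
      exact mul_nonneg (by rw [one_mul]; exact G_nonneg ht ht1 _ _ _) (ih c v d (by omega))

lemma H_abs {t : ℝ} (ht : 0 < t) (ht1 : t < 1) : ∀ (n : ℕ) (b : K) (w : List K) (d : K),
    w.length ≤ n → |H t (-t) b w d| ≤ t * H t 1 b w d := by
  intro n
  induction n using Nat.strong_induction_on with
  | _ n ih =>
  intro b w d hw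
  rw [H_left t (-t), H_left t 1, mul_add, ← ss_mul_left]
  refine (abs_add_le _ _).trans (add_le_add ?_ (ss_abs_le ?_))
  · rw [abs_mul, abs_neg, abs_of_pos ht, abs_of_nonneg (G_nonneg ht ht1 _ _ _), one_mul]
  · intro u c v h
    have hl := congrArg List.length h
    simp only [List.length_cons, List.length_append] at hl
    rw [abs_mul, abs_mul, abs_neg, abs_of_pos ht, abs_of_nonneg (G_nonneg ht ht1 _ _ _), one_mul]
    have h1 := ih v.length (by omega) c v d le_rfl
    have h2 := H_nonneg ht ht1 _ c v d le_rfl
    have h3 := G_nonneg ht ht1 b u c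
    have h4 : |H t (-t) c v d| ≤ H t 1 c v d := by nlinarith
    rw [mul_assoc]
    exact mul_le_mul_of_nonneg_left (mul_le_mul_of_nonneg_left h4 h3) ht.le

/-- the cyclic word function -/
noncomputable def Fc (t : ℝ) (w : List K) : ℝ := Ey t 1 w - Ey t (-t) w

lemma Fc_nonneg {t : ℝ} (ht : 0 < t) (ht1 : t < 1) (w : List K) : 0 ≤ Fc t w := by
  have main : |Ey t (-t) w| ≤ Ey t 1 w := by
    cases w with
    | nil => simp [Ey]
    | cons a z =>
        rw [Ey_cons, Ey_cons]
        refine (abs_add_le _ _).trans (add_le_add ?_ (ss_abs_le ?_))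
        · have h1 := H_abs ht ht1 _ a z a le_rfl
          have h2 := H_nonneg ht ht1 _ a z a le_rfl
          nlinarith
        · intro u c v _
          refine ss_abs_le ?_
          intro m d s _
          have h1 := H_abs ht ht1 _ c m d le_rfl
          have h2 := H_nonneg ht ht1 _ c m d le_rfl
          have h3 := G_nonneg ht ht1 d (s ++ a :: u) c
          rw [abs_mul, abs_mul, abs_neg, abs_of_pos ht, abs_of_nonneg h3, one_mul]
          have h4 : |H t (-t) c m d| ≤ H t 1 c m d := by nlinarith
          have h5 : t * G t d (s ++ a :: u) c ≤ G t d (s ++ a :: u) c := by nlinarith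
          exact mul_le_mul h4 h5 (mul_nonneg ht.le h3) h2
  have := abs_le.1 main
  unfold Fc
  linarith [this.2]

lemma Fc_rot (t : ℝ) (a : K) (w : List K) : Fc t (a :: w) = Fc t (w ++ [a]) := by
  rw [Fc, Fc, Ey_rot, Ey_rot]

lemma G_not_good {t : ℝ} (ht : 0 < t) (ht1 : t < 1) {a : K} {w : List K} {b : K}
    (h : ¬ Good (some a) w (some b)) : G t a w b = 0 := g_not_good ht ht1 _ _ _ _ le_rfl h

lemma H_not_good {t : ℝ} (ht : 0 < t) (ht1 : t < 1) (y : ℝ) : ∀ (n : ℕ) (b : K) (w : List K)
    (d : K), w.length ≤ n → ¬ Good (some b) w (some d) → H t y b w d = 0 := by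
  intro n
  induction n using Nat.strong_induction_on with
  | _ n ih =>
  intro b w d hw hg
  rw [H_left, G_not_good ht ht1 hg, mul_zero, zero_add]
  refine ss_zero fun u c v h => ?_
  have hl := congrArg List.length h
  simp only [List.length_cons, List.length_append] at hl
  rw [h, good_split] at hg
  by_cases hg1 : Good (some b) u (some c)
  · rw [ih v.length (by omega) c v d le_rfl (fun h' => hg ⟨hg1, h'⟩), mul_zero]
  · rw [G_not_good ht ht1 hg1]; ring

lemma not_good_cons (a : K) (w : List K) (d : Option K) : ¬ Good (some a) (a :: w) d := by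
  intro h
  have := (good_split (u := []) (v := w)).1 h
  rw [good_nil] at this
  simp at this

lemma not_good_snoc (a : K) (w : List K) (b : Option K) : ¬ Good b (w ++ [a]) (some a) := by
  intro h
  have := (good_split (u := w) (v := [])).1 h
  rw [good_nil] at this
  simp at this

lemma not_good_double (a : K) (u w : List K) (b d : Option K) :
    ¬ Good b (u ++ a :: a :: w) d := by
  intro h
  exact not_good_cons a w d (good_split.1 h).2

lemma Ey_double {t : ℝ} (ht : 0 < t) (ht1 : t < 1) (y : ℝ) (a : K) (w : List K) :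
    Ey t y (a :: a :: w) = 0 := by
  rw [Ey_cons, H_not_good ht ht1 y _ _ _ _ le_rfl (not_good_cons _ _ _), zero_add]
  refine ss_zero fun u c v h => ss_zero fun m d s _ => ?_
  have : G t d (s ++ a :: u) c = 0 := by
    apply G_not_good ht ht1
    cases u with
    | nil =>
        simp only [List.nil_append, List.cons.injEq] at h
        rw [← h.1]
        exact not_good_snoc a s _
    | cons a' u =>
        simp only [List.cons_append, List.cons.injEq] at h
        rw [← h.1]
        exact not_good_double a s u _ _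
  rw [this]; ring

lemma Fc_double {t : ℝ} (ht : 0 < t) (ht1 : t < 1) (a : K) (w : List K) :
    Fc t (a :: a :: w) = 0 := by
  rw [Fc, Ey_double ht ht1, Ey_double ht ht1, sub_zero]

lemma G_map {t : ℝ} (ht : 0 < t) (ht1 : t < 1) (σ : Equiv.Perm K) (b : K) (w : List K) (d : K) :
    G t (σ b) (w.map σ) (σ d) = G t b w d :=
  g_map σ.injective ht ht1 _ (some b) w (some d) le_rfl

lemma H_map {t : ℝ} (ht : 0 < t) (ht1 : t < 1) (y : ℝ) (σ : Equiv.Perm K) :
    ∀ (n : ℕ) (b : K) (w : List K) (d : K), w.length ≤ n →
      H t y (σ b) (w.map σ) (σ d) = H t y b w d := by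
  intro n
  induction n using Nat.strong_induction_on with
  | _ n ih =>
  intro b w d hw
  rw [H_left, H_left, G_map ht ht1, ss_map]
  congr 1
  refine ss_congr fun u c v h => ?_
  have hl := congrArg List.length h
  simp only [List.length_cons, List.length_append] at hl
  rw [G_map ht ht1, ih v.length (by omega) c v d le_rfl]

lemma Ey_map {t : ℝ} (ht : 0 < t) (ht1 : t < 1) (y : ℝ) (σ : Equiv.Perm K) (w : List K) :
    Ey t y (w.map σ) = Ey t y w := by
  cases w with
  | nil => rfl
  | cons a z =>
      rw [List.map_cons, Ey_cons, Ey_cons, H_map ht ht1 y σ _ _ _ _ le_rfl, ss_map]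
      congr 1
      refine ss_congr fun u c v _ => ?_
      rw [ss_map]
      refine ss_congr fun m d s _ => ?_
      rw [H_map ht ht1 y σ _ _ _ _ le_rfl, ← List.map_cons, ← List.map_append, G_map ht ht1]

lemma Fc_map {t : ℝ} (ht : 0 < t) (ht1 : t < 1) (σ : Equiv.Perm K) (w : List K) :
    Fc t (w.map σ) = Fc t w := by
  rw [Fc, Fc, Ey_map ht ht1, Ey_map ht ht1]

/-! ### Matrix form -/

variable {t y : ℝ} {ω : ℕ → K} {m : ℕ}

/-- the resolvent matrix -/
noncomputable def rM (t y : ℝ) (ω : ℕ → K) (m : ℕ) : Matrix (Fin m) (Fin m) ℝ :=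
  Matrix.of fun i j => if i = j then 1 else if i < j then
    H t y (ω i) (seg ω (i + 1) j) (ω j) else 0

lemma rM_self (i : Fin m) : rM t y ω m i i = 1 := by simp [rM]

lemma rM_gt {i j : Fin m} (h : j < i) : rM t y ω m i j = 0 := by
  rw [rM, of_apply, if_neg h.ne', if_neg (not_lt.2 h.le)]

lemma rM_lt {i j : Fin m} (h : i < j) : rM t y ω m i j =
    H t y (ω i) (seg ω (i + 1) j) (ω j) := by
  rw [rM, of_apply, if_neg h.ne, if_pos h]

lemma rM_inv : (1 - y • gM t ω m) * rM t y ω m = 1 := by
  ext i j
  rw [sub_mul, one_mul, smul_mul_assoc, Matrix.sub_apply, Matrix.smul_apply, mul_apply, smul_eq_mul]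
  rcases lt_trichotomy i j with h | h | h
  · rw [one_apply_ne h.ne, rM_lt h, H_left, ss_seg' ω (by have := Fin.lt_def.1 h; omega),
      sum_Ico_fin (m := m) _ j.isLt.le]
    have e : ∀ k : Fin m, gM t ω m i k * rM t y ω m k j =
        (if k = j then gM t ω m i j else 0) + (if i.val + 1 ≤ k.val ∧ k.val < j.val then
          G t (ω i) (seg ω (i + 1) k) (ω k) * H t y (ω k) (seg ω (k + 1) j) (ω j) else 0) := by
      intro k
      rcases lt_trichotomy k j with hk | hk | hk
      · rw [if_neg hk.ne, zero_add, rM_lt hk]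
        by_cases hik : i < k
        · rw [if_pos ⟨by have := Fin.lt_def.1 hik; omega, Fin.lt_def.1 hk⟩, gM_apply, if_pos hik, G]
        · rw [gM_of_le (not_lt.1 hik), if_neg, zero_mul]
          intro h'
          exact hik (Fin.lt_def.2 (by omega))
      · subst hk
        rw [if_pos rfl, rM_self, mul_one, if_neg (by omega), add_zero]
      · rw [rM_gt hk, mul_zero, if_neg hk.ne', if_neg, add_zero]
        intro h'
        have := Fin.lt_def.1 hk
        omega
    simp only [e]
    rw [Finset.sum_add_distrib, Finset.sum_ite_eq' Finset.univ j, if_pos (Finset.mem_univ _)]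
    have e2 : ∑ k : Fin m, (if i.val + 1 ≤ k.val ∧ k.val < j.val then
        y * G t (ω i) (seg ω (i + 1) k) (ω k) * H t y (ω k) (seg ω (k + 1) j) (ω j) else 0) =
        y * ∑ k : Fin m, (if i.val + 1 ≤ k.val ∧ k.val < j.val then
          G t (ω i) (seg ω (i + 1) k) (ω k) * H t y (ω k) (seg ω (k + 1) j) (ω j) else 0) := by
      rw [Finset.mul_sum]
      refine Finset.sum_congr rfl fun k _ => ?_
      split_ifs <;> ring
    rw [e2, gM_apply, if_pos h, G]
    ring
  · subst h
    rw [one_apply_eq, rM_self, Finset.sum_eq_zero, mul_zero, sub_zero]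
    intro k _
    by_cases hik : i < k
    · rw [rM_gt hik, mul_zero]
    · rw [gM_of_le (not_lt.1 hik), zero_mul]
  · rw [one_apply_ne h.ne', rM_gt h, Finset.sum_eq_zero, mul_zero, sub_zero]
    intro k _
    by_cases hik : i < k
    · rw [rM_gt (h.trans hik), mul_zero]
    · rw [gM_of_le (not_lt.1 hik), zero_mul]

lemma rM_inv' : rM t y ω m * (1 - y • gM t ω m) = 1 := mul_eq_one_comm.1 rM_inv

lemma sum_rM (i : Fin m) (f : Fin m → ℝ) : ∑ j, rM t y ω m i j * f j = f i +
    ∑ j : Fin m, if i.val + 1 ≤ j.val ∧ j.val < m then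
      H t y (ω i) (seg ω (i + 1) j) (ω j) * f j else 0 := by
  have e : ∀ j : Fin m, rM t y ω m i j * f j = (if j = i then f i else 0) +
      (if i.val + 1 ≤ j.val ∧ j.val < m then
        H t y (ω i) (seg ω (i + 1) j) (ω j) * f j else 0) := by
    intro j
    have hj := j.isLt
    rcases lt_trichotomy i j with h | h | h
    · rw [rM_lt h, if_neg h.ne', if_pos ⟨by have := Fin.lt_def.1 h; omega, hj⟩, zero_add]
    · subst h
      rw [rM_self, if_pos rfl, if_neg (by omega), one_mul, add_zero]
    · rw [rM_gt h, if_neg h.ne, if_neg (by have := Fin.lt_def.1 h; omega), zero_mul, add_zero]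
  simp only [e]
  rw [Finset.sum_add_distrib, Finset.sum_ite_eq' Finset.univ i, if_pos (Finset.mem_univ _)]

theorem Ey_matrix (a : K) : Ey t y (a :: seg ω 0 m) =
    y * trace (rM t y ω m * (cM t ω m a + y • vecMulVec (aV t ω m (some a))
      (bV t ω m (some a)))) := by
  have h1 : Ey t y (a :: seg ω 0 m) = H t y a (seg ω 0 m) a + ∑ i : Fin m,
      y * ∑ j, rM t y ω m i j * cM t ω m a j i := by
    rw [Ey_cons]
    congr 1
    rw [ss_seg' ω (Nat.zero_le m), sum_Ico_fin (m := m) _ le_rfl]
    refine Finset.sum_congr rfl fun i _ => ?_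
    rw [if_pos ⟨Nat.zero_le _, i.isLt⟩, ss_seg' ω i.isLt, sum_Ico_fin (m := m) _ le_rfl, sum_rM,
      cM_same rfl, zero_add, Finset.mul_sum]
    refine Finset.sum_congr rfl fun j _ => ?_
    split_ifs
    · have : cM t ω m a j i = G t (ω j) (seg ω (j + 1) m ++ a :: seg ω 0 i) (ω i) := rfl
      rw [this]
      ring
    · ring
  have h2 : H t y a (seg ω 0 m) a = ∑ i : Fin m, y ^ 2 * (bV t ω m (some a) i *
      ∑ j, rM t y ω m i j * aV t ω m (some a) j) := by
    rw [H_left, G_self, mul_zero, zero_add, ss_seg' ω (Nat.zero_le m),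
      sum_Ico_fin (m := m) _ le_rfl]
    refine Finset.sum_congr rfl fun i _ => ?_
    rw [if_pos ⟨Nat.zero_le _, i.isLt⟩, H_right t y _ _ _ _ le_rfl, ss_seg' ω i.isLt,
      sum_Ico_fin (m := m) _ le_rfl, sum_rM]
    have hb : G t a (seg ω 0 i) (ω i) = bV t ω m (some a) i := rfl
    have ha : ∀ j : Fin m, G t (ω j) (seg ω (j + 1) m) a = aV t ω m (some a) j := fun j => rfl
    rw [hb]
    simp only [ha]
    have e2 : ∑ j : Fin m, (if i.val + 1 ≤ j.val ∧ j.val < m then
        H t y (ω i) (seg ω (i + 1) j) (ω j) * (y * aV t ω m (some a) j) else 0) =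
        y * ∑ j : Fin m, (if i.val + 1 ≤ j.val ∧ j.val < m then
          H t y (ω i) (seg ω (i + 1) j) (ω j) * aV t ω m (some a) j else 0) := by
      rw [Finset.mul_sum]
      refine Finset.sum_congr rfl fun k _ => ?_
      split_ifs <;> ring
    rw [e2]
    ring
  rw [h1, h2, mul_add, mul_smul_comm, trace_add, trace_smul, smul_eq_mul, mul_add, ← mul_assoc y y,
    ← pow_two, add_comm]
  congr 1
  · rw [← Finset.mul_sum]
    congr 1
  · rw [← Finset.mul_sum]
    congr 1
    rw [trace]
    refine Finset.sum_congr rfl fun i _ => ?_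
    rw [diag_apply, mul_apply, Finset.mul_sum]
    refine Finset.sum_congr rfl fun j _ => ?_
    rw [vecMulVec_apply]
    ring

lemma exists_seg [Nonempty K] (z : List K) : ∃ ω : ℕ → K, seg ω 0 z.length = z := by
  refine ⟨fun i => z.getD i (Classical.arbitrary K), ?_⟩
  apply List.ext_getElem
  · simp
  · intro i h1 h2
    simp [seg, List.getElem?_eq_getElem h2]

/-- The marginal identity. -/
theorem Fc_marg [Fintype K] [Nonempty K] (ht : 0 < t) (ht1 : t < 1)
    (hq : (Fintype.card K : ℝ) * t = (1 + t) ^ 2) (z : List K) :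
    ∑ a : K, Fc t (a :: z) = (1 + t) * (1 - t ^ (z.length + 2)) * (t ^ (z.length + 1))⁻¹ *
      (1 - t ^ z.length) * (kappa t z.length * pw t z) := by
  obtain ⟨ω, hω⟩ := exists_seg z
  rw [← g_none ht ht1 _ z rfl]
  have h := marg_matrix (m := z.length) (ω := ω) ht ht1 hq (Rm := rM t 1 ω z.length)
    (Rt := rM t (-t) ω z.length)
    (by
      have := rM_inv' (t := t) (y := 1) (ω := ω) (m := z.length)
      rwa [one_smul] at this)
    (by
      have := rM_inv' (t := t) (y := -t) (ω := ω) (m := z.length)
      have e : (1 + t) • (1 : Matrix (Fin z.length) (Fin z.length) ℝ) - t • aM t ω z.length =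
          1 - (-t) • gM t ω z.length := by
        unfold aM
        rw [smul_sub, add_smul, one_smul, neg_smul]
        abel
      rw [e]
      exact this)
  rw [hω] at h
  rw [← h, Finset.mul_sum, Finset.mul_sum, trace_sum, trace_sum, Finset.mul_sum,
    ← Finset.sum_add_distrib]
  refine Finset.sum_congr rfl fun a _ => ?_
  have e1 := Ey_matrix (t := t) (y := 1) (ω := ω) (m := z.length) a
  have e2 := Ey_matrix (t := t) (y := -t) (ω := ω) (m := z.length) a
  rw [hω] at e1 e2
  rw [Fc, e1, e2, one_mul, one_smul, neg_smul, ← sub_eq_add_neg]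
  ring

/-- The normalising constant. -/
noncomputable def cst (t : ℝ) (m : ℕ) : ℝ :=
  (1 + t) * (1 - t ^ (m + 2)) * (t ^ (m + 1))⁻¹ * (1 - t ^ m) * kappa t m

lemma cst_pos (ht : 0 < t) (ht1 : t < 1) {m : ℕ} (hm : m ≠ 0) : 0 < cst t m := by
  unfold cst kappa
  have h1 := one_sub_pow_pos ht ht1 (m := m + 2) (by omega)
  have h2 := one_sub_pow_pos ht ht1 hm
  have h3 := one_sub_pow_pos ht ht1 (m := m + 1) (by omega)
  have h4 : 0 < 1 - t := by linarith
  have h5 : 0 < 1 + t := by linarith
  have h6 := pow_pos ht (m + 1)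
  positivity

/-- The cyclic word function of the colouring. -/
noncomputable def Pcyc (t : ℝ) (w : List K) : ℝ := Fc t w / cst t (w.length - 1)

theorem cyc_isSymDep [Fintype K] [Nonempty K] (ht : 0 < t) (ht1 : t < 1)
    (hq : (Fintype.card K : ℝ) * t = (1 + t) ^ 2) {n : ℕ} (hn : 3 ≤ n) :
    IsSymDep 1 n K (fun x => Pcyc t (List.ofFn x)) := by
  refine isSymDep_of_words (p := pw t) hn (pw_nil t) ?_ ?_ ?_ ?_ ?_ ?_
  · intro u v
    exact pw_marg ht hq _ u v le_rfl
  · intro a w
    rw [Pcyc, Pcyc, Fc_rot]
    simp
  · intro w hw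
    have h0 : w.length ≠ 0 := by omega
    have h1 := cst_pos ht ht1 h0
    simp only [Pcyc, List.length_cons, Nat.add_sub_cancel]
    rw [← Finset.sum_div, Fc_marg ht ht1 hq, div_eq_iff h1.ne', cst]
    ring
  · intro w hw
    exact div_nonneg (Fc_nonneg ht ht1 w) (cst_pos ht ht1 (by omega)).le
  · intro a w _
    rw [Pcyc, Fc_double ht ht1, zero_div]
  · intro σ w
    rw [Pcyc, Pcyc, Fc_map ht ht1, List.length_map]

end Pool.Agent.Work.MP_240aa8_pr
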