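import Pool.Agent.Work.MP_240aa8_pr.Four

/-!
The case of three colours: colour-symmetric `3`-dependent `3`-colourings of all cycles, obtained
from the `4`-colouring by recolouring the vertices of the fourth colour.
-/

namespace Pool.Agent.Work.MP_240aa8_pr

open Finset SimpleGraph

section Swap

variable {V C : Type} [Fintype V] [Fintype C] [DecidableEq V]

open Classical in
/-- swapping coordinates outside `A` between two independent copies -/
lemma swap_sum {A : Set V} {κ κ' : V → C → ℝ} (hκ : ∀ v ∈ A, κ v = κ' v)
    {f g : (V → C) → ℝ} (hf : ∀ x y : V → C, (∀ i ∈ A, x i = y i) → f x = f y)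
    (hg : ∀ x y : V → C, (∀ i, i ∉ A → x i = y i) → g x = g y) :
    (∑ y, (∏ v, κ v (y v)) * f y) * (∑ y, (∏ v, κ' v (y v)) * g y) =
      (∑ y, (∏ v, κ' v (y v)) * (f y * g y)) * ∑ y : V → C, ∏ v, κ v (y v) := by
  rw [Finset.sum_mul_sum, Finset.sum_mul_sum]
  rw [← Finset.sum_product', ← Finset.sum_product']
  let sw : (V → C) × (V → C) → (V → C) × (V → C) := fun p =>
    (fun v => if v ∈ A then p.1 v else p.2 v, fun v => if v ∈ A then p.2 v else p.1 v)
  have hsw : ∀ p, sw (sw p) = p := by
    intro p
    apply Prod.ext <;> funext v <;> by_cases h : v ∈ A <;> simp [sw, h]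
  refine Finset.sum_nbij' sw sw (by simp) (by simp) (fun p _ => hsw p) (fun p _ => hsw p) ?_
  intro p _
  have h1 : f p.1 = f (sw p).1 := hf _ _ (fun i hi => by simp [sw, hi])
  have h2 : g p.2 = g (sw p).1 := hg _ _ (fun i hi => by simp [sw, hi])
  have h3 : (∏ v, κ v (p.1 v)) * (∏ v, κ' v (p.2 v)) =
      (∏ v, κ' v ((sw p).1 v)) * ∏ v, κ v ((sw p).2 v) := by
    rw [← Finset.prod_mul_distrib, ← Finset.prod_mul_distrib]
    refine Finset.prod_congr rfl fun v _ => ?_
    by_cases h : v ∈ A
    · simp [sw, h, hκ v h]
    · simp [sw, h, mul_comm]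
  rw [h1, h2]
  linear_combination (f (sw p).1 * g (sw p).1) * h3

end Swap

variable {n : ℕ}

/-- available colours at `v` -/
noncomputable def avail (x : Fin n → Option (Fin 3)) (v : Fin n) : Finset (Fin 3) := by
  classical
  exact univ.filter fun c => ∀ u, (cycleGraph n).Adj v u → x u ≠ some c

lemma mem_avail {x : Fin n → Option (Fin 3)} {v : Fin n} {c : Fin 3} :
    c ∈ avail x v ↔ ∀ u, (cycleGraph n).Adj v u → x u ≠ some c := by
  classical
  simp [avail]

lemma adj_iff (hn : 3 ≤ n) {i j : Fin n} (h : (cycleGraph n).Adj i j) :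
    j = ⟨(i.val + 1) % n, Nat.mod_lt _ (by omega)⟩ ∨
      j = ⟨(i.val + n - 1) % n, Nat.mod_lt _ (by omega)⟩ := by
  rcases eq_succ_of_adj hn h with h | h
  · left; exact Fin.ext h
  · right
    apply Fin.ext
    simp only
    have hj := j.isLt
    rcases Nat.lt_or_ge (j.val + 1) n with h' | h'
    · rw [Nat.mod_eq_of_lt h'] at h
      rw [h]
      have : j.val + 1 + n - 1 = n + j.val := by omega
      rw [this, Nat.add_mod_left, Nat.mod_eq_of_lt hj]
    · have : j.val + 1 = n := by omega
      rw [this, Nat.mod_self] at h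
      rw [h, Nat.mod_eq_of_lt (by omega)]
      omega

lemma avail_nonempty (hn : 3 ≤ n) (x : Fin n → Option (Fin 3)) (v : Fin n) :
    (avail x v).Nonempty := by
  set a := x ⟨(v.val + 1) % n, Nat.mod_lt _ (by omega)⟩
  set b := x ⟨(v.val + n - 1) % n, Nat.mod_lt _ (by omega)⟩
  obtain ⟨c, hca, hcb⟩ : ∃ c : Fin 3, a ≠ some c ∧ b ≠ some c := by
    clear_value a b
    revert a b
    decide
  refine ⟨c, mem_avail.2 fun u hu => ?_⟩
  rcases adj_iff hn hu with rfl | rfl
  · exact hca
  · exact hcb

open Classical in
/-- The recolouring kernel. -/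
noncomputable def kap (x : Fin n → Option (Fin 3)) (v : Fin n) (c : Fin 3) : ℝ :=
  match x v with
  | some d => if c = d then 1 else 0
  | none => if c ∈ avail x v then 1 / ((avail x v).card : ℝ) else 0

lemma kap_nonneg (x : Fin n → Option (Fin 3)) (v : Fin n) (c : Fin 3) : 0 ≤ kap x v c := by
  unfold kap
  split
  · split_ifs <;> norm_num
  · split_ifs
    · positivity
    · exact le_rfl

lemma kap_sum (hn : 3 ≤ n) (x : Fin n → Option (Fin 3)) (v : Fin n) : ∑ c, kap x v c = 1 := by
  classical
  unfold kap
  split
  · simp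
  · rw [Finset.sum_ite_mem, Finset.univ_inter, Finset.sum_const, nsmul_eq_mul]
    have : ((avail x v).card : ℝ) ≠ 0 := by
      have := (avail_nonempty hn x v).card_pos
      positivity
    field_simp

lemma kap_prod_sum (hn : 3 ≤ n) (x : Fin n → Option (Fin 3)) :
    ∑ y : Fin n → Fin 3, ∏ v, kap x v (y v) = 1 := by
  classical
  have := Finset.prod_univ_sum (fun _ : Fin n => (univ : Finset (Fin 3))) (fun v c => kap x v c)
  rw [Fintype.piFinset_univ] at this
  rw [← this]
  exact Finset.prod_eq_one fun v _ => kap_sum hn x v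

lemma avail_congr {x x' : Fin n → Option (Fin 3)} {v : Fin n}
    (h : ∀ u, (cycleGraph n).Adj v u → x u = x' u) : avail x v = avail x' v := by
  ext c
  rw [mem_avail, mem_avail]
  exact forall₂_congr fun u hu => by rw [h u hu]

lemma kap_congr {x x' : Fin n → Option (Fin 3)} {v : Fin n} (hv : x v = x' v)
    (h : ∀ u, (cycleGraph n).Adj v u → x u = x' u) : kap x v = kap x' v := by
  funext c
  simp only [kap, hv, avail_congr h]

lemma avail_perm (σ : Equiv.Perm (Fin 3)) (x : Fin n → Option (Fin 3)) (v : Fin n) :
    avail (Equiv.optionCongr σ ∘ x) v = (avail x v).map σ.toEmbedding := by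
  ext c
  rw [mem_avail, Finset.mem_map_equiv, mem_avail]
  refine forall₂_congr fun u _ => ?_
  simp only [Function.comp_apply]
  rw [not_iff_not]
  constructor
  · intro h
    cases hx : x u with
    | none => rw [hx] at h; simp at h
    | some d =>
        rw [hx] at h
        simp only [Equiv.optionCongr_apply, Option.map_some, Option.some.injEq] at h
        rw [← h]; simp
  · intro h
    rw [h]; simp

lemma kap_perm (σ : Equiv.Perm (Fin 3)) (x : Fin n → Option (Fin 3)) (v : Fin n) (c : Fin 3) :
    kap (Equiv.optionCongr σ ∘ x) v (σ c) = kap x v c := by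
  classical
  unfold kap
  rw [avail_perm]
  cases hx : x v with
  | none =>
      simp [hx]
  | some d =>
      simp [hx]

/-- the weight function of the `3`-colouring -/
noncomputable def w3 (w4 : (Fin n → Option (Fin 3)) → ℝ) (y : Fin n → Fin 3) : ℝ :=
  ∑ x, w4 x * ∏ v, kap x v (y v)

lemma w3_sum (w4 : (Fin n → Option (Fin 3)) → ℝ) (F : (Fin n → Fin 3) → ℝ) :
    ∑ y, w3 w4 y * F y = ∑ x, w4 x * ∑ y, (∏ v, kap x v (y v)) * F y := by
  simp only [w3, Finset.sum_mul, Finset.mul_sum]
  rw [Finset.sum_comm]
  exact Finset.sum_congr rfl fun x _ => Finset.sum_congr rfl fun y _ => by ring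

theorem three_isSymDep (hn : 3 ≤ n) {w4 : (Fin n → Option (Fin 3)) → ℝ}
    (h4 : IsSymDep 1 n (Option (Fin 3)) w4) : IsSymDep 3 n (Fin 3) (w3 w4) where
  nonneg := fun y => Finset.sum_nonneg fun x _ =>
    mul_nonneg (h4.nonneg x) (Finset.prod_nonneg fun v _ => kap_nonneg _ _ _)
  total := by
    have := w3_sum w4 (fun _ => 1)
    simp only [mul_one] at this
    rw [this]
    simp only [kap_prod_sum hn, mul_one]
    exact h4.total
  proper := by
    intro y hy i j hij
    obtain ⟨x, _, hx⟩ := Finset.exists_ne_zero_of_sum_ne_zero hy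
    have hx1 : w4 x ≠ 0 := left_ne_zero_of_mul hx
    have hx2 := Finset.prod_ne_zero_iff.1 (right_ne_zero_of_mul hx)
    have hi := hx2 i (Finset.mem_univ _)
    have hj := hx2 j (Finset.mem_univ _)
    have hp := h4.proper x hx1 i j hij
    unfold kap at hi hj
    cases hxi : x i with
    | some d =>
        cases hxj : x j with
        | some e =>
            simp only [hxi, hxj, ne_eq, ite_eq_right_iff, one_ne_zero, imp_false, not_not] at hi hj
            rw [hi, hj]
            intro h
            apply hp
            rw [hxi, hxj, h]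
        | none =>
            simp only [hxi, hxj, ne_eq, ite_eq_right_iff, one_ne_zero, imp_false, not_not] at hi
            simp only [hxj] at hj
            have : y j ∈ avail x j := by
              by_contra hcon
              rw [if_neg hcon] at hj
              exact hj rfl
            rw [mem_avail] at this
            have := this i hij.symm
            rw [hxi] at this
            intro h
            apply this
            rw [← h, hi]
    | none =>
        cases hxj : x j with
        | some e =>
            simp only [hxj, ne_eq, ite_eq_right_iff, one_ne_zero, imp_false, not_not] at hj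
            simp only [hxi] at hi
            have : y i ∈ avail x i := by
              by_contra hcon
              rw [if_neg hcon] at hi
              exact hi rfl
            rw [mem_avail] at this
            have := this j hij
            rw [hxj] at this
            intro h
            apply this
            rw [h, hj]
        | none =>
            exact absurd (by rw [hxi, hxj]) hp
  symm := by
    intro σ y
    unfold w3
    rw [← Equiv.sum_comp ((Equiv.refl (Fin n)).arrowCongr (Equiv.optionCongr σ))]
    refine Finset.sum_congr rfl fun x _ => ?_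
    have e : ((Equiv.refl (Fin n)).arrowCongr (Equiv.optionCongr σ)) x =
        Equiv.optionCongr σ ∘ x := by
      funext i; simp [Equiv.arrowCongr]
    rw [e, h4.symm]
    congr 1
    exact Finset.prod_congr rfl fun v _ => kap_perm σ x v (y v)
  dep := by
    intro A B hAB f g hf hg
    have hdisj : ∀ i ∈ B, i ∉ A := by
      intro i hi hi'
      have := hAB i hi' i hi
      simp at this
    rw [w3_sum, w3_sum, w3_sum]
    -- factorisation over the kernel
    have h1 : ∀ x, ∑ y, (∏ v, kap x v (y v)) * (f y * g y) =
        (∑ y, (∏ v, kap x v (y v)) * f y) * ∑ y, (∏ v, kap x v (y v)) * g y := by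
      intro x
      rw [swap_sum (A := A) (κ := kap x) (κ' := kap x) (fun _ _ => rfl) hf
        (fun y y' h => hg y y' fun i hi => h i (hdisj i hi)), kap_prod_sum hn, mul_one]
    simp only [h1]
    -- locality
    have hloc : ∀ (A : Set (Fin n)) (f : (Fin n → Fin 3) → ℝ),
        (∀ x y : Fin n → Fin 3, (∀ i ∈ A, x i = y i) → f x = f y) →
        ∀ x x' : Fin n → Option (Fin 3),
        (∀ i ∈ {i | i ∈ A ∨ ∃ a ∈ A, (cycleGraph n).Adj a i}, x i = x' i) →
        ∑ y, (∏ v, kap x v (y v)) * f y = ∑ y, (∏ v, kap x' v (y v)) * f y := by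
      intro A f hf x x' hx
      have := swap_sum (A := A) (κ := kap x) (κ' := kap x') (f := f) (g := fun _ => 1)
        (fun v hv => kap_congr (hx v (Or.inl hv)) (fun u hu => hx u (Or.inr ⟨v, hv, hu⟩)))
        hf (fun _ _ _ => rfl)
      simpa [kap_prod_sum hn] using this
    refine h4.dep {i | i ∈ A ∨ ∃ a ∈ A, (cycleGraph n).Adj a i}
      {i | i ∈ B ∨ ∃ a ∈ B, (cycleGraph n).Adj a i} ?_ _ _ (hloc A f hf) (hloc B g hg)
    intro a ha b hb
    have hconn : (cycleGraph n).Connected := by
      obtain ⟨m, rfl⟩ : ∃ m, n = m + 1 := ⟨n - 1, by omega⟩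
      exact cycleGraph_connected
    have step : ∀ (A : Set (Fin n)) (a : Fin n), a ∈ {i | i ∈ A ∨ ∃ a ∈ A, (cycleGraph n).Adj a i} →
        ∃ a' ∈ A, (cycleGraph n).dist a' a ≤ 1 := by
      intro A a ha
      rcases ha with ha | ⟨a', ha', had⟩
      · exact ⟨a, ha, by simp⟩
      · exact ⟨a', ha', le_of_eq (dist_eq_one_iff_adj.2 had)⟩
    obtain ⟨a', ha', da⟩ := step A a ha
    obtain ⟨b', hb', db⟩ := step B b hb
    have h3 := hAB a' ha' b' hb'
    have t1 : (cycleGraph n).dist a' b' ≤ (cycleGraph n).dist a' a + (cycleGraph n).dist a b' :=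
      hconn.dist_triangle
    have t2 : (cycleGraph n).dist a b' ≤ (cycleGraph n).dist a b + (cycleGraph n).dist b b' :=
      hconn.dist_triangle
    rw [SimpleGraph.dist_comm (u := b) (v := b')] at t2
    omega

end Pool.Agent.Work.MP_240aa8_pr
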