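import Mathlib

/-!
Noncommutative algebra behind the marginal identity.
-/

namespace Pool.Agent.Work.MP_240aa8_pr

variable {R : Type*} [Ring R] [Algebra ℝ R] {t q N : ℝ} {D Di A Z Y W Δ : R}

/-- the summed product of the `α` and `β` vectors -/
noncomputable def PiF (q t N : ℝ) (D A Z Y : R) : R :=
  q • ((N • D - 1) * Z * (1 - D)) + (N • D - 1) * Z * (t • A + D - (1 + t) • 1) +
    (A - N • D) * Z * (1 - D) + (A - N • D) * Y * (t • A + D - (1 + t) • 1)

/-- the closed form of the summed `γ` matrix -/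
noncomputable def GaF (t N : ℝ) (D Di A Z Y W : R) : R :=
  (1 - t) • ((N • D - 1) * Z * (1 - D)) + t • ((N • D - 1) * Z) + Z * (1 - D) +
    (t * N) • (D * Y * A) + N • (D * Y * (D - (1 + t) • 1)) + t • (W * A) -
    (t * N⁻¹) • (A * Di * W * D)

theorem core_eq (hN : N ≠ 0) (h1 : D * Di = 1) (h2 : Di * D = 1)
    (hΔ : (1 + t) • A - t • (D * A * Di * A) = Δ)
    (R1 : (1 + t) • ((N • D - 1) * Z) - t • (D * A * Di * ((N • D - 1) * Z)) =
      (t * N) • (D * ((N • D - 1) * Z)))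
    (R2 : t • (Z * (1 - D) * Di * A) = Z * (1 - D))
    (R5 : W - N • (D * W * Di) = N • (D * (N • D - 1) * Y))
    (htq : t * q = (1 + t) ^ 2) :
    (1 + t) • GaF t N D Di A Z Y W - t • (D * A * Di * GaF t N D Di A Z Y W) -
      (t * N) • (D * GaF t N D Di A Z Y W * Di * A) + (t * N) • (D * PiF q t N D A Z Y) =
    (N * (1 + t)) • (D * Y * (D - (1 + t) • 1)) - (t * N ^ 2) • (D * D * Y * (D - (1 + t) • 1)) -
      (t * N⁻¹) • (Δ * Di * W * D) + (t * N ^ 2) • (D * D * Y * Di * Δ) +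
      (t * N) • (D * W * Di * Δ) := by
  have h1' : ∀ X : R, D * (Di * X) = X := fun X => by rw [← mul_assoc, h1, one_mul]
  have h2' : ∀ X : R, Di * (D * X) = X := fun X => by rw [← mul_assoc, h2, one_mul]
  unfold GaF PiF
  linear_combination (norm := skip) t • (R1 * D) - (N ^ 2) • (D * D * R2) +
    (t * N ^ 2) • (D * D * Y * Di * hΔ) + (t * N) • (D * W * Di * hΔ) -
    (t * N⁻¹) • (hΔ * (Di * W * D)) + (t * (1 + t)) • (R5 * A) +
    htq • (N • (D * (N • D - 1) * Z * (1 - D)))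
  simp only [mul_add, add_mul, mul_sub, sub_mul, mul_one, one_mul, smul_mul_assoc, mul_smul_comm,
    mul_assoc, smul_add, smul_sub, smul_smul, h1, h2']
  match_scalars <;> field_simp <;> ring

/-- the matrix identity for the `α` vectors -/
theorem alpha_eq (h2 : Di * D = 1) (hΔ : (1 + t) • A - t • (D * A * Di * A) = Δ) :
    ((1 + t) • (1 : R) - t • (D * A * Di) - (t * N) • D) * (A - N • D) =
      Δ - ((1 + t) * N) • D + (t * N ^ 2) • (D * D) := by
  have h2' : ∀ X : R, Di * (D * X) = X := fun X => by rw [← mul_assoc, h2, one_mul]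
  linear_combination (norm := skip) hΔ
  simp only [mul_add, add_mul, mul_sub, sub_mul, mul_one, one_mul, smul_mul_assoc, mul_smul_comm,
    mul_assoc, smul_add, smul_sub, smul_smul, h2]
  match_scalars <;> ring

/-- the matrix identity for the `β` vectors -/
theorem beta_eq (h1 : D * Di = 1) (h2 : Di * D = 1)
    (hΔ : (1 + t) • A - t • (D * A * Di * A) = Δ) :
    (t • A + D - (1 + t) • 1) * (t • (Di * A) - 1) = (1 + t) • (1 : R) - D - t • (Di * Δ) := by
  have h1' : ∀ X : R, D * (Di * X) = X := fun X => by rw [← mul_assoc, h1, one_mul]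
  have h2' : ∀ X : R, Di * (D * X) = X := fun X => by rw [← mul_assoc, h2, one_mul]
  linear_combination (norm := skip) (-t) • (Di * hΔ)
  simp only [mul_add, add_mul, mul_sub, sub_mul, mul_one, one_mul, smul_mul_assoc, mul_smul_comm,
    mul_assoc, smul_add, smul_sub, smul_smul, h1', h2']
  match_scalars <;> ring

section Trace

variable {tr : R →ₗ[ℝ] ℝ} {Rm Rt : R}

theorem trace_one (hN : N ≠ 0) (htr : ∀ X Y, tr (X * Y) = tr (Y * X))
    (h1 : D * Di = 1) (h2 : Di * D = 1)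
    (R2 : t • (Z * (1 - D) * Di * A) = Z * (1 - D))
    (R5 : W - N • (D * W * Di) = N • (D * (N • D - 1) * Y))
    (htq : t * q = (1 + t) ^ 2) (hR1 : Rm * A = 1) (hR2 : A * Rm = 1)
    (hYA : tr (Y * A) = tr Y) (hY : tr Y = tr Z) (hYD : tr (D * Y) = tr (D * Z))
    (hYD2 : tr (D * (D * Y)) = tr (D * (D * Z))) :
    tr (Rm * (GaF t N D Di A Z Y W + PiF q t N D A Z Y)) =
      (1 + t) * tr ((N • D - 1) * (Z * (1 - D)) * Di) +
        t * (tr ((N • D - 1) * Z) - tr (D * ((N • D - 1) * Z))) := by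
  obtain ⟨X2, hX2⟩ : ∃ X2, X2 = Z * (1 - D) := ⟨_, rfl⟩
  obtain ⟨X1, hX1⟩ : ∃ X1, X1 = (N • D - 1) * Z := ⟨_, rfl⟩
  obtain ⟨P1, hP1⟩ : ∃ P1, P1 = (N • D - 1) * X2 := ⟨_, rfl⟩
  have e1 : GaF t N D Di A Z Y W + PiF q t N D A Z Y =
      (q - 1 - t) • P1 + t • (X1 * A) + A * X2 +
        t • (A * (Y * A)) + A * (Y * D) - (1 + t) • (A * Y) + t • (W * A) -
        (t * N⁻¹) • (A * (Di * (W * D))) := by
    rw [hP1, hX1, hX2]
    unfold GaF PiF
    simp only [mul_add, add_mul, mul_sub, sub_mul, mul_one, one_mul, smul_mul_assoc, mul_smul_comm,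
      mul_assoc, smul_add, smul_sub, smul_smul]
    match_scalars <;> ring
  have hR1' : ∀ X : R, Rm * (A * X) = X := fun X => by rw [← mul_assoc, hR1, one_mul]
  rw [← hX2] at R2 ⊢
  rw [← hP1, ← hX1]
  have e2 : X2 * Rm = t • (X2 * Di) := by
    conv_lhs => rw [← R2]
    rw [smul_mul_assoc, mul_assoc _ A Rm, hR2, mul_one]
  have t1 : tr (Rm * P1) = t * tr (P1 * Di) := by
    rw [htr, hP1, mul_assoc, e2, mul_smul_comm, map_smul, smul_eq_mul, mul_assoc]
  have t2 : tr (Rm * (X1 * A)) = tr X1 := by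
    rw [htr, mul_assoc, hR2, mul_one]
  have t3 : tr (Rm * (W * A)) = tr W := by
    rw [htr, mul_assoc, hR2, mul_one]
  have t4 : tr (Di * (W * D)) = tr W := by
    rw [htr, mul_assoc, h1, mul_one]
  have t5 : (1 - N) * tr W = N * tr (D * X1) := by
    have := congrArg tr R5
    simp only [map_sub, map_smul, smul_eq_mul] at this
    have e : tr (D * W * Di) = tr W := by rw [htr, ← mul_assoc, h2, one_mul]
    have e' : tr (D * (N • D - 1) * Y) = tr (D * X1) := by
      rw [hX1]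
      simp only [mul_sub, sub_mul, mul_one, one_mul, smul_mul_assoc, mul_smul_comm, map_sub,
        map_smul, smul_eq_mul, mul_assoc, hYD, hYD2]
    rw [e, e'] at this
    linear_combination this
  have t6 : tr (Y * D) = tr (D * Z) := by rw [htr, hYD]
  have t7 : tr X2 = tr Z - tr (D * Z) := by
    rw [hX2, mul_sub, mul_one, map_sub, htr Z D]
  rw [e1]
  simp only [mul_add, mul_sub, mul_smul_comm, map_add, map_sub, map_smul, smul_eq_mul, hR1', t1, t2,
    t3, t4, hYA, hY, t6, t7]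
  have hNi : N⁻¹ * N = 1 := inv_mul_cancel₀ hN
  linear_combination (tr (P1 * Di)) * htq - (t * N⁻¹) * t5 + (-(t * tr W) - t * tr (D * X1)) * hNi

theorem trace_two (hN : N ≠ 0) (ht : t ≠ 0) (htr : ∀ X Y, tr (X * Y) = tr (Y * X))
    (h1 : D * Di = 1) (h2 : Di * D = 1)
    (R1 : (1 + t) • ((N • D - 1) * Z) - t • (D * A * Di * ((N • D - 1) * Z)) =
      (t * N) • (D * ((N • D - 1) * Z)))
    (R5 : W - N • (D * W * Di) = N • (D * (N • D - 1) * Y))
    (htq : t * q = (1 + t) ^ 2) (hR1 : Rt * ((1 + t) • 1 - t • A) = 1)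
    (hR2 : ((1 + t) • 1 - t • A) * Rt = 1)
    (hYA : tr (Y * A) = tr Y) (hY : tr Y = tr Z) (hYD : tr (D * Y) = tr (D * Z))
    (hYD2 : tr (D * (D * Y)) = tr (D * (D * Z))) :
    tr (Rt * (GaF t N D Di A Z Y W - t • PiF q t N D A Z Y)) =
      -(1 + t) * N⁻¹ * tr ((N • D - 1) * (Z * (1 - D)) * Di) -
        (tr ((N • D - 1) * Z) - tr (D * ((N • D - 1) * Z))) := by
  obtain ⟨B, hB⟩ : ∃ B, B = (1 + t) • 1 - t • A := ⟨_, rfl⟩
  obtain ⟨X2, hX2⟩ : ∃ X2, X2 = Z * (1 - D) := ⟨_, rfl⟩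
  obtain ⟨X1, hX1⟩ : ∃ X1, X1 = (N • D - 1) * Z := ⟨_, rfl⟩
  obtain ⟨P1, hP1⟩ : ∃ P1, P1 = X1 * (1 - D) := ⟨_, rfl⟩
  obtain ⟨Y1, hY1⟩ : ∃ Y1, Y1 = (N • D - 1) * Y := ⟨_, rfl⟩
  have h1' : ∀ X : R, D * (Di * X) = X := fun X => by rw [← mul_assoc, h1, one_mul]
  have h2' : ∀ X : R, Di * (D * X) = X := fun X => by rw [← mul_assoc, h2, one_mul]
  have hNi : N⁻¹ * N = 1 := inv_mul_cancel₀ hN
  have hNt : (t * N)⁻¹ * (t * N) = 1 := inv_mul_cancel₀ (mul_ne_zero ht hN)
  have e1 : GaF t N D Di A Z Y W - t • PiF q t N D A Z Y =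
      (1 + t - t * q) • P1 + t • (X1 * B) + B * X2 + B * (Y * D) - B * (Y * B) -
        (1 + t) • (Y1 * B) - W * B + N⁻¹ • (B * (Di * (W * D))) := by
    rw [hP1, hX1, hX2, hY1, hB]
    unfold GaF PiF
    linear_combination (norm := skip) (-((1 + t) * N⁻¹)) • (Di * R5 * D)
    simp only [mul_add, add_mul, mul_sub, sub_mul, mul_one, one_mul, smul_mul_assoc, mul_smul_comm,
      mul_assoc, smul_add, smul_sub, smul_smul, h1', h2', h2]
    match_scalars <;> field_simp <;> ring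
  rw [← hB] at hR1 hR2
  rw [← hX1] at R1 ⊢
  have hR1' : ∀ X : R, Rt * (B * X) = X := fun X => by rw [← mul_assoc, hR1, one_mul]
  have e2 : Rt * X1 = (t * N)⁻¹ • (Di * X1) := by
    have : B * (Di * X1) = (t * N) • X1 := by
      have h := congrArg (fun X => Di * X) R1
      simp only [mul_sub, mul_smul_comm, mul_assoc, h2'] at h
      rw [hB, sub_mul, smul_mul_assoc, one_mul, smul_mul_assoc, h]
    have h3 : Di * X1 = (t * N) • (Rt * X1) := by
      rw [← mul_smul_comm, ← this, hR1']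
    rw [h3, smul_smul, hNt, one_smul]
  have t1 : tr (Rt * P1) = (t * N)⁻¹ * tr (P1 * Di) := by
    rw [hP1, ← mul_assoc, e2, smul_mul_assoc, map_smul, smul_eq_mul, mul_assoc Di, htr Di]
  have hP1' : (N • D - 1) * (Z * (1 - D)) = P1 := by rw [hP1, hX1, mul_assoc]
  have t2 : tr (Rt * (X1 * B)) = tr X1 := by
    rw [htr, mul_assoc, hR2, mul_one]
  have t3 : tr (Rt * (W * B)) = tr W := by
    rw [htr, mul_assoc, hR2, mul_one]
  have t4 : tr (Di * (W * D)) = tr W := by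
    rw [htr, mul_assoc, h1, mul_one]
  have t5 : (1 - N) * tr W = N * tr (D * X1) := by
    have := congrArg tr R5
    simp only [map_sub, map_smul, smul_eq_mul] at this
    have e : tr (D * W * Di) = tr W := by rw [htr, ← mul_assoc, h2, one_mul]
    have e' : tr (D * (N • D - 1) * Y) = tr (D * X1) := by
      rw [hX1]
      simp only [mul_sub, sub_mul, mul_one, one_mul, smul_mul_assoc, mul_smul_comm, map_sub,
        map_smul, smul_eq_mul, mul_assoc, hYD, hYD2]
    rw [e, e'] at this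
    linear_combination this
  have t6 : tr (Y * D) = tr (D * Z) := by rw [htr, hYD]
  have t7 : tr X2 = tr Z - tr (D * Z) := by
    rw [hX2, mul_sub, mul_one, map_sub, htr Z D]
  have t8 : tr (Rt * (Y1 * B)) = tr X1 := by
    rw [htr, mul_assoc, hR2, mul_one, hY1, hX1, sub_mul, sub_mul, smul_mul_assoc, smul_mul_assoc,
      map_sub, map_sub, map_smul, map_smul, hYD, one_mul, one_mul, hY]
  have t9 : tr (Y * B) = tr Z := by
    rw [hB, mul_sub, mul_smul_comm, mul_smul_comm, map_sub, map_smul, map_smul, mul_one, hYA, hY]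
    simp only [smul_eq_mul]
    ring
  rw [e1, hP1']
  simp only [mul_add, mul_sub, mul_smul_comm, map_add, map_sub, map_smul, smul_eq_mul, hR1', t1, t2,
    t3, t4, t6, t7, t8, t9]
  have hc : (1 + t - t * q) * (t * N)⁻¹ = -(1 + t) * N⁻¹ := by
    rw [htq]; field_simp; ring
  linear_combination (tr (P1 * Di)) * hc + N⁻¹ * t5 + (tr (D * X1) + tr W) * hNi

/-- The algebraic core of the marginal identity. -/
theorem trace_main (hN : N ≠ 0) (ht : t ≠ 0) (htr : ∀ X Y, tr (X * Y) = tr (Y * X))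
    (h1 : D * Di = 1) (h2 : Di * D = 1)
    (R1 : (1 + t) • ((N • D - 1) * Z) - t • (D * A * Di * ((N • D - 1) * Z)) =
      (t * N) • (D * ((N • D - 1) * Z)))
    (R2 : t • (Z * (1 - D) * Di * A) = Z * (1 - D))
    (R5 : W - N • (D * W * Di) = N • (D * (N • D - 1) * Y))
    (htq : t * q = (1 + t) ^ 2) (hR1 : Rm * A = 1) (hR2 : A * Rm = 1)
    (hR3 : Rt * ((1 + t) • 1 - t • A) = 1)
    (hR4 : ((1 + t) • 1 - t • A) * Rt = 1)
    (hYA : tr (Y * A) = tr Y) (hY : tr Y = tr Z) (hYD : tr (D * Y) = tr (D * Z))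
    (hYD2 : tr (D * (D * Y)) = tr (D * (D * Z))) :
    tr (Rm * (GaF t N D Di A Z Y W + PiF q t N D A Z Y)) +
      t * tr (Rt * (GaF t N D Di A Z Y W - t • PiF q t N D A Z Y)) =
      (1 + t) * (1 - t * N⁻¹) * tr ((N • D - 1) * (Z * (1 - D)) * Di) := by
  rw [trace_one hN htr h1 h2 R2 R5 htq hR1 hR2 hYA hY hYD hYD2,
    trace_two hN ht htr h1 h2 R1 R5 htq hR3 hR4 hYA hY hYD hYD2]
  ring

end Trace

end Pool.Agent.Work.MP_240aa8_pr
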