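import Pool.Agent.Work.MP_240aa8_pr.Marg

/-!
Closed forms of the `α`, `β` vectors and of the summed `γ` matrix.
-/

namespace Pool.Agent.Work.MP_240aa8_pr

open Finset Matrix

variable {K : Type} {t : ℝ} {ω : ℕ → K} {m : ℕ}

lemma pow_lt_one' (ht : 0 < t) (ht1 : t < 1) {k : ℕ} (hk : 0 < k) : t ^ k < 1 :=
  pow_lt_one₀ ht.le ht1 (by omega)

/-- if `x * t ^ k = 1` with `0 < k` then `1 < x` -/
lemma gt_one_of (ht : 0 < t) (ht1 : t < 1) {k : ℕ} (hk : 0 < k) {x : ℝ} (h : x * t ^ k = 1) :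
    1 < x := by
  have h1 := pow_lt_one' ht ht1 hk
  have h2 := pow_pos ht k
  by_contra hcon
  push Not at hcon
  nlinarith

lemma nT_gt (ht : 0 < t) (ht1 : t < 1) (i : Fin m) : 1 < nN t m * t ^ (i.val + 1) := by
  have hi := i.isLt
  refine gt_one_of ht ht1 (k := m - i.val) (by omega) ?_
  have := pw1 ht (k := i)
  have h2 := mul_inv_cancel₀ (pow_pos ht (i.val + 1)).ne'
  linear_combination (t ^ (i.val + 1)) * this + h2

lemma T_lt (ht : 0 < t) (ht1 : t < 1) (i : ℕ) : t ^ (i + 1) < 1 := pow_lt_one' ht ht1 (by omega)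

lemma nTT_gt (ht : 0 < t) (ht1 : t < 1) (i j : Fin m) :
    1 < nN t m * t ^ (i.val + 1) * (t ^ (j.val + 1))⁻¹ := by
  have h1 := nT_gt ht ht1 i
  have h2 : 1 ≤ (t ^ (j.val + 1))⁻¹ := (one_le_inv₀ (pow_pos ht _)).2 (T_lt ht ht1 _).le
  nlinarith

/-- projection on the positions of colour `a` -/
noncomputable def pM (ω : ℕ → K) (m : ℕ) (a : K) : Matrix (Fin m) (Fin m) ℝ := by
  classical
  exact diagonal fun i => if ω i = a then 1 else 0

lemma pM_mulVec_ne {a : K} {v : Fin m → ℝ} {i : Fin m} (h : ω i ≠ a) : (pM ω m a *ᵥ v) i = 0 := by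
  classical
  rw [pM, mulVec_diagonal, if_neg h, zero_mul]

lemma pM_mulVec_eq {a : K} {v : Fin m → ℝ} {i : Fin m} (h : ω i = a) :
    (pM ω m a *ᵥ v) i = v i := by
  classical
  rw [pM, mulVec_diagonal, if_pos h, one_mul]

lemma vecMul_pM_ne {a : K} {v : Fin m → ℝ} {i : Fin m} (h : ω i ≠ a) : (v ᵥ* pM ω m a) i = 0 := by
  classical
  rw [pM, vecMul_diagonal, if_neg h, mul_zero]

lemma vecMul_pM_eq {a : K} {v : Fin m → ℝ} {i : Fin m} (h : ω i = a) :
    (v ᵥ* pM ω m a) i = v i := by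
  classical
  rw [pM, vecMul_diagonal, if_pos h, mul_one]

lemma IsBd.mulVec_pM {X : Matrix (Fin m) (Fin m) ℝ} (h : IsBd ω m X) {a : K} (v : Fin m → ℝ)
    {i : Fin m} (hi : ω i ≠ a) : (X *ᵥ (pM ω m a *ᵥ v)) i = 0 := by
  rw [mulVec, dotProduct]
  refine Finset.sum_eq_zero fun k _ => ?_
  by_cases hk : ω k = a
  · rw [h i k (by rw [hk]; exact hi), zero_mul]
  · rw [pM_mulVec_ne hk, mul_zero]

lemma IsBd.vecMul_pM {X : Matrix (Fin m) (Fin m) ℝ} (h : IsBd ω m X) {a : K} (v : Fin m → ℝ)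
    {i : Fin m} (hi : ω i ≠ a) : ((v ᵥ* pM ω m a) ᵥ* X) i = 0 := by
  rw [vecMul, dotProduct]
  refine Finset.sum_eq_zero fun k _ => ?_
  by_cases hk : ω k = a
  · rw [h k i (by rw [hk]; exact Ne.symm hi), mul_zero]
  · rw [vecMul_pM_ne hk, zero_mul]

/-- row of `A` at a colour position against the same colour -/
lemma aM_mulVec_pM_eq {a : K} (v : Fin m → ℝ) {i : Fin m} (hi : ω i = a) :
    (aM t ω m *ᵥ (pM ω m a *ᵥ v)) i = v i := by
  rw [aM, sub_mulVec, one_mulVec, Pi.sub_apply, pM_mulVec_eq hi]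
  have : (gM t ω m *ᵥ (pM ω m a *ᵥ v)) i = 0 := by
    rw [mulVec, dotProduct]
    refine Finset.sum_eq_zero fun k _ => ?_
    by_cases hk : ω k = a
    · rw [gM_same (by rw [hi, hk]), zero_mul]
    · rw [pM_mulVec_ne hk, mul_zero]
  rw [this, sub_zero]

lemma vecMul_pM_aM_eq {a : K} (v : Fin m → ℝ) {i : Fin m} (hi : ω i = a) :
    ((v ᵥ* pM ω m a) ᵥ* aM t ω m) i = v i := by
  rw [aM, vecMul_sub, vecMul_one, Pi.sub_apply, vecMul_pM_eq hi]
  have : ((v ᵥ* pM ω m a) ᵥ* gM t ω m) i = 0 := by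
    rw [vecMul, dotProduct]
    refine Finset.sum_eq_zero fun k _ => ?_
    by_cases hk : ω k = a
    · rw [gM_same (by rw [hi, hk]), mul_zero]
    · rw [vecMul_pM_ne hk, zero_mul]
  rw [this, sub_zero]

/-! ### Uniqueness -/

lemma uniqA (ht : 0 < t) (ht1 : t < 1) (a : K) {v : Fin m → ℝ} (h1 : ∀ i : Fin m, ω i = a → v i = 0)
    (h2 : ∀ i : Fin m, ω i ≠ a → (opA t ω m *ᵥ v) i = 0)
    (h3 : ∀ i : Fin m, ω i ≠ a → i.val + 1 = m → v i = 0) : v = 0 := by
  have main : ∀ n, ∀ i : Fin m, m - 1 - i.val = n → v i = 0 := by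
    intro n
    induction n using Nat.strong_induction_on with
    | _ n ih =>
    intro i hi
    by_cases hia : ω i = a
    · exact h1 i hia
    by_cases hl : i.val + 1 = m
    · exact h3 i hia hl
    have h := h2 i hia
    rw [opA_apply ht, Finset.sum_eq_zero, mul_zero, add_zero] at h
    · refine (mul_eq_zero.1 h).resolve_left ?_
      have hlt := i.isLt
      have := gt_one_of ht ht1 (k := m - 1 - i.val) (by omega) (pw2 ht (i := i))
      intro h0
      have : t * t ^ (i.val + 1) * nN t m = 1 := by linear_combination -h0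
      linarith
    · intro k _
      by_cases hk : i < k
      · rw [ih (m - 1 - k.val) (by have := Fin.lt_def.1 hk; have := k.isLt; omega) k rfl, mul_zero]
      · rw [gM_of_le (not_lt.1 hk)]; ring
  funext i
  exact main _ i rfl

lemma uniqB (ht : 0 < t) (ht1 : t < 1) (a : K) {v : Fin m → ℝ} (h1 : ∀ i : Fin m, ω i = a → v i = 0)
    (h2 : ∀ i : Fin m, ω i ≠ a → (v ᵥ* opB t ω m) i = 0)
    (h3 : ∀ i : Fin m, ω i ≠ a → i.val = 0 → v i = 0) : v = 0 := by
  have main : ∀ n, ∀ i : Fin m, i.val = n → v i = 0 := by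
    intro n
    induction n using Nat.strong_induction_on with
    | _ n ih =>
    intro i hi
    by_cases hia : ω i = a
    · exact h1 i hia
    by_cases hl : i.val = 0
    · exact h3 i hia hl
    have h := h2 i hia
    rw [opB_apply, Finset.sum_eq_zero, mul_zero, sub_zero] at h
    · refine (mul_eq_zero.1 h).resolve_left ?_
      have := gt_one_of ht ht1 (k := i.val) (by omega) (pw4 ht i.val)
      linarith
    · intro k _
      by_cases hk : k < i
      · rw [ih k.val (by have := Fin.lt_def.1 hk; omega) k rfl]; ring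
      · rw [gM_of_le (not_lt.1 hk)]; ring
  funext i
  exact main _ i rfl

lemma uniqC (ht : 0 < t) (ht1 : t < 1) {X : Matrix (Fin m) (Fin m) ℝ}
    (h1 : ∀ i j : Fin m, ω i = ω j → X i j = 0)
    (h2 : ∀ i j : Fin m, ω i ≠ ω j → opC t ω m X i j = 0) : X = 0 := by
  have main : ∀ n, ∀ i j : Fin m, m - 1 - i.val + j.val = n → X i j = 0 := by
    intro n
    induction n using Nat.strong_induction_on with
    | _ n ih =>
    intro i j hij
    by_cases hia : ω i = ω j
    · exact h1 i j hia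
    have hi := i.isLt
    have hj := j.isLt
    have h := h2 i j hia
    rw [opC_apply ht] at h
    have s1 : ∑ k, t ^ (i.val + 1) * gM t ω m i k * (t ^ (k.val + 1))⁻¹ * X k j = 0 := by
      refine Finset.sum_eq_zero fun k _ => ?_
      by_cases hk : i < k
      · rw [ih (m - 1 - k.val + j.val)
          (by have := Fin.lt_def.1 hk; have := k.isLt; omega) k j rfl, mul_zero]
      · rw [gM_of_le (not_lt.1 hk)]; ring
    have s2 : ∑ k, X i k * (t ^ (k.val + 1))⁻¹ * gM t ω m k j = 0 := by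
      refine Finset.sum_eq_zero fun k _ => ?_
      by_cases hk : k < j
      · rw [ih (m - 1 - i.val + k.val) (by have := Fin.lt_def.1 hk; omega) i k rfl]; ring
      · rw [gM_of_le (not_lt.1 hk)]; ring
    rw [s1, s2, mul_zero, mul_zero, add_zero, add_zero] at h
    refine (mul_eq_zero.1 h).resolve_left ?_
    have := gt_one_of ht ht1 (k := m - i.val + j.val) (by omega) (pw6 ht (i := i) (j := j))
    linarith
  ext i j
  exact main _ i j rfl

/-! ### The vectors `x`, `y` and the matrices `Z`, `Y`, `W` -/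

noncomputable def xV (t : ℝ) (ω : ℕ → K) (m : ℕ) : Fin m → ℝ :=
  fun i => aV t ω m none i / (nN t m * t ^ (i.val + 1) - 1)

noncomputable def yV (t : ℝ) (ω : ℕ → K) (m : ℕ) : Fin m → ℝ :=
  fun i => bV t ω m none i / (1 - t ^ (i.val + 1))

noncomputable def zM (t : ℝ) (ω : ℕ → K) (m : ℕ) : Matrix (Fin m) (Fin m) ℝ :=
  vecMulVec (xV t ω m) (yV t ω m)

noncomputable def bdp (ω : ℕ → K) (m : ℕ) (X : Matrix (Fin m) (Fin m) ℝ) :
    Matrix (Fin m) (Fin m) ℝ := by
  classical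
  exact Matrix.of fun i j => if ω i = ω j then X i j else 0

noncomputable def yM (t : ℝ) (ω : ℕ → K) (m : ℕ) : Matrix (Fin m) (Fin m) ℝ :=
  bdp ω m (zM t ω m)

noncomputable def wM (t : ℝ) (ω : ℕ → K) (m : ℕ) : Matrix (Fin m) (Fin m) ℝ :=
  Matrix.of fun i j => nN t m * t ^ (i.val + 1) * (nN t m * t ^ (i.val + 1) - 1) * yM t ω m i j /
    (1 - nN t m * t ^ (i.val + 1) * (t ^ (j.val + 1))⁻¹)

lemma bdp_same {X : Matrix (Fin m) (Fin m) ℝ} {i j : Fin m} (h : ω i = ω j) :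
    bdp ω m X i j = X i j := by
  classical
  exact if_pos h

lemma bdp_ne {X : Matrix (Fin m) (Fin m) ℝ} {i j : Fin m} (h : ω i ≠ ω j) :
    bdp ω m X i j = 0 := by
  classical
  exact if_neg h

lemma isBd_bdp (X : Matrix (Fin m) (Fin m) ℝ) : IsBd ω m (bdp ω m X) := fun _ _ h => bdp_ne h

lemma isBd_yM : IsBd ω m (yM t ω m) := isBd_bdp _

lemma isBd_wM : IsBd ω m (wM t ω m) := fun i j h => by
  rw [wM, of_apply, isBd_yM i j h]
  simp

lemma n_sub_mulVec_x (ht : 0 < t) (ht1 : t < 1) :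
    (nN t m • dM t m - 1) *ᵥ xV t ω m = aV t ω m none := by
  funext i
  rw [sub_mulVec, one_mulVec, smul_mulVec, Pi.sub_apply, Pi.smul_apply, dM, mulVec_diagonal, xV]
  have := sub_ne_zero.2 (nT_gt ht ht1 i).ne'
  simp only [smul_eq_mul]
  field_simp

lemma y_vecMul_sub (ht : 0 < t) (ht1 : t < 1) :
    yV t ω m ᵥ* (1 - dM t m) = bV t ω m none := by
  funext i
  rw [vecMul_sub, vecMul_one, Pi.sub_apply, dM, vecMul_diagonal, yV]
  have := sub_ne_zero.2 (T_lt ht ht1 i.val).ne'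
  field_simp

lemma opA_r (ht : 0 < t) (ht1 : t < 1) : opA t ω m *ᵥ aV t ω m none = 0 := by
  funext i
  exact opA_aV ht ht1 (ok_none_right _)

lemma l_opB (ht : 0 < t) (ht1 : t < 1) : bV t ω m none ᵥ* opB t ω m = 0 := by
  funext i
  exact bV_opB ht ht1 (ok_none_left _)

lemma relR1 (ht : 0 < t) (ht1 : t < 1) :
    (1 + t) • ((nN t m • dM t m - 1) * zM t ω m) -
      t • (dM t m * aM t ω m * dI t m * ((nN t m • dM t m - 1) * zM t ω m)) =
      (t * nN t m) • (dM t m * ((nN t m • dM t m - 1) * zM t ω m)) := by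
  have e : (nN t m • dM t m - 1) * zM t ω m = vecMulVec (aV t ω m none) (yV t ω m) := by
    rw [zM, mul_vecMulVec, n_sub_mulVec_x ht ht1]
  have h : opA t ω m * vecMulVec (aV t ω m none) (yV t ω m) = 0 := by
    rw [mul_vecMulVec, opA_r ht ht1, zero_vecMulVec]
  rw [e]
  rw [opA, sub_mul, sub_mul, smul_mul_assoc, smul_mul_assoc, smul_mul_assoc, one_mul] at h
  exact sub_eq_zero.1 h

lemma relR2 (ht : 0 < t) (ht1 : t < 1) :
    t • (zM t ω m * (1 - dM t m) * dI t m * aM t ω m) = zM t ω m * (1 - dM t m) := by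
  have e : zM t ω m * (1 - dM t m) = vecMulVec (xV t ω m) (bV t ω m none) := by
    rw [zM, vecMulVec_mul, y_vecMul_sub ht ht1]
  have h : vecMulVec (xV t ω m) (bV t ω m none) * opB t ω m = 0 := by
    rw [vecMulVec_mul, l_opB ht ht1, vecMulVec_zero]
  rw [e]
  rw [opB, mul_sub, mul_one, mul_smul_comm, ← mul_assoc] at h
  exact sub_eq_zero.1 h

lemma relR5 (ht : 0 < t) (ht1 : t < 1) :
    wM t ω m - nN t m • (dM t m * wM t ω m * dI t m) =
      nN t m • (dM t m * (nN t m • dM t m - 1) * yM t ω m) := by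
  ext i j
  have e : dM t m * (nN t m • dM t m - 1) =
      diagonal (fun i : Fin m => t ^ (i.val + 1) * (nN t m * t ^ (i.val + 1) - 1)) := by
    rw [mul_sub, mul_one, mul_smul_comm, dM, diagonal_mul_diagonal, ← diagonal_smul,
      diagonal_sub]
    congr 1
    funext i
    simp only [Pi.smul_apply, smul_eq_mul]
    ring
  rw [Matrix.sub_apply, Matrix.smul_apply, dXd_apply, Matrix.smul_apply, e, diagonal_mul, wM,
    of_apply]
  have h1 := sub_ne_zero.2 (nTT_gt ht ht1 i j).ne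
  simp only [smul_eq_mul]
  obtain ⟨c, hc⟩ : ∃ c, c = 1 - nN t m * t ^ (i.val + 1) * (t ^ (j.val + 1))⁻¹ := ⟨_, rfl⟩
  rw [← hc] at h1 ⊢
  have h3 : ∀ e : ℝ, e / c - nN t m * (t ^ (i.val + 1) * (e / c) * (t ^ (j.val + 1))⁻¹) = e := by
    intro e
    have : e / c - nN t m * (t ^ (i.val + 1) * (e / c) * (t ^ (j.val + 1))⁻¹) =
      (e / c) * (1 - nN t m * t ^ (i.val + 1) * (t ^ (j.val + 1))⁻¹) := by ring
    rw [this, ← hc, div_mul_cancel₀ _ h1]
  rw [h3]
  ring

/-! ### Closed form of `α` and `β` -/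

theorem alpha_closed (ht : 0 < t) (ht1 : t < 1) (a : K) :
    aV t ω m (some a) = ((nN t m • dM t m - 1) + (aM t ω m - nN t m • dM t m) * pM ω m a) *ᵥ
      xV t ω m := by
  have key : aV t ω m (some a) - ((nN t m • dM t m - 1) +
      (aM t ω m - nN t m • dM t m) * pM ω m a) *ᵥ xV t ω m = 0 := by
    have e : ((nN t m • dM t m - 1) + (aM t ω m - nN t m • dM t m) * pM ω m a) *ᵥ xV t ω m =
        aV t ω m none + (aM t ω m - nN t m • dM t m) *ᵥ (pM ω m a *ᵥ xV t ω m) := by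
      rw [add_mulVec, n_sub_mulVec_x ht ht1, mulVec_mulVec]
    rw [e]
    have hD : ∀ v : Fin m → ℝ, ∀ i : Fin m, ((nN t m • dM t m) *ᵥ v) i =
        nN t m * t ^ (i.val + 1) * v i := by
      intro v i
      rw [smul_mulVec, Pi.smul_apply, dM, mulVec_diagonal, smul_eq_mul, mul_assoc]
    refine uniqA (ω := ω) ht ht1 a ?_ ?_ ?_
    · intro i hi
      rw [Pi.sub_apply, Pi.add_apply, sub_mulVec, Pi.sub_apply, aM_mulVec_pM_eq _ hi, hD,
        pM_mulVec_eq hi, aV_not_ok (by simp [hi]), xV]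
      have := sub_ne_zero.2 (nT_gt ht ht1 i).ne'
      field_simp
      ring
    · intro i hi
      rw [mulVec_sub, mulVec_add, opA_r ht ht1, zero_add, mulVec_mulVec]
      rw [show opA t ω m * (aM t ω m - nN t m • dM t m) =
        delM t ω m - ((1 + t) * nN t m) • dM t m + (t * nN t m ^ 2) • (dM t m * dM t m) from
        alpha_eq (dI_dM ht) rfl]
      rw [Pi.sub_apply, opA_aV ht ht1 (by simp [hi])]
      rw [IsBd.mulVec_pM (((isBd_delM ht ht1).sub (isBd_dM.smul _)).add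
        ((isBd_dM.mul isBd_dM).smul _)) _ hi, sub_zero]
    · intro i hi hl
      rw [Pi.sub_apply, Pi.add_apply, aV_last hl (by simp [hi]), aV_last hl (ok_none_right _)]
      rw [sub_mulVec, Pi.sub_apply, hD, pM_mulVec_ne hi, aM, sub_mulVec, one_mulVec, Pi.sub_apply,
        pM_mulVec_ne hi]
      have : (gM t ω m *ᵥ (pM ω m a *ᵥ xV t ω m)) i = 0 := by
        rw [mulVec, dotProduct]
        refine Finset.sum_eq_zero fun k _ => ?_
        rw [gM_of_le (Fin.le_def.2 (by have := k.isLt; omega)), zero_mul]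
      rw [this]
      ring
  exact sub_eq_zero.1 key

theorem beta_closed (ht : 0 < t) (ht1 : t < 1) (a : K) :
    bV t ω m (some a) = yV t ω m ᵥ* ((1 - dM t m) + pM ω m a *
      (t • aM t ω m + dM t m - (1 + t) • (1 : Matrix (Fin m) (Fin m) ℝ))) := by
  have key : bV t ω m (some a) - yV t ω m ᵥ* ((1 - dM t m) + pM ω m a *
      (t • aM t ω m + dM t m - (1 + t) • (1 : Matrix (Fin m) (Fin m) ℝ))) = 0 := by
    have e : yV t ω m ᵥ* ((1 - dM t m) + pM ω m a *
        (t • aM t ω m + dM t m - (1 + t) • (1 : Matrix (Fin m) (Fin m) ℝ))) =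
        bV t ω m none + (yV t ω m ᵥ* pM ω m a) ᵥ*
          (t • aM t ω m + dM t m - (1 + t) • (1 : Matrix (Fin m) (Fin m) ℝ)) := by
      rw [vecMul_add, y_vecMul_sub ht ht1, vecMul_vecMul]
    rw [e]
    have hD : ∀ v : Fin m → ℝ, ∀ i : Fin m, (v ᵥ* dM t m) i = v i * t ^ (i.val + 1) := by
      intro v i
      rw [dM, vecMul_diagonal]
    have hE : ∀ v : Fin m → ℝ, ∀ i : Fin m, (v ᵥ*
        (t • aM t ω m + dM t m - (1 + t) • (1 : Matrix (Fin m) (Fin m) ℝ))) i =
        t * (v ᵥ* aM t ω m) i + v i * t ^ (i.val + 1) - (1 + t) * v i := by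
      intro v i
      rw [vecMul_sub, vecMul_add, vecMul_smul, vecMul_smul, vecMul_one, Pi.sub_apply, Pi.add_apply,
        Pi.smul_apply, Pi.smul_apply, hD, smul_eq_mul, smul_eq_mul]
    refine uniqB (ω := ω) ht ht1 a ?_ ?_ ?_
    · intro i hi
      rw [Pi.sub_apply, Pi.add_apply, hE, vecMul_pM_aM_eq _ hi, vecMul_pM_eq hi,
        bV_not_ok (by simp [hi]), yV]
      have := sub_ne_zero.2 (T_lt ht ht1 i.val).ne'
      field_simp
      ring
    · intro i hi
      rw [sub_vecMul, add_vecMul, l_opB ht ht1, zero_add, vecMul_vecMul]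
      rw [show (t • aM t ω m + dM t m - (1 + t) • (1 : Matrix (Fin m) (Fin m) ℝ)) * opB t ω m =
        (1 + t) • 1 - dM t m - t • (dI t m * delM t ω m) from
        beta_eq (dM_dI ht) (dI_dM ht) rfl]
      rw [Pi.sub_apply, bV_opB ht ht1 (by simp [Ne.symm hi])]
      rw [IsBd.vecMul_pM (((isBd_one.smul _).sub isBd_dM).sub
        ((isBd_dI.mul (isBd_delM ht ht1)).smul _)) _ hi, sub_zero]
    · intro i hi hl
      rw [Pi.sub_apply, Pi.add_apply, bV_first hl (by simp [Ne.symm hi]),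
        bV_first hl (ok_none_left _)]
      rw [hE, vecMul_pM_ne hi, aM, vecMul_sub, vecMul_one, Pi.sub_apply, vecMul_pM_ne hi]
      have : ((yV t ω m ᵥ* pM ω m a) ᵥ* gM t ω m) i = 0 := by
        rw [vecMul, dotProduct]
        refine Finset.sum_eq_zero fun k _ => ?_
        rw [gM_of_le (Fin.le_def.2 (by omega)), mul_zero]
      rw [this]
      ring
  exact sub_eq_zero.1 key

end Pool.Agent.Work.MP_240aa8_pr
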