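import Pool.Agent.Work.MP_240aa8_pr.Path
import Pool.Agent.Work.MP_240aa8_pr.Dep

/-!
The case of four colours: colour-symmetric `1`-dependent `4`-colourings of all cycles.
-/

namespace Pool.Agent.Work.MP_240aa8_pr

open Finset

variable {K : Type}

/-- Cyclically proper words. -/
def CProper (w : List K) : Prop := Proper (w ++ w.take 1)

open Classical in
noncomputable def c4n : ℕ → List K → ℝ
  | 0, _ => 0
  | 1, _ => 0
  | 2, w => if CProper w then 1 / 12 else 0
  | n + 3, w => if CProper w then ds 1 w (c4n (n + 2)) / (2 * ((n : ℝ) + 3)) else 0

noncomputable def Pc4 (w : List K) : ℝ := c4n w.length w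

lemma cproper_cons (a : K) (w : List K) : CProper (a :: w) ↔ Proper (a :: w ++ [a]) := by
  simp [CProper]

lemma cproper_rot (a : K) (w : List K) : CProper (a :: w) ↔ CProper (w ++ [a]) := by
  rw [cproper_cons]
  cases w with
  | nil => simp [CProper]
  | cons b w =>
      have e1 : a :: b :: w ++ [a] = a :: b :: (w ++ [a]) := by simp
      have e2 : CProper (b :: w ++ [a]) ↔ Proper ((b :: w) ++ a :: b :: []) := by
        simp [CProper]
      rw [e1, e2, proper_cons_cons, proper_mid]
      constructor
      · rintro ⟨h1, h2⟩
        exact ⟨by simpa using h2, h1, List.IsChain.singleton b⟩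
      · rintro ⟨h1, h2, _⟩
        exact ⟨h2, by simpa using h1⟩

lemma c4n_rot : ∀ (n : ℕ) (a : K) (w : List K), w.length + 1 = n → c4n n (a :: w) = c4n n (w ++ [a])
  | 0, a, w, h => by simp at h
  | 1, a, w, h => rfl
  | 2, a, w, h => by
      simp only [c4n]
      by_cases hc : CProper (a :: w)
      · rw [if_pos hc, if_pos ((cproper_rot a w).1 hc)]
      · rw [if_neg hc, if_neg (fun h' => hc ((cproper_rot a w).2 h'))]
  | n + 3, a, w, h => by
      have e : ds 1 (a :: w) (c4n (n + 2)) = ds 1 (w ++ [a]) (c4n (n + 2)) := by
        rw [ds_cons, ds_append, ds_cons, ds_nil]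
        have : ds 1 w (fun w' => c4n (n + 2) (a :: w')) = ds 1 w (fun w' => c4n (n + 2) (w' ++ [a])) :=
          ds_congr fun w' hw' => c4n_rot (n + 2) a w' (by omega)
        rw [this]
        simp only [List.append_nil]
        ring
      simp only [c4n, e]
      by_cases hc : CProper (a :: w)
      · rw [if_pos hc, if_pos ((cproper_rot a w).1 hc)]
      · rw [if_neg hc, if_neg (fun h' => hc ((cproper_rot a w).2 h'))]

lemma Pc4_rot (a : K) (w : List K) : Pc4 (a :: w) = Pc4 (w ++ [a]) := by
  have := c4n_rot (w.length + 1) a w rfl
  simpa [Pc4] using this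

lemma Pc4_improper {w : List K} (h : ¬ CProper w) : Pc4 w = 0 := by
  unfold Pc4
  match hl : w.length with
  | 0 => rfl
  | 1 => rfl
  | 2 => simp [c4n, h]
  | n + 3 => simp [c4n, h]

lemma Pc4_nonneg (w : List K) : 0 ≤ Pc4 w := by
  have : ∀ n, ∀ m ≤ n, ∀ w : List K, 0 ≤ c4n m w := by
    intro n
    induction n with
    | zero =>
        intro m hm w
        obtain rfl : m = 0 := by omega
        exact le_rfl
    | succ n ih =>
        intro m hm w
        match m with
        | 0 => exact le_rfl
        | 1 => exact le_rfl
        | 2 => simp only [c4n]; split_ifs <;> norm_num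
        | m + 3 =>
            simp only [c4n]
            split_ifs
            · exact div_nonneg (ds_nonneg zero_le_one (ih (m + 2) (by omega))) (by positivity)
            · exact le_rfl
  exact this _ _ le_rfl _

lemma zeta_one (m : ℕ) : zeta 1 m = 2 * ((m : ℝ) + 1) := by
  unfold zeta
  simp only [one_pow, Finset.sum_const, Finset.card_range, nsmul_eq_mul, mul_one]
  push_cast
  ring

lemma Pc4_cons_cons (a : K) (w : List K) : Pc4 (a :: a :: w) = 0 := by
  apply Pc4_improper
  rw [cproper_cons]
  intro h
  have : Proper (a :: a :: (w ++ [a])) := by simpa using h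
  rw [proper_cons_cons] at this
  exact this.1 rfl

lemma Pc4_cons_snoc (a : K) (w : List K) : Pc4 (a :: (w ++ [a])) = 0 := by
  rw [Pc4_rot]
  apply Pc4_improper
  intro h
  have : Proper (w ++ a :: a :: (w ++ [a] ++ [a]).take 1) := by
    simpa [CProper] using h
  rw [proper_mid] at this
  exact this.2.1 rfl

variable [Fintype K]

theorem Pc4_marg (hK : Fintype.card K = 4) : ∀ (n : ℕ) (z : List K), z.length = n + 1 →
    ∑ a, Pc4 (a :: z) = pw 1 z := by
  classical
  intro n
  induction n with
  | zero =>
      intro z hz
      obtain ⟨b, rfl⟩ := List.length_eq_one_iff.1 (by simpa using hz)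
      have hp : Proper [b] := List.IsChain.singleton b
      have h1 := pw_eq (t := 1) one_pos (w := [b]) (by simp) hp
      simp only [ds_cons, ds_nil, pw_nil, List.length_cons, List.length_nil] at h1
      rw [zeta_one] at h1
      have h2 : ∀ a : K, Pc4 [a, b] = if a ≠ b then 1 / 12 else 0 := by
        intro a
        have : CProper [a, b] ↔ a ≠ b := by
          rw [cproper_cons]
          constructor
          · intro h
            have : Proper (a :: b :: [a]) := by simpa using h
            rw [proper_cons_cons] at this
            exact this.1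
          · intro h
            have : Proper (a :: b :: [a]) :=
              proper_cons_cons.2 ⟨h, proper_cons_cons.2 ⟨Ne.symm h, List.IsChain.singleton a⟩⟩
            simpa using this
        simp only [Pc4, List.length_cons, List.length_nil, c4n, this]
      simp only [h2]
      rw [card_ne_one, hK]
      push_cast at h1 ⊢
      linarith
  | succ n ih =>
      intro z hz
      -- z = f :: (m ++ [e])
      obtain ⟨f, z₁, rfl⟩ : ∃ f z₁, z = f :: z₁ := by
        cases z with
        | nil => simp at hz
        | cons f z₁ => exact ⟨f, z₁, rfl⟩
      obtain ⟨m, e, rfl⟩ : ∃ m e, z₁ = m ++ [e] := by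
        rcases List.eq_nil_or_concat z₁ with rfl | ⟨m, e, rfl⟩
        · simp at hz
        · exact ⟨m, e, by simp⟩
      have hlen : m.length = n := by simpa using hz
      by_cases hp : Proper (f :: (m ++ [e]))
      swap
      · rw [pw_improper hp]
        refine Finset.sum_eq_zero fun a _ => Pc4_improper ?_
        rw [cproper_cons]
        intro h
        apply hp
        have h' : Proper ([a] ++ (f :: (m ++ [e]) ++ [a])) := by simpa using h
        exact (List.IsChain.right_of_append h').left_of_append
      set z := f :: (m ++ [e]) with hzdef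
      -- characterisation of cyclic properness
      have hcp : ∀ a, CProper (a :: z) ↔ a ≠ f ∧ e ≠ a := by
        intro a
        rw [cproper_cons, hzdef]
        have e1 : a :: f :: (m ++ [e]) ++ [a] = a :: f :: (m ++ [e] ++ [a]) := by simp
        rw [e1, proper_cons_cons]
        have e2 : f :: (m ++ [e] ++ [a]) = (f :: m) ++ e :: a :: [] := by simp
        rw [e2, proper_mid]
        constructor
        · rintro ⟨h1, _, h2, _⟩
          exact ⟨h1, h2⟩
        · rintro ⟨h1, h2⟩
          exact ⟨h1, by simpa [hzdef] using hp, h2, List.IsChain.singleton a⟩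
      set D : K → ℝ := fun a => ds 1 z (fun z' => Pc4 (a :: z')) with hD
      have hDa : ∀ a, D a = Pc4 (a :: (m ++ [e])) + ds 1 m (fun m' => Pc4 (a :: f :: (m' ++ [e]))) +
          Pc4 (a :: f :: m) := by
        intro a
        simp only [hD, hzdef]
        rw [ds_cons, ds_append, ds_cons, ds_nil]
        simp only [List.append_nil, one_pow]
        ring
      have hexp : ∀ a, Pc4 (a :: z) =
          (if CProper (a :: z) then Pc4 z + D a else 0) / (2 * ((n : ℝ) + 3)) := by
        intro a
        have hl : (a :: z).length = n + 3 := by simp [hzdef, hlen]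
        have hzl : z.length = n + 2 := by simp [hzdef, hlen]
        by_cases hc : CProper (a :: z)
        · rw [if_pos hc]
          have e1 : Pc4 (a :: z) = ds 1 (a :: z) (c4n (n + 2)) / (2 * ((n : ℝ) + 3)) := by
            rw [Pc4, hl]
            simp [c4n, hc]
          have e2 : ds 1 (a :: z) (c4n (n + 2)) = ds 1 (a :: z) Pc4 := by
            refine ds_congr fun w' hw' => ?_
            rw [Pc4]
            congr 1
            omega
          rw [e1, e2, ds_cons, one_mul]
        · rw [if_neg hc, Pc4_improper hc, zero_div]
      have hterm : ∀ a, (if CProper (a :: z) then Pc4 z + D a else 0) =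
          (if a ≠ f ∧ e ≠ a then Pc4 z else 0) + (D a - (if a = f then Pc4 (a :: (m ++ [e])) else 0)
            - (if a = e then Pc4 (a :: f :: m) else 0)) := by
        intro a
        by_cases haf : a = f
        · subst haf
          rw [if_neg (by rw [hcp]; simp), if_neg (by simp), if_pos rfl, hDa, Pc4_cons_cons]
          have : ds 1 m (fun m' => Pc4 (a :: a :: (m' ++ [e]))) = 0 := by
            rw [ds_congr (F' := fun _ => 0), ds_zero]
            intro w' _
            exact Pc4_cons_cons _ _
          rw [this]
          simp
        · by_cases hae : a = e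
          · subst hae
            rw [if_neg (by rw [hcp]; simp), if_neg (by simp), if_neg haf, if_pos rfl, hDa]
            have : ds 1 m (fun m' => Pc4 (a :: f :: (m' ++ [a]))) = 0 := by
              rw [ds_congr (F' := fun _ => 0), ds_zero]
              intro w' _
              exact Pc4_cons_snoc a (f :: w')
            rw [this, Pc4_cons_snoc]
            ring
          · have h : a ≠ f ∧ e ≠ a := ⟨haf, Ne.symm hae⟩
            rw [if_pos ((hcp a).2 h), if_pos h, if_neg haf, if_neg hae]
            ring
      have hcard : ∑ a : K, (if a ≠ f ∧ e ≠ a then Pc4 z else 0) = 2 * Pc4 z := by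
        by_cases hef : e = f
        · subst hef
          have : Pc4 z = 0 := Pc4_cons_snoc e m
          rw [this]
          simp
        · have := card_ne_two (Pc4 z) hef
          rw [hK] at this
          simp only [and_comm] at this ⊢
          rw [this]
          push_cast; ring
      have hsumD : ∑ a, D a = ds 1 z (pw 1) := by
        simp only [hD]
        rw [← ds_sum]
        refine ds_congr fun w' hw' => ih w' ?_
        simp [hzdef, hlen] at hw'
        omega
      have hz1 := pw_eq (t := 1) one_pos (w := z) (by simp [hzdef]) hp
      rw [zeta_one] at hz1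
      have hzl : (z.length : ℝ) = n + 2 := by simp [hzdef, hlen]; ring
      rw [hzl] at hz1
      simp only [hexp]
      rw [← Finset.sum_div]
      simp only [hterm]
      rw [Finset.sum_add_distrib, Finset.sum_sub_distrib, Finset.sum_sub_distrib, hcard, hsumD,
        Finset.sum_ite_eq', Finset.sum_ite_eq']
      simp only [Finset.mem_univ, if_true]
      have r1 : Pc4 (f :: (m ++ [e])) = Pc4 z := rfl
      have r2 : Pc4 (e :: f :: m) = Pc4 z := by
        rw [Pc4_rot, hzdef]; simp
      rw [r1, r2, ← hz1]
      have : (2 * ((n : ℝ) + 3)) ≠ 0 := by positivity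
      field_simp
      ring

omit [Fintype K] in
lemma proper_map {L : Type} {σ : K → L} (hσ : Function.Injective σ) (w : List K) :
    Proper (w.map σ) ↔ Proper w := by
  unfold Proper
  rw [List.isChain_map]
  constructor
  · intro h
    exact h.imp fun a b hab => fun h' => hab (by rw [h'])
  · intro h
    exact h.imp fun a b hab => fun h' => hab (hσ h')

omit [Fintype K] in
lemma cproper_map {L : Type} {σ : K → L} (hσ : Function.Injective σ) (w : List K) :
    CProper (w.map σ) ↔ CProper w := by
  unfold CProper
  rw [← List.map_take, ← List.map_append, proper_map hσ]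

omit [Fintype K] in
lemma Pc4_map (σ : Equiv.Perm K) (w : List K) : Pc4 (w.map σ) = Pc4 w := by
  have : ∀ n, ∀ m ≤ n, ∀ w : List K, c4n m (w.map σ) = c4n m w := by
    intro n
    induction n with
    | zero =>
        intro m hm w
        obtain rfl : m = 0 := by omega
        rfl
    | succ n ih =>
        intro m hm w
        match m with
        | 0 => rfl
        | 1 => rfl
        | 2 =>
            simp only [c4n]
            by_cases hc : CProper w
            · rw [if_pos hc, if_pos ((cproper_map σ.injective w).2 hc)]
            · rw [if_neg hc, if_neg (fun h' => hc ((cproper_map σ.injective w).1 h'))]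
        | m + 3 =>
            simp only [c4n, ds_map]
            have : ds 1 w (fun w' => c4n (m + 2) (w'.map σ)) = ds 1 w (c4n (m + 2)) :=
              ds_congr fun w' _ => ih (m + 2) (by omega) w'
            rw [this]
            by_cases hc : CProper w
            · rw [if_pos hc, if_pos ((cproper_map σ.injective w).2 hc)]
            · rw [if_neg hc, if_neg (fun h' => hc ((cproper_map σ.injective w).1 h'))]
  rw [Pc4, Pc4, List.length_map]
  exact this _ _ le_rfl _

theorem four_isSymDep [Nonempty K] (hK : Fintype.card K = 4) {n : ℕ} (hn : 3 ≤ n) :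
    IsSymDep 1 n K (fun x => Pc4 (List.ofFn x)) := by
  refine isSymDep_of_words (p := pw 1) hn (pw_nil 1) ?_ Pc4_rot ?_ (fun w _ => Pc4_nonneg w)
    (fun a w _ => Pc4_cons_cons a w) (fun σ w => Pc4_map σ w)
  · intro u v
    exact pw_marg one_pos (by rw [hK]; norm_num) _ u v le_rfl
  · intro w hw
    exact Pc4_marg hK (w.length - 1) w (by omega)

end Pool.Agent.Work.MP_240aa8_pr
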