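import Pool.Agent.Work.MP_240aa8_pr.Closed

/-!
The summed kernels in closed form, and the marginal identity at the matrix level.
-/

namespace Pool.Agent.Work.MP_240aa8_pr

open Finset Matrix

variable {K : Type} {t : ℝ} {ω : ℕ → K} {m : ℕ}

section bd

lemma bdp_add (X X' : Matrix (Fin m) (Fin m) ℝ) : bdp ω m (X + X') = bdp ω m X + bdp ω m X' := by
  ext i j
  by_cases h : ω i = ω j
  · rw [bdp_same h, Matrix.add_apply, Matrix.add_apply, bdp_same h, bdp_same h]
  · rw [bdp_ne h, Matrix.add_apply, bdp_ne h, bdp_ne h, add_zero]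

lemma bdp_sub (X X' : Matrix (Fin m) (Fin m) ℝ) : bdp ω m (X - X') = bdp ω m X - bdp ω m X' := by
  ext i j
  by_cases h : ω i = ω j
  · rw [bdp_same h, Matrix.sub_apply, Matrix.sub_apply, bdp_same h, bdp_same h]
  · rw [bdp_ne h, Matrix.sub_apply, bdp_ne h, bdp_ne h, sub_zero]

lemma bdp_smul (c : ℝ) (X : Matrix (Fin m) (Fin m) ℝ) : bdp ω m (c • X) = c • bdp ω m X := by
  ext i j
  by_cases h : ω i = ω j
  · rw [bdp_same h, Matrix.smul_apply, Matrix.smul_apply, bdp_same h]
  · rw [bdp_ne h, Matrix.smul_apply, bdp_ne h, smul_zero]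

lemma bdp_mul_left {P : Matrix (Fin m) (Fin m) ℝ} (hP : IsBd ω m P)
    (X : Matrix (Fin m) (Fin m) ℝ) : bdp ω m (P * X) = P * bdp ω m X := by
  ext i j
  by_cases h : ω i = ω j
  · rw [bdp_same h, mul_apply, mul_apply]
    refine Finset.sum_congr rfl fun k _ => ?_
    by_cases hk : ω i = ω k
    · rw [bdp_same (by rw [← hk, h])]
    · rw [hP i k hk, zero_mul, zero_mul]
  · rw [bdp_ne h, mul_apply]
    symm
    refine Finset.sum_eq_zero fun k _ => ?_
    by_cases hk : ω i = ω k
    · rw [bdp_ne (by rw [← hk]; exact h), mul_zero]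
    · rw [hP i k hk, zero_mul]

lemma bdp_mul_right {P : Matrix (Fin m) (Fin m) ℝ} (hP : IsBd ω m P)
    (X : Matrix (Fin m) (Fin m) ℝ) : bdp ω m (X * P) = bdp ω m X * P := by
  ext i j
  by_cases h : ω i = ω j
  · rw [bdp_same h, mul_apply, mul_apply]
    refine Finset.sum_congr rfl fun k _ => ?_
    by_cases hk : ω k = ω j
    · rw [bdp_same (by rw [hk, h])]
    · rw [hP k j hk, mul_zero, mul_zero]
  · rw [bdp_ne h, mul_apply]
    symm
    refine Finset.sum_eq_zero fun k _ => ?_
    by_cases hk : ω k = ω j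
    · rw [bdp_ne (by rw [hk]; exact h), zero_mul]
    · rw [hP k j hk, mul_zero]

lemma bdp_of_isBd {P : Matrix (Fin m) (Fin m) ℝ} (hP : IsBd ω m P) : bdp ω m P = P := by
  ext i j
  by_cases h : ω i = ω j
  · rw [bdp_same h]
  · rw [bdp_ne h, hP i j h]

lemma bdp_aM : bdp ω m (aM t ω m) = 1 := by
  ext i j
  by_cases h : ω i = ω j
  · rw [bdp_same h, aM, Matrix.sub_apply, gM_same h, sub_zero]
  · rw [bdp_ne h, one_apply_ne (fun h' => h (by rw [h']))]

lemma trace_bdp (X : Matrix (Fin m) (Fin m) ℝ) : trace (bdp ω m X) = trace X := by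
  unfold trace
  refine Finset.sum_congr rfl fun i _ => ?_
  exact bdp_same rfl

end bd

lemma bdp_GaF (ht : 0 < t) (ht1 : t < 1) :
    bdp ω m (GaF t (nN t m) (dM t m) (dI t m) (aM t ω m) (zM t ω m) (yM t ω m) (wM t ω m)) = 0 := by
  have hNi : (nN t m)⁻¹ * nN t m = 1 := inv_mul_cancel₀ (nN_ne ht)
  have e : GaF t (nN t m) (dM t m) (dI t m) (aM t ω m) (zM t ω m) (yM t ω m) (wM t ω m) =
      (nN t m) • (dM t m * zM t ω m) - ((1 - t) * nN t m) • (dM t m * zM t ω m * dM t m) -
      t • (zM t ω m * dM t m) +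
      (t * nN t m) • ((dM t m * yM t ω m) * aM t ω m) +
      (nN t m) • (dM t m * yM t ω m * dM t m) - ((1 + t) * nN t m) • (dM t m * yM t ω m) +
      t • (wM t ω m * aM t ω m) -
      (t * (nN t m)⁻¹) • (aM t ω m * (dI t m * wM t ω m * dM t m)) := by
    unfold GaF
    simp only [mul_add, add_mul, mul_sub, sub_mul, mul_one, one_mul, smul_mul_assoc, mul_smul_comm,
      mul_assoc, smul_add, smul_sub, smul_smul]
    match_scalars <;> ring
  have b1 : bdp ω m (dM t m * zM t ω m) = dM t m * yM t ω m := bdp_mul_left isBd_dM _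
  have b2 : bdp ω m (dM t m * zM t ω m * dM t m) = dM t m * yM t ω m * dM t m := by
    rw [bdp_mul_right isBd_dM, b1]
  have b3 : bdp ω m (zM t ω m * dM t m) = yM t ω m * dM t m := bdp_mul_right isBd_dM _
  have b4 : bdp ω m ((dM t m * yM t ω m) * aM t ω m) = dM t m * yM t ω m := by
    rw [bdp_mul_left (isBd_dM.mul isBd_yM), bdp_aM, mul_one]
  have b5 : bdp ω m (dM t m * yM t ω m * dM t m) = dM t m * yM t ω m * dM t m :=
    bdp_of_isBd ((isBd_dM.mul isBd_yM).mul isBd_dM)
  have b6 : bdp ω m (dM t m * yM t ω m) = dM t m * yM t ω m :=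
    bdp_of_isBd (isBd_dM.mul isBd_yM)
  have b7 : bdp ω m (wM t ω m * aM t ω m) = wM t ω m := by
    rw [bdp_mul_left isBd_wM, bdp_aM, mul_one]
  have b8 : bdp ω m (aM t ω m * (dI t m * wM t ω m * dM t m)) = dI t m * wM t ω m * dM t m := by
    rw [bdp_mul_right ((isBd_dI.mul isBd_wM).mul isBd_dM), bdp_aM, one_mul]
  rw [e]
  simp only [bdp_add, bdp_sub, bdp_smul, b1, b2, b3, b4, b5, b6, b7, b8]
  have h2' : ∀ X : Matrix (Fin m) (Fin m) ℝ, dI t m * (dM t m * X) = X := fun X => by
    rw [← mul_assoc, dI_dM ht, one_mul]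
  have R5 := relR5 (ω := ω) (m := m) ht ht1
  linear_combination (norm := skip) (-(t * (nN t m)⁻¹)) • (dI t m * R5 * dM t m)
  simp only [mul_add, add_mul, mul_sub, sub_mul, mul_one, one_mul, smul_mul_assoc, mul_smul_comm,
      mul_assoc, smul_add, smul_sub, smul_smul, h2', dI_dM ht]
  have hN := nN_ne (m := m) ht
  match_scalars <;> field_simp <;> ring

lemma exp4 {R : Type} [Ring R] (M B P Z C E : R) :
    (M + B * P) * Z * (C + P * E) = M * Z * C + M * Z * P * E + B * P * (Z * C) +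
      B * (P * Z * P) * E := by
  simp only [add_mul, mul_add, mul_assoc]
  abel

lemma sum_mid {R : Type} [Ring R] {ι : Type} (s : Finset ι) (B C : R) (f : ι → R) :
    ∑ a ∈ s, B * f a * C = B * (∑ a ∈ s, f a) * C := by
  rw [Finset.mul_sum, Finset.sum_mul]

lemma opC_sub (X X' : Matrix (Fin m) (Fin m) ℝ) :
    opC t ω m (X - X') = opC t ω m X - opC t ω m X' := by
  unfold opC
  simp only [mul_sub, sub_mul, smul_sub]
  abel

lemma opC_sum {ι : Type} (s : Finset ι) (X : ι → Matrix (Fin m) (Fin m) ℝ) :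
    opC t ω m (∑ a ∈ s, X a) = ∑ a ∈ s, opC t ω m (X a) := by
  unfold opC
  simp only [Finset.mul_sum, Finset.sum_mul, Finset.smul_sum, Finset.sum_sub_distrib]

variable [Fintype K]

lemma sum_pM : ∑ a : K, pM ω m a = 1 := by
  classical
  ext i j
  rw [Matrix.sum_apply]
  by_cases hij : i = j
  · subst hij
    simp [pM]
  · rw [one_apply_ne hij]
    refine Finset.sum_eq_zero fun a _ => ?_
    rw [pM, diagonal_apply_ne _ hij]

lemma sum_pM_mul (X : Matrix (Fin m) (Fin m) ℝ) :
    ∑ a : K, pM ω m a * X * pM ω m a = bdp ω m X := by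
  classical
  ext i j
  rw [Matrix.sum_apply]
  have : ∀ a, (pM ω m a * X * pM ω m a) i j =
      (if ω i = a then 1 else 0) * X i j * (if ω j = a then 1 else 0) := by
    intro a
    rw [pM, mul_diagonal, diagonal_mul]
  simp only [this]
  by_cases h : ω i = ω j
  · rw [bdp_same h, h]
    simp
  · rw [bdp_ne h]
    refine Finset.sum_eq_zero fun a _ => ?_
    by_cases hi : ω i = a
    · rw [if_neg (show ¬ ω j = a by rw [← hi]; exact fun h' => h h'.symm), mul_zero]
    · rw [if_neg hi, zero_mul, zero_mul]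

theorem sum_ab (ht : 0 < t) (ht1 : t < 1) :
    ∑ a : K, vecMulVec (aV t ω m (some a)) (bV t ω m (some a)) =
      PiF (Fintype.card K : ℝ) t (nN t m) (dM t m) (aM t ω m) (zM t ω m) (yM t ω m) := by
  have e : ∀ a : K, vecMulVec (aV t ω m (some a)) (bV t ω m (some a)) =
      (nN t m • dM t m - 1) * zM t ω m * (1 - dM t m) +
      (nN t m • dM t m - 1) * zM t ω m * pM ω m a *
        (t • aM t ω m + dM t m - (1 + t) • (1 : Matrix (Fin m) (Fin m) ℝ)) +
      (aM t ω m - nN t m • dM t m) * pM ω m a * (zM t ω m * (1 - dM t m)) +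
      (aM t ω m - nN t m • dM t m) * (pM ω m a * zM t ω m * pM ω m a) *
        (t • aM t ω m + dM t m - (1 + t) • (1 : Matrix (Fin m) (Fin m) ℝ)) := by
    intro a
    rw [alpha_closed ht ht1, beta_closed ht ht1, ← mul_vecMulVec, ← vecMulVec_mul, ← zM,
      ← mul_assoc, exp4]
  simp only [e]
  rw [Finset.sum_add_distrib, Finset.sum_add_distrib, Finset.sum_add_distrib, sum_mid, sum_mid,
    sum_mid, sum_mid, sum_pM, sum_pM_mul, Finset.sum_const, Finset.card_univ, ← yM]
  unfold PiF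
  rw [mul_one, mul_one, ← Nat.cast_smul_eq_nsmul ℝ]
  simp only [mul_assoc, mul_smul_comm, smul_mul_assoc]

theorem sum_c (ht : 0 < t) (ht1 : t < 1) (hq : (Fintype.card K : ℝ) * t = (1 + t) ^ 2) :
    ∑ a : K, cM t ω m a =
      GaF t (nN t m) (dM t m) (dI t m) (aM t ω m) (zM t ω m) (yM t ω m) (wM t ω m) := by
  have hcore := core_eq (q := (Fintype.card K : ℝ)) (nN_ne (m := m) ht) (dM_dI ht) (dI_dM ht)
    (rfl : (1 + t) • aM t ω m - t • (dM t m * aM t ω m * dI t m * aM t ω m) = delM t ω m)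
    (relR1 (ω := ω) ht ht1) (relR2 (ω := ω) ht ht1) (relR5 (ω := ω) ht ht1) (by linear_combination hq)
  rw [← sub_eq_zero]
  refine uniqC (ω := ω) ht ht1 ?_ ?_
  · intro i j hij
    rw [Matrix.sub_apply, Matrix.sum_apply]
    have h1 : ∑ a : K, cM t ω m a i j = 0 := Finset.sum_eq_zero fun a _ => cM_same hij
    have h2 := congrFun (congrFun (bdp_GaF (ω := ω) (m := m) ht ht1) i) j
    rw [bdp_same hij] at h2
    rw [h1, h2]
    simp
  · intro i j hij
    rw [opC_sub, Matrix.sub_apply, opC_sum, Matrix.sum_apply]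
    have h1 : ∑ a : K, opC t ω m (cM t ω m a) i j = -((t * nN t m) * (dM t m *
        PiF (Fintype.card K : ℝ) t (nN t m) (dM t m) (aM t ω m) (zM t ω m) (yM t ω m)) i j) := by
      rw [← sum_ab ht ht1, dM, diagonal_mul, Matrix.sum_apply, Finset.mul_sum, Finset.mul_sum,
        ← Finset.sum_neg_distrib]
      refine Finset.sum_congr rfl fun a _ => ?_
      have := opC_cM (m := m) (ω := ω) ht ht1 a hij
      rw [vecMulVec_apply]
      linear_combination this
    rw [h1]
    have h2 : opC t ω m (GaF t (nN t m) (dM t m) (dI t m) (aM t ω m) (zM t ω m) (yM t ω m)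
        (wM t ω m)) i j + (t * nN t m) * (dM t m *
        PiF (Fintype.card K : ℝ) t (nN t m) (dM t m) (aM t ω m) (zM t ω m) (yM t ω m)) i j = 0 := by
      have h3 := congrFun (congrFun hcore i) j
      have hbd : IsBd ω m ((nN t m * (1 + t)) • (dM t m * yM t ω m * (dM t m - (1 + t) • 1)) -
          (t * nN t m ^ 2) • (dM t m * dM t m * yM t ω m * (dM t m - (1 + t) • 1)) -
          (t * (nN t m)⁻¹) • (delM t ω m * dI t m * wM t ω m * dM t m) +
          (t * nN t m ^ 2) • (dM t m * dM t m * yM t ω m * dI t m * delM t ω m) +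
          (t * nN t m) • (dM t m * wM t ω m * dI t m * delM t ω m)) := by
        have hΔ := isBd_delM (ω := ω) (m := m) ht ht1
        have hd := isBd_dM (ω := ω) (m := m) (t := t)
        have hi := isBd_dI (ω := ω) (m := m) (t := t)
        have hy := isBd_yM (ω := ω) (m := m) (t := t)
        have hw := isBd_wM (ω := ω) (m := m) (t := t)
        have h1 := isBd_one (ω := ω) (m := m)
        exact (((((hd.mul hy).mul (hd.sub (h1.smul _))).smul _).sub
          ((((hd.mul hd).mul hy).mul (hd.sub (h1.smul _))).smul _)).sub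
          ((((hΔ.mul hi).mul hw).mul hd).smul _)).add
          (((((hd.mul hd).mul hy).mul hi).mul hΔ).smul _) |>.add
          ((((hd.mul hw).mul hi).mul hΔ).smul _)
      have h4 := h3.trans (hbd i j hij)
      rw [Matrix.add_apply, Matrix.smul_apply (t * nN t m), smul_eq_mul] at h4
      exact h4
    linear_combination -h2

/-- The marginal identity at the matrix level. -/
theorem marg_matrix (ht : 0 < t) (ht1 : t < 1) (hq : (Fintype.card K : ℝ) * t = (1 + t) ^ 2)
    {Rm Rt : Matrix (Fin m) (Fin m) ℝ} (hR1 : Rm * aM t ω m = 1)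
    (hR3 : Rt * ((1 + t) • 1 - t • aM t ω m) = 1) :
    trace (Rm * ∑ a : K, (cM t ω m a + vecMulVec (aV t ω m (some a)) (bV t ω m (some a)))) +
      t * trace (Rt * ∑ a : K, (cM t ω m a - t • vecMulVec (aV t ω m (some a))
        (bV t ω m (some a)))) =
      (1 + t) * (1 - t ^ (m + 2)) * (t ^ (m + 1))⁻¹ * (1 - t ^ m) * g t none (seg ω 0 m) none := by
  have hR2 : aM t ω m * Rm = 1 := mul_eq_one_comm.1 hR1
  have hR4 : ((1 + t) • 1 - t • aM t ω m) * Rt = 1 := mul_eq_one_comm.1 hR3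
  have hYA : traceLinearMap (Fin m) ℝ ℝ (yM t ω m * aM t ω m) =
      traceLinearMap (Fin m) ℝ ℝ (yM t ω m) := by
    simp only [traceLinearMap_apply]
    rw [← trace_bdp (ω := ω), bdp_mul_left isBd_yM, bdp_aM, mul_one]
  have hmain := trace_main (tr := traceLinearMap (Fin m) ℝ ℝ) (q := (Fintype.card K : ℝ))
    (nN_ne (m := m) ht) ht.ne' (fun X Y => by simp only [traceLinearMap_apply]; exact trace_mul_comm _ _)
    (dM_dI ht) (dI_dM ht) (relR1 (ω := ω) ht ht1) (relR2 (ω := ω) ht ht1) (relR5 (ω := ω) ht ht1)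
    (by linear_combination hq) hR1 hR2 hR3 hR4 hYA
    (by simp only [traceLinearMap_apply]; exact trace_bdp _)
    (by
      simp only [traceLinearMap_apply]
      rw [yM, ← bdp_mul_left isBd_dM, trace_bdp])
    (by
      simp only [traceLinearMap_apply]
      rw [yM, ← bdp_mul_left isBd_dM, ← bdp_mul_left isBd_dM, trace_bdp])
  simp only [traceLinearMap_apply] at hmain
  have e1 : ∑ a : K, (cM t ω m a + vecMulVec (aV t ω m (some a)) (bV t ω m (some a))) =
      GaF t (nN t m) (dM t m) (dI t m) (aM t ω m) (zM t ω m) (yM t ω m) (wM t ω m) +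
      PiF (Fintype.card K : ℝ) t (nN t m) (dM t m) (aM t ω m) (zM t ω m) (yM t ω m) := by
    rw [Finset.sum_add_distrib, sum_c ht ht1 hq, sum_ab ht ht1]
  have e2 : ∑ a : K, (cM t ω m a - t • vecMulVec (aV t ω m (some a)) (bV t ω m (some a))) =
      GaF t (nN t m) (dM t m) (dI t m) (aM t ω m) (zM t ω m) (yM t ω m) (wM t ω m) -
      t • PiF (Fintype.card K : ℝ) t (nN t m) (dM t m) (aM t ω m) (zM t ω m) (yM t ω m) := by
    rw [Finset.sum_sub_distrib, ← Finset.smul_sum, sum_c ht ht1 hq, sum_ab ht ht1]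
  rw [e1, e2, hmain]
  have e3 : trace ((nN t m • dM t m - 1) * (zM t ω m * (1 - dM t m)) * dI t m) =
      nN t m * ((1 - t ^ m) * g t none (seg ω 0 m) none) := by
    have h1 : (nN t m • dM t m - 1) * (zM t ω m * (1 - dM t m)) =
        vecMulVec (aV t ω m none) (bV t ω m none) := by
      rw [← mul_assoc, zM, mul_vecMulVec, n_sub_mulVec_x ht ht1, vecMulVec_mul,
        y_vecMul_sub ht ht1]
    have h2 := g_rec' ht ht1 (ok_none_left none) (seg ω 0 m)
    rw [ss_seg' ω (Nat.zero_le m), length_seg, sum_Ico_fin (m := m) _ le_rfl, Nat.sub_zero] at h2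
    rw [h1, h2, Finset.mul_sum, trace]
    refine Finset.sum_congr rfl fun k _ => ?_
    rw [if_pos ⟨Nat.zero_le _, k.isLt⟩, diag_apply, dI, mul_diagonal, vecMulVec_apply, ← pw1 ht,
      length_seg]
    have : m - (k.val + 1) + 1 = m - k.val := by have := k.isLt; omega
    rw [this, aV, bV]
    ring
  rw [e3]
  have e4 : (nN t m)⁻¹ = t ^ (m + 1) := by rw [nN, inv_inv]
  rw [e4, nN]
  ring

end Pool.Agent.Work.MP_240aa8_pr
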