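import Pool.Agent.Work.MP_240aa8_pr.Ops

/-!
From word functions to 1-dependence on cycles.
-/

namespace Pool.Agent.Work.MP_240aa8_pr

open Finset

variable {K : Type*} [Fintype K]

/-- The two label-restricted weights and the full weight. -/
noncomputable def fAll (x : Option Bool × (K → ℝ)) : K → ℝ := if x.1 = none then 1 else x.2
noncomputable def fA (x : Option Bool × (K → ℝ)) : K → ℝ := if x.1 = some true then x.2 else 1
noncomputable def fB (x : Option Bool × (K → ℝ)) : K → ℝ := if x.1 = some false then x.2 else 1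

/-- Labels that may be adjacent. -/
def sep (x y : Option Bool) : Prop :=
  ¬ (x = some true ∧ y = some false) ∧ ¬ (x = some false ∧ y = some true)

section Path

variable {p : List K → ℝ}

lemma Es_split (hp : ∀ u v, ∑ a, p (u ++ a :: v) = p u * p v) (L R : List (K → ℝ)) :
    Es (L ++ 1 :: R) p = Es L p * Es R p := by
  rw [Es_append, ← Es_mul_right]
  refine Es_congr fun u _ => ?_
  rw [Es_cons]
  simp only [Pi.one_apply, one_mul]
  rw [← Es_sum, ← Es_mul_left]
  exact Es_congr fun v _ => hp u v

lemma Es_one_cons (hp0 : p [] = 1) (hp : ∀ u v, ∑ a, p (u ++ a :: v) = p u * p v)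
    (R : List (K → ℝ)) : Es (1 :: R) p = Es R p := by
  have := Es_split hp [] R
  simpa [hp0] using this

lemma Es_all_one (hp0 : p [] = 1) (hp : ∀ u v, ∑ a, p (u ++ a :: v) = p u * p v) :
    ∀ (L : List (K → ℝ)), (∀ φ ∈ L, φ = 1) → Es L p = 1
  | [], _ => hp0
  | φ :: L, h => by
      rw [h φ (by simp), Es_one_cons hp0 hp]
      exact Es_all_one hp0 hp L (fun ψ hψ => h ψ (by simp [hψ]))

lemma labels_const : ∀ (Λ : List (Option Bool × (K → ℝ))),
    (∀ x ∈ Λ, x.1 ≠ none) → Λ.IsChain (fun x y => sep x.1 y.1) →
    (∀ x ∈ Λ, x.1 = some true) ∨ (∀ x ∈ Λ, x.1 = some false)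
  | [], _, _ => Or.inl (by simp)
  | [x], h, _ => by
      have hx := h x (by simp)
      rcases hx1 : x.1 with _ | b
      · exact absurd hx1 hx
      · cases b
        · right; simp [hx1]
        · left; simp [hx1]
  | x :: y :: Λ, h, hc => by
      rw [List.isChain_cons_cons] at hc
      have ih := labels_const (y :: Λ) (fun z hz => h z (by simp [hz])) hc.2
      have hx := h x (by simp)
      rcases hx1 : x.1 with _ | b
      · exact absurd hx1 hx
      · rcases ih with ih | ih
        · have hy := ih y (by simp)
          cases b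
          · exact absurd ⟨hx1, hy⟩ hc.1.2
          · left
            intro z hz
            rcases List.mem_cons.1 hz with rfl | hz
            · exact hx1
            · exact ih z hz
        · have hy := ih y (by simp)
          cases b
          · right
            intro z hz
            rcases List.mem_cons.1 hz with rfl | hz
            · exact hx1
            · exact ih z hz
          · exact absurd ⟨hx1, hy⟩ hc.1.1

lemma path_indep (hp0 : p [] = 1) (hp : ∀ u v, ∑ a, p (u ++ a :: v) = p u * p v) :
    ∀ (n : ℕ) (Λ : List (Option Bool × (K → ℝ))), Λ.length ≤ n →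
      Λ.IsChain (fun x y => sep x.1 y.1) →
      Es (Λ.map fAll) p = Es (Λ.map fA) p * Es (Λ.map fB) p := by
  intro n
  induction n with
  | zero =>
      intro Λ hΛ _
      have : Λ = [] := List.length_eq_zero_iff.1 (by omega)
      subst this
      simp [hp0]
  | succ n ih =>
      intro Λ hΛ hc
      by_cases hnone : ∀ x ∈ Λ, x.1 ≠ none
      · rcases labels_const Λ hnone hc with h | h
        · have h1 : Λ.map fAll = Λ.map fA :=
            List.map_congr_left fun x hx => by simp [fAll, fA, h x hx]
          have h2 : Es (Λ.map fB) p = 1 := by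
            refine Es_all_one hp0 hp _ ?_
            intro φ hφ
            obtain ⟨x, hx, rfl⟩ := List.mem_map.1 hφ
            simp [fB, h x hx]
          rw [h1, h2, mul_one]
        · have h1 : Λ.map fAll = Λ.map fB :=
            List.map_congr_left fun x hx => by simp [fAll, fB, h x hx]
          have h2 : Es (Λ.map fA) p = 1 := by
            refine Es_all_one hp0 hp _ ?_
            intro φ hφ
            obtain ⟨x, hx, rfl⟩ := List.mem_map.1 hφ
            simp [fA, h x hx]
          rw [h1, h2, one_mul]
      · push Not at hnone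
        obtain ⟨x, hx, hx1⟩ := hnone
        obtain ⟨L, R, rfl⟩ := List.append_of_mem hx
        have hL := hc.left_of_append
        have hR := hc.right_of_append.tail
        simp only [List.tail_cons] at hR
        simp only [List.length_append, List.length_cons] at hΛ
        have e1 := ih L (by omega) hL
        have e2 := ih R (by omega) hR
        have f1 : fAll x = 1 := by simp [fAll, hx1]
        have f2 : fA x = 1 := by simp [fA, hx1]
        have f3 : fB x = 1 := by simp [fB, hx1]
        simp only [List.map_append, List.map_cons, f1, f2, f3]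
        rw [Es_split hp, Es_split hp, Es_split hp, e1, e2]
        ring

end Path

section Cyc

variable {p Pc : List K → ℝ}

lemma Es_rot (hrot : ∀ a w, Pc (a :: w) = Pc (w ++ [a])) (φ : K → ℝ) (L : List (K → ℝ)) :
    Es (φ :: L) Pc = Es (L ++ [φ]) Pc := by
  rw [Es_append, Es_cons]
  simp only [Es_cons, Es_nil]
  rw [Es_sum]
  refine Finset.sum_congr rfl fun a _ => ?_
  rw [Es_mul_left]
  simp only [hrot]

lemma Es_rotate (hrot : ∀ a w, Pc (a :: w) = Pc (w ++ [a])) :
    ∀ (k : ℕ) (L : List (K → ℝ)), Es (L.rotate k) Pc = Es L Pc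
  | 0, L => by simp
  | k + 1, [] => by simp
  | k + 1, φ :: L => by
      rw [List.rotate_cons_succ, Es_rotate hrot k, Es_rot hrot]

lemma Es_cyc_one (n : ℕ) (hmarg : ∀ w : List K, w.length = n → ∑ a, Pc (a :: w) = p w)
    (R : List (K → ℝ)) (hR : R.length = n) : Es (1 :: R) Pc = Es R p := by
  rw [Es_cons]
  simp only [Pi.one_apply, one_mul]
  rw [← Es_sum]
  exact Es_congr fun w hw => hmarg w (by omega)

lemma cyc_indep (hp0 : p [] = 1) (hp : ∀ u v, ∑ a, p (u ++ a :: v) = p u * p v)
    (hrot : ∀ a w, Pc (a :: w) = Pc (w ++ [a])) (n : ℕ)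
    (hmarg : ∀ w : List K, w.length = n → ∑ a, Pc (a :: w) = p w)
    (Λ : List (Option Bool × (K → ℝ))) (hΛ : Λ.length = n + 1) (k : ℕ)
    (hc : (Λ.rotate k).IsChain (fun x y => sep x.1 y.1))
    (hh : ∀ x ∈ (Λ.rotate k).head?, x.1 = none) :
    Es (Λ.map fAll) Pc = Es (Λ.map fA) Pc * Es (Λ.map fB) Pc := by
  rw [← Es_rotate hrot k (Λ.map fAll), ← Es_rotate hrot k (Λ.map fA),
    ← Es_rotate hrot k (Λ.map fB), ← List.map_rotate, ← List.map_rotate, ← List.map_rotate]
  have hlen : (Λ.rotate k).length = n + 1 := by simp [hΛ]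
  generalize Λ.rotate k = M at *
  cases M with
  | nil => simp at hlen
  | cons x R =>
      have hx1 : x.1 = none := hh x (by simp)
      have f1 : fAll x = 1 := by simp [fAll, hx1]
      have f2 : fA x = 1 := by simp [fA, hx1]
      have f3 : fB x = 1 := by simp [fB, hx1]
      simp only [List.length_cons, Nat.add_right_cancel_iff] at hlen
      simp only [List.map_cons, f1, f2, f3]
      rw [Es_cyc_one n hmarg _ (by simpa using hlen), Es_cyc_one n hmarg _ (by simpa using hlen),
        Es_cyc_one n hmarg _ (by simpa using hlen)]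
      exact path_indep hp0 hp _ R le_rfl hc.tail

end Cyc

lemma Es_ofFn : ∀ (n : ℕ) (φ : Fin n → K → ℝ) (F : List K → ℝ),
    Es (List.ofFn φ) F = ∑ x : Fin n → K, (∏ i, φ i (x i)) * F (List.ofFn x)
  | 0, φ, F => by simp
  | n + 1, φ, F => by
      rw [List.ofFn_succ, Es_cons]
      rw [← (Fin.consEquiv (fun _ : Fin (n + 1) => K)).sum_comp, Fintype.sum_prod_type]
      refine Finset.sum_congr rfl fun a _ => ?_
      rw [Es_ofFn n, Finset.mul_sum]
      refine Finset.sum_congr rfl fun x _ => ?_
      simp [Fin.consEquiv, Fin.prod_univ_succ, List.ofFn_succ, mul_assoc]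

end Pool.Agent.Work.MP_240aa8_pr
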