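import Pool.Agent.Work.MP_240aa8_pr.Path

/-!
The kernel `g b w d` on words between two (possibly uncoloured) end letters, its splitting
recursion, its deletion identity, and the link with the path colouring.
-/

namespace Pool.Agent.Work.MP_240aa8_pr

open Finset

variable {K : Type}

/-- compatibility of the end letters -/
def ok (b d : Option K) : Prop := b = d → b = none

@[simp] lemma ok_none_left (d : Option K) : ok none d := fun _ => rfl
@[simp] lemma ok_none_right (b : Option K) : ok b none := fun h => h
@[simp] lemma ok_some {a c : K} : ok (some a) (some c) ↔ a ≠ c := by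
  simp [ok]

open Classical in
noncomputable def gn (t : ℝ) : ℕ → Option K → List K → Option K → ℝ
  | 0, b, _, d => if ok b d then 1 else 0
  | _ + 1, b, [], d => if ok b d then 1 else 0
  | n + 1, b, (x :: w), d => if ok b d then
      ss (x :: w) (fun u c v => t ^ (v.length + 1) * (gn t n b u (some c) * gn t n (some c) v d)) /
        (1 - t ^ (w.length + 1)) else 0

/-- the kernel -/
noncomputable def g (t : ℝ) (b : Option K) (w : List K) (d : Option K) : ℝ := gn t w.length b w d

lemma gn_eq (t : ℝ) : ∀ (n : ℕ) (b : Option K) (w : List K) (d : Option K), w.length ≤ n →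
    gn t n b w d = g t b w d := by
  intro n
  induction n using Nat.strong_induction_on with
  | _ n ih =>
  intro b w d hw
  match n, w with
  | 0, [] => rfl
  | n + 1, [] => rfl
  | n + 1, x :: w =>
      rw [g, List.length_cons]
      rw [List.length_cons] at hw
      simp only [gn]
      congr 2
      refine ss_congr fun u c v h => ?_
      have hl := congrArg List.length h
      simp only [List.length_cons, List.length_append] at hl
      rw [ih n (by omega) b u _ (by omega), ih n (by omega) _ v d (by omega),
        ih w.length (by omega) b u _ (by omega), ih w.length (by omega) _ v d (by omega)]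

lemma g_nil (t : ℝ) {b d : Option K} (h : ok b d) : g t b [] d = 1 := by
  classical
  simp [g, gn, h]

lemma g_not_ok (t : ℝ) {b d : Option K} (h : ¬ ok b d) (w : List K) : g t b w d = 0 := by
  classical
  cases w with
  | nil => simp [g, gn, h]
  | cons x w => simp [g, gn, h]

lemma one_sub_pow_pos {t : ℝ} (ht : 0 < t) (ht1 : t < 1) {m : ℕ} (hm : m ≠ 0) : 0 < 1 - t ^ m :=
  sub_pos.2 (pow_lt_one₀ ht.le ht1 hm)

lemma g_rec {t : ℝ} (ht : 0 < t) (ht1 : t < 1) {b d : Option K} (h : ok b d) {w : List K}
    (hw : w ≠ []) : (1 - t ^ w.length) * g t b w d =
      ss w (fun u c v => t ^ (v.length + 1) * (g t b u (some c) * g t (some c) v d)) := by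
  classical
  match w, hw with
  | x :: w, _ =>
      have h0 := (one_sub_pow_pos ht ht1 (m := w.length + 1) (by omega)).ne'
      have : g t b (x :: w) d = ss (x :: w) (fun u c v => t ^ (v.length + 1) *
          (gn t w.length b u (some c) * gn t w.length (some c) v d)) /
            (1 - t ^ (w.length + 1)) := by
        rw [g, List.length_cons]
        simp only [gn]
        rw [if_pos h]
      rw [this, List.length_cons, mul_div_cancel₀ _ h0]
      refine ss_congr fun u c v h => ?_
      have hl := congrArg List.length h
      simp only [List.length_cons, List.length_append] at hl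
      rw [gn_eq t _ b u _ (by omega), gn_eq t _ _ v d (by omega)]

lemma g_nonneg {t : ℝ} (ht : 0 < t) (ht1 : t < 1) : ∀ (n : ℕ) (b : Option K) (w : List K)
    (d : Option K), w.length ≤ n → 0 ≤ g t b w d := by
  intro n
  induction n with
  | zero =>
      intro b w d hw
      obtain rfl : w = [] := List.length_eq_zero_iff.1 (by omega)
      by_cases h : ok b d
      · rw [g_nil t h]; exact zero_le_one
      · rw [g_not_ok t h]
  | succ n ih =>
      intro b w d hw
      by_cases h : ok b d
      swap
      · rw [g_not_ok t h]
      rcases eq_or_ne w [] with rfl | hne
      · rw [g_nil t h]; exact zero_le_one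
      have hl : w.length ≠ 0 := by simpa using hne
      have h1 := g_rec ht ht1 h hne
      have h2 := one_sub_pow_pos ht ht1 hl
      have h3 : 0 ≤ (1 - t ^ w.length) * g t b w d := by
        rw [h1]
        refine ss_nonneg fun u c v huv => ?_
        have hl := congrArg List.length huv
        simp only [List.length_cons, List.length_append] at hl
        exact mul_nonneg (pow_pos ht _).le (mul_nonneg (ih _ _ _ (by omega)) (ih _ _ _ (by omega)))
      exact nonneg_of_mul_nonneg_right h3 h2

/-- the full chain of letters -/
def full (b : Option K) (w : List K) (d : Option K) : List (Option K) := b :: (w.map some ++ [d])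

def Good (b : Option K) (w : List K) (d : Option K) : Prop := (full b w d).IsChain ok

lemma good_split {b d : Option K} {u v : List K} {c : K} :
    Good b (u ++ c :: v) d ↔ Good b u (some c) ∧ Good (some c) v d := by
  unfold Good full
  have : b :: ((u ++ c :: v).map some ++ [d]) =
      (b :: u.map some) ++ some c :: (v.map some ++ [d]) := by simp
  rw [this, List.isChain_split]
  simp

lemma good_nil {b d : Option K} : Good b [] d ↔ ok b d := by
  simp [Good, full]

lemma g_not_good {t : ℝ} (ht : 0 < t) (ht1 : t < 1) : ∀ (n : ℕ) (b : Option K) (w : List K)
    (d : Option K), w.length ≤ n → ¬ Good b w d → g t b w d = 0 := by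
  intro n
  induction n with
  | zero =>
      intro b w d hw hg
      obtain rfl : w = [] := List.length_eq_zero_iff.1 (by omega)
      rw [good_nil] at hg
      rw [g_not_ok t hg]
  | succ n ih =>
      intro b w d hw hg
      by_cases h : ok b d
      swap
      · rw [g_not_ok t h]
      rcases eq_or_ne w [] with rfl | hne
      · rw [good_nil] at hg
        exact absurd h hg
      have hl : w.length ≠ 0 := by simpa using hne
      have h1 := g_rec ht ht1 h hne
      have h2 := one_sub_pow_pos ht ht1 hl
      rw [ss_zero] at h1
      · exact (mul_eq_zero.1 h1).resolve_left h2.ne'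
      · intro u c v huv
        have hl := congrArg List.length huv
        simp only [List.length_cons, List.length_append] at hl
        rw [huv, good_split] at hg
        by_cases hg1 : Good b u (some c)
        · have hg2 : ¬ Good (some c) v d := fun h' => hg ⟨hg1, h'⟩
          rw [ih (some c) v d (by omega) hg2]
          ring
        · rw [ih b u (some c) (by omega) hg1]
          ring

lemma good_none {w : List K} : Good none w none ↔ Proper w := by
  unfold Good full Proper
  induction w with
  | nil => simp
  | cons a w ih =>
      cases w with
      | nil => simp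
      | cons c w =>
          simp only [List.map_cons, List.cons_append, List.isChain_cons_cons, ok_none_left,
            true_and, ok_some] at ih ⊢
          rw [ih]

/-- Lemma D: the deletion identity. -/
lemma g_del {t : ℝ} (ht : 0 < t) (ht1 : t < 1) : ∀ (n : ℕ) (b : Option K) (w : List K)
    (d : Option K), w.length ≤ n → Good b w d →
      (1 - t ^ w.length) * g t b w d = t * ds t w (fun w' => g t b w' d) := by
  intro n
  induction n with
  | zero =>
      intro b w d hw hg
      obtain rfl : w = [] := List.length_eq_zero_iff.1 (by omega)
      simp
  | succ n ih =>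
      intro b w d hw hg
      by_cases h : ok b d
      swap
      · rw [g_not_ok t h, ds_congr (F' := fun _ => 0), ds_zero]
        · ring
        · intro w' _
          exact g_not_ok t h w'
      rcases eq_or_ne w [] with rfl | hne
      · simp
      have hl : w.length ≠ 0 := by simpa using hne
      by_cases hl1 : w.length = 1
      · obtain ⟨c, rfl⟩ := List.length_eq_one_iff.1 hl1
        rw [g_rec ht ht1 h hne, ss_cons, ds_cons]
        simp only [ss_nil, ds_nil, mul_zero, add_zero, List.length_nil, zero_add, pow_one]
        have := (good_split (u := []) (v := [])).1 hg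
        rw [good_nil, good_nil] at this
        rw [g_nil t this.1, g_nil t this.2, g_nil t h, mul_one]
      -- main case
      have h1 := one_sub_pow_pos ht ht1 (m := w.length - 1) (by omega)
      apply mul_left_cancel₀ h1.ne'
      have e1 : (1 - t ^ (w.length - 1)) * (t * ds t w (fun w' => g t b w' d)) =
          t * ds t w (fun w' => ss w' (fun u c v =>
            t ^ (v.length + 1) * (g t b u (some c) * g t (some c) v d))) := by
        rw [mul_left_comm, ← ds_mul_left]
        congr 1
        refine ds_congr fun w' hw' => ?_
        have : w.length - 1 = w'.length := by omega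
        rw [this, g_rec ht ht1 h]
        intro h0
        rw [h0] at hw'
        simp at hw'
        omega
      rw [e1, ds_ss, g_rec ht ht1 h hne, ← ss_mul_left, ← ss_mul_left]
      refine ss_congr fun u c v huv => ?_
      have hl := congrArg List.length huv
      simp only [List.length_cons, List.length_append] at hl
      rw [huv, good_split] at hg
      have e2 : ds t u (fun u' => t ^ (v.length + 1) * (g t b u' (some c) * g t (some c) v d)) =
          t ^ (v.length + 1) * (ds t u (fun u' => g t b u' (some c)) * g t (some c) v d) := by
        rw [ds_mul_left, ds_mul_right]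
      have e3 : ds t v (fun v' => t ^ (v'.length + 1) * (g t b u (some c) * g t (some c) v' d)) =
          t ^ v.length * (g t b u (some c) * ds t v (fun v' => g t (some c) v' d)) := by
        rw [← ds_mul_left, ← ds_mul_left]
        refine ds_congr fun w' hw' => ?_
        rw [hw']
      have i1 := ih b u (some c) (by omega) hg.1
      have i2 := ih (some c) v d (by omega) hg.2
      rw [e2, e3]
      have e4 : w.length - 1 = u.length + v.length := by omega
      rw [e4, pow_add]
      linear_combination (t ^ (v.length + 1) * g t (some c) v d) * i1 +
        (t ^ u.length * t ^ (v.length + 1) * g t b u (some c)) * i2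

noncomputable def kappa (t : ℝ) (m : ℕ) : ℝ :=
  ((1 + t) / (1 - t)) ^ m * ((1 - t ^ (m + 1)) / (1 - t))

/-- link with the path colouring -/
theorem g_none {t : ℝ} (ht : 0 < t) (ht1 : t < 1) : ∀ (n : ℕ) (w : List K), w.length = n →
    g t none w none = kappa t w.length * pw t w := by
  intro n
  have h1t : 1 - t ≠ 0 := by linarith
  induction n with
  | zero =>
      intro w hw
      obtain rfl : w = [] := List.length_eq_zero_iff.1 hw
      rw [g_nil t (ok_none_left _)]
      simp [kappa, h1t]
  | succ n ih =>
      intro w hw
      by_cases hp : Proper w
      swap
      · rw [pw_improper hp, g_not_good ht ht1 _ none w none le_rfl (fun h => hp (good_none.1 h)),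
          mul_zero]
      have hne : w ≠ [] := by
        intro h; rw [h] at hw; simp at hw
      have h1 := g_del ht ht1 _ none w none le_rfl (good_none.2 hp)
      have h2 : ds t w (fun w' => g t none w' none) = kappa t n * (zeta t w.length * pw t w) := by
        rw [pw_eq ht hne hp, ← ds_mul_left]
        refine ds_congr fun w' hw' => ?_
        rw [ih w' (by omega)]
        congr 2
        omega
      rw [h2, hw] at h1
      have h3 := one_sub_pow_pos ht ht1 (m := n + 1) (by omega)
      rw [hw]
      apply mul_left_cancel₀ h3.ne'
      rw [h1]
      have hz : zeta t (n + 1) = (1 + t) / t * ((1 - t ^ (n + 2)) / (1 - t)) := by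
        unfold zeta
        congr 1
        have := mul_neg_geom_sum t (n + 1 + 1)
        rw [eq_div_iff h1t, mul_comm]
        exact this
      rw [hz]
      unfold kappa
      rw [pow_succ ((1 + t) / (1 - t)) n]
      field_simp

lemma ok_map {L : Type} {σ : K → L} (hσ : Function.Injective σ) (b d : Option K) :
    ok (b.map σ) (d.map σ) ↔ ok b d := by
  cases b <;> cases d <;> simp [ok, hσ.eq_iff]

lemma g_map {L : Type} {σ : K → L} (hσ : Function.Injective σ) {t : ℝ} (ht : 0 < t) (ht1 : t < 1) :
    ∀ (n : ℕ) (b : Option K) (w : List K) (d : Option K), w.length ≤ n →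
      g t (b.map σ) (w.map σ) (d.map σ) = g t b w d := by
  intro n
  induction n with
  | zero =>
      intro b w d hw
      obtain rfl : w = [] := List.length_eq_zero_iff.1 (by omega)
      by_cases h : ok b d
      · rw [List.map_nil, g_nil t h, g_nil t ((ok_map hσ b d).2 h)]
      · rw [g_not_ok t h, g_not_ok t (fun h' => h ((ok_map hσ b d).1 h'))]
  | succ n ih =>
      intro b w d hw
      by_cases h : ok b d
      swap
      · rw [g_not_ok t h, g_not_ok t (fun h' => h ((ok_map hσ b d).1 h'))]
      rcases eq_or_ne w [] with rfl | hne
      · rw [List.map_nil, g_nil t h, g_nil t ((ok_map hσ b d).2 h)]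
      have hl : w.length ≠ 0 := by simpa using hne
      have h1 := g_rec ht ht1 h hne
      have h2 := one_sub_pow_pos ht ht1 hl
      have h3 := g_rec ht ht1 ((ok_map hσ b d).2 h) (w := w.map σ) (by simpa using hne)
      rw [List.length_map, ss_map] at h3
      apply mul_left_cancel₀ h2.ne'
      rw [h1, h3]
      refine ss_congr fun u c v huv => ?_
      have hl := congrArg List.length huv
      simp only [List.length_cons, List.length_append] at hl
      rw [List.length_map, ← Option.map_some, ih b u _ (by omega), ih _ v d (by omega)]

end Pool.Agent.Work.MP_240aa8_pr
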