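import Pool.Agent.Work.MP_240aa8_pr.Seg
import Pool.Agent.Work.MP_240aa8_pr.Abstract

/-!
Closed forms for the summed kernels, and the marginal identity at the matrix level.
-/

namespace Pool.Agent.Work.MP_240aa8_pr

open Finset Matrix

variable {K : Type} {t : ℝ} {ω : ℕ → K} {m : ℕ}

/-- `A = 1 - g` -/
noncomputable def aM (t : ℝ) (ω : ℕ → K) (m : ℕ) : Matrix (Fin m) (Fin m) ℝ := 1 - gM t ω m

/-- normalisation -/
noncomputable def nN (t : ℝ) (m : ℕ) : ℝ := (t ^ (m + 1))⁻¹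

lemma nN_ne (ht : 0 < t) : nN t m ≠ 0 := inv_ne_zero (pow_pos ht _).ne'

lemma dM_dI (ht : 0 < t) : dM t m * dI t m = 1 := by
  rw [dM, dI, diagonal_mul_diagonal, ← diagonal_one]
  congr 1
  funext i
  exact mul_inv_cancel₀ (pow_pos ht _).ne'

lemma dI_dM (ht : 0 < t) : dI t m * dM t m = 1 := by
  rw [dM, dI, diagonal_mul_diagonal, ← diagonal_one]
  congr 1
  funext i
  exact inv_mul_cancel₀ (pow_pos ht _).ne'

lemma dXd_apply (X : Matrix (Fin m) (Fin m) ℝ) (i k : Fin m) :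
    (dM t m * X * dI t m) i k = t ^ (i.val + 1) * X i k * (t ^ (k.val + 1))⁻¹ := by
  rw [dM, dI, mul_diagonal, diagonal_mul]

/-- power bookkeeping -/
lemma pw1 (ht : 0 < t) {k : Fin m} : t ^ (m - k.val) * nN t m = (t ^ (k.val + 1))⁻¹ := by
  have hk := k.isLt
  unfold nN
  have : t ^ (m + 1) = t ^ (m - k.val) * t ^ (k.val + 1) := by
    rw [← pow_add]; congr 1; omega
  rw [this, mul_inv, ← mul_assoc, mul_inv_cancel₀ (pow_pos ht _).ne', one_mul]

lemma pw2 (ht : 0 < t) {i : Fin m} : t * t ^ (i.val + 1) * nN t m * t ^ (m - 1 - i.val) = 1 := by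
  have hi := i.isLt
  unfold nN
  have : t ^ (m + 1) = t * t ^ (i.val + 1) * t ^ (m - 1 - i.val) := by
    rw [← pow_succ', ← pow_add]; congr 1; omega
  rw [this]
  have h := (pow_pos ht (i.val + 1)).ne'
  have h' := (pow_pos ht (m - 1 - i.val)).ne'
  field_simp

lemma pw3 (ht : 0 < t) {k j : ℕ} (h : k ≤ j) :
    (t ^ (j + 1))⁻¹ * t ^ (j - k) = (t ^ (k + 1))⁻¹ := by
  have : t ^ (j + 1) = t ^ (j - k) * t ^ (k + 1) := by
    rw [← pow_add]; congr 1; omega
  rw [this, mul_inv]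
  have h := (pow_pos ht (j - k)).ne'
  field_simp

lemma pw4 (ht : 0 < t) (j : ℕ) : t * (t ^ (j + 1))⁻¹ * t ^ j = 1 := by
  have h := (pow_pos ht j).ne'
  rw [pow_succ]
  field_simp

lemma pw5 (ht : 0 < t) {i j : ℕ} (h : i < j) :
    t * t ^ (i + 1) * (t ^ (j + 1))⁻¹ * t ^ (j - i - 1) = 1 := by
  have : t ^ (j + 1) = t * t ^ (i + 1) * t ^ (j - i - 1) := by
    rw [← pow_succ', ← pow_add]; congr 1; omega
  rw [this]
  have h := (pow_pos ht (i + 1)).ne'
  have h' := (pow_pos ht (j - i - 1)).ne'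
  field_simp

lemma pw6 (ht : 0 < t) {i j : Fin m} :
    t * nN t m * t ^ (i.val + 1) * (t ^ (j.val + 1))⁻¹ * t ^ (m - i.val + j.val) = 1 := by
  have hi := i.isLt
  unfold nN
  have : t ^ (m - i.val + j.val) = t ^ (m + 1) * t ^ (j.val + 1) * (t ^ (i.val + 1))⁻¹ * t⁻¹ := by
    rw [← pow_add]
    have : t ^ (m + 1 + (j.val + 1)) = t ^ (m - i.val + j.val) * (t ^ (i.val + 1) * t) := by
      rw [← pow_succ, ← pow_add]; congr 1; omega
    rw [this]
    have h := (pow_pos ht (i.val + 1)).ne'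
    field_simp
  rw [this]
  have h := (pow_pos ht (i.val + 1)).ne'
  have h' := (pow_pos ht (j.val + 1)).ne'
  have h'' := (pow_pos ht (m + 1)).ne'
  field_simp

/-- the operator of the `α` relation -/
noncomputable def opA (t : ℝ) (ω : ℕ → K) (m : ℕ) : Matrix (Fin m) (Fin m) ℝ :=
  (1 + t) • (1 : Matrix (Fin m) (Fin m) ℝ) - t • (dM t m * aM t ω m * dI t m) - (t * nN t m) • dM t m

/-- the operator of the `β` relation -/
noncomputable def opB (t : ℝ) (ω : ℕ → K) (m : ℕ) : Matrix (Fin m) (Fin m) ℝ :=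
  t • (dI t m * aM t ω m) - 1

lemma opA_apply (ht : 0 < t) (v : Fin m → ℝ) (i : Fin m) :
    (opA t ω m *ᵥ v) i = (1 - t * nN t m * t ^ (i.val + 1)) * v i +
      t * ∑ k, t ^ (i.val + 1) * gM t ω m i k * (t ^ (k.val + 1))⁻¹ * v k := by
  have e : opA t ω m = (1 : Matrix (Fin m) (Fin m) ℝ) - (t * nN t m) • dM t m +
      t • (dM t m * gM t ω m * dI t m) := by
    unfold opA aM
    rw [mul_sub, sub_mul, mul_one, dM_dI ht, smul_sub, add_smul, one_smul]
    abel
  rw [e, add_mulVec, sub_mulVec, one_mulVec, smul_mulVec, smul_mulVec, Pi.add_apply, Pi.sub_apply,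
    Pi.smul_apply, Pi.smul_apply, dM, mulVec_diagonal]
  rw [← dM, mulVec, dotProduct]
  simp only [dXd_apply, smul_eq_mul]
  ring

lemma opB_apply (v : Fin m → ℝ) (j : Fin m) :
    (v ᵥ* opB t ω m) j = (t * (t ^ (j.val + 1))⁻¹ - 1) * v j -
      t * ∑ k, v k * (t ^ (k.val + 1))⁻¹ * gM t ω m k j := by
  have e : opB t ω m = t • dI t m - t • (dI t m * gM t ω m) - 1 := by
    unfold opB aM
    rw [mul_sub, mul_one, smul_sub]
  rw [e, vecMul_sub, vecMul_sub, vecMul_one, vecMul_smul, vecMul_smul, Pi.sub_apply, Pi.sub_apply,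
    Pi.smul_apply, Pi.smul_apply, dI, vecMul_diagonal]
  rw [← dI, vecMul, dotProduct]
  have : ∀ k, (dI t m * gM t ω m) k j = (t ^ (k.val + 1))⁻¹ * gM t ω m k j := by
    intro k; rw [dI, diagonal_mul]
  simp only [this, smul_eq_mul, ← mul_assoc]
  ring

/-- the operator of the `γ` relation -/
noncomputable def opC (t : ℝ) (ω : ℕ → K) (m : ℕ) (X : Matrix (Fin m) (Fin m) ℝ) :
    Matrix (Fin m) (Fin m) ℝ :=
  (1 + t) • X - t • (dM t m * aM t ω m * dI t m * X) - (t * nN t m) • (dM t m * X * dI t m * aM t ω m)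

lemma opC_apply (ht : 0 < t) (X : Matrix (Fin m) (Fin m) ℝ) (i j : Fin m) :
    opC t ω m X i j = (1 - t * nN t m * t ^ (i.val + 1) * (t ^ (j.val + 1))⁻¹) * X i j +
      t * ∑ k, t ^ (i.val + 1) * gM t ω m i k * (t ^ (k.val + 1))⁻¹ * X k j +
      t * nN t m * t ^ (i.val + 1) * ∑ k, X i k * (t ^ (k.val + 1))⁻¹ * gM t ω m k j := by
  have e : opC t ω m X = X - (t * nN t m) • (dM t m * X * dI t m) +
      t • (dM t m * gM t ω m * dI t m * X) +
      (t * nN t m) • (dM t m * (X * dI t m * gM t ω m)) := by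
    unfold opC aM
    rw [mul_sub, sub_mul, sub_mul, mul_one, dM_dI ht, one_mul, mul_sub, mul_one, smul_sub, add_smul,
      one_smul, smul_sub]
    simp only [mul_assoc]
    abel
  have e1 : (dM t m * gM t ω m * dI t m * X) i j =
      ∑ k, t ^ (i.val + 1) * gM t ω m i k * (t ^ (k.val + 1))⁻¹ * X k j := by
    rw [mul_apply]
    simp only [dXd_apply]
  have e2 : (dM t m * (X * dI t m * gM t ω m)) i j =
      t ^ (i.val + 1) * ∑ k, X i k * (t ^ (k.val + 1))⁻¹ * gM t ω m k j := by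
    rw [dM, diagonal_mul, mul_apply]
    congr 1
    refine Finset.sum_congr rfl fun k _ => ?_
    rw [dI, mul_diagonal]
  rw [e, Matrix.add_apply, Matrix.add_apply, Matrix.sub_apply, Matrix.smul_apply, Matrix.smul_apply, Matrix.smul_apply, dXd_apply, e1, e2]
  simp only [smul_eq_mul]
  ring

lemma opA_aV (ht : 0 < t) (ht1 : t < 1) {d : Option K} {i : Fin m} (h : ok (some (ω i)) d) :
    (opA t ω m *ᵥ aV t ω m d) i = 0 := by
  rw [opA_apply ht]
  have h1 := aV_rec (m := m) ht ht1 h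
  have h2 : ∑ k, t ^ (i.val + 1) * gM t ω m i k * (t ^ (k.val + 1))⁻¹ * aV t ω m d k =
      t ^ (i.val + 1) * nN t m *
        ∑ k : Fin m, t ^ (m - k.val) * (gM t ω m i k * aV t ω m d k) := by
    rw [Finset.mul_sum]
    refine Finset.sum_congr rfl fun k _ => ?_
    rw [← pw1 ht]
    ring
  rw [h2, ← h1]
  linear_combination (-aV t ω m d i) * pw2 ht (i := i)

lemma bV_opB (ht : 0 < t) (ht1 : t < 1) {d : Option K} {j : Fin m} (h : ok d (some (ω j))) :
    (bV t ω m d ᵥ* opB t ω m) j = 0 := by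
  rw [opB_apply]
  have h1 := bV_rec (m := m) ht ht1 h
  have h2 : ∑ k, bV t ω m d k * (t ^ (k.val + 1))⁻¹ * gM t ω m k j =
      (t ^ (j.val + 1))⁻¹ *
        ∑ k : Fin m, t ^ (j.val - k.val) * (bV t ω m d k * gM t ω m k j) := by
    rw [Finset.mul_sum]
    refine Finset.sum_congr rfl fun k _ => ?_
    by_cases hk : k < j
    · rw [← pw3 ht (le_of_lt hk)]
      ring
    · rw [gM_of_le (not_lt.1 hk)]; ring
  rw [h2, ← h1]
  linear_combination (bV t ω m d j) * pw4 ht j.val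

lemma opC_cM (ht : 0 < t) (ht1 : t < 1) (a : K) {i j : Fin m} (h : ω i ≠ ω j) :
    opC t ω m (cM t ω m a) i j + (t * nN t m) *
      (t ^ (i.val + 1) * (aV t ω m (some a) i * bV t ω m (some a) j)) = 0 := by
  rw [opC_apply ht]
  have h1 := cM_rec (m := m) ht ht1 a h
  have h2 : ∑ k, t ^ (i.val + 1) * gM t ω m i k * (t ^ (k.val + 1))⁻¹ * cM t ω m a k j =
      t ^ (i.val + 1) * nN t m * (t ^ (j.val + 1))⁻¹ *
        ∑ k : Fin m, t ^ (m - k.val + (j.val + 1)) * (gM t ω m i k * cM t ω m a k j) := by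
    rw [Finset.mul_sum]
    refine Finset.sum_congr rfl fun k _ => ?_
    have h0 := mul_inv_cancel₀ (pow_pos ht (j.val + 1)).ne'
    rw [← pw1 ht, pow_add t (m - k.val) (j.val + 1)]
    linear_combination (-(t ^ (i.val + 1) * gM t ω m i k * (t ^ (m - k.val) * nN t m) *
      cM t ω m a k j)) * h0
  have h3 : ∑ k, cM t ω m a i k * (t ^ (k.val + 1))⁻¹ * gM t ω m k j =
      (t ^ (j.val + 1))⁻¹ *
        ∑ k : Fin m, t ^ (j.val - k.val) * (cM t ω m a i k * gM t ω m k j) := by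
    rw [Finset.mul_sum]
    refine Finset.sum_congr rfl fun k _ => ?_
    by_cases hk : k < j
    · rw [← pw3 ht (le_of_lt hk)]
      ring
    · rw [gM_of_le (not_lt.1 hk)]; ring
  rw [h2, h3]
  have h4 := pw6 ht (i := i) (j := j)
  have h5 := mul_inv_cancel₀ (pow_pos ht (j.val + 1)).ne'
  linear_combination (-cM t ω m a i j) * h4 -
    (t * nN t m * t ^ (i.val + 1) * (t ^ (j.val + 1))⁻¹) * h1 -
    (t * nN t m * t ^ (i.val + 1) * aV t ω m (some a) i * bV t ω m (some a) j) * h5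

/-- block-diagonal matrices -/
def IsBd (ω : ℕ → K) (m : ℕ) (X : Matrix (Fin m) (Fin m) ℝ) : Prop :=
  ∀ i j : Fin m, ω i ≠ ω j → X i j = 0

lemma IsBd.add {X X' : Matrix (Fin m) (Fin m) ℝ} (h : IsBd ω m X) (h' : IsBd ω m X') :
    IsBd ω m (X + X') := fun i j hij => by rw [Matrix.add_apply, h i j hij, h' i j hij, add_zero]

lemma IsBd.sub {X X' : Matrix (Fin m) (Fin m) ℝ} (h : IsBd ω m X) (h' : IsBd ω m X') :
    IsBd ω m (X - X') := fun i j hij => by rw [Matrix.sub_apply, h i j hij, h' i j hij, sub_zero]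

lemma IsBd.smul {X : Matrix (Fin m) (Fin m) ℝ} (h : IsBd ω m X) (c : ℝ) :
    IsBd ω m (c • X) := fun i j hij => by rw [Matrix.smul_apply, h i j hij, smul_zero]

lemma IsBd.mul {X X' : Matrix (Fin m) (Fin m) ℝ} (h : IsBd ω m X) (h' : IsBd ω m X') :
    IsBd ω m (X * X') := fun i j hij => by
  rw [mul_apply]
  refine Finset.sum_eq_zero fun k _ => ?_
  by_cases hk : ω i = ω k
  · rw [h' k j (by rw [← hk]; exact hij), mul_zero]
  · rw [h i k hk, zero_mul]

lemma isBd_diagonal (v : Fin m → ℝ) : IsBd ω m (diagonal v) := fun i j hij => by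
  rw [diagonal_apply_ne]
  rintro rfl
  exact hij rfl

lemma isBd_dM : IsBd ω m (dM t m) := isBd_diagonal _
lemma isBd_dI : IsBd ω m (dI t m) := isBd_diagonal _
lemma isBd_one : IsBd ω m (1 : Matrix (Fin m) (Fin m) ℝ) := by
  rw [← diagonal_one]; exact isBd_diagonal _

/-- `Δ` -/
noncomputable def delM (t : ℝ) (ω : ℕ → K) (m : ℕ) : Matrix (Fin m) (Fin m) ℝ :=
  (1 + t) • aM t ω m - t • (dM t m * aM t ω m * dI t m * aM t ω m)

lemma isBd_delM (ht : 0 < t) (ht1 : t < 1) : IsBd ω m (delM t ω m) := by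
  intro i j hij
  have e : delM t ω m = 1 - gM t ω m + t • (dM t m * gM t ω m * dI t m) -
      t • (dM t m * gM t ω m * dI t m * gM t ω m) := by
    unfold delM aM
    simp only [mul_sub, sub_mul, mul_one, one_mul, dM_dI ht, smul_sub, add_smul, one_smul]
    abel
  have hne : i ≠ j := fun h => hij (by rw [h])
  have e1 : (dM t m * gM t ω m * dI t m * gM t ω m) i j =
      ∑ k, t ^ (i.val + 1) * gM t ω m i k * (t ^ (k.val + 1))⁻¹ * gM t ω m k j := by
    rw [mul_apply]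
    simp only [dXd_apply]
  rw [e, Matrix.sub_apply, Matrix.add_apply, Matrix.sub_apply, Matrix.smul_apply, Matrix.smul_apply, dXd_apply, e1, one_apply_ne hne]
  simp only [smul_eq_mul]
  by_cases hlt : i < j
  · have h1 := gM_rec (m := m) ht ht1 hlt hij
    have h2 : ∑ k, t ^ (i.val + 1) * gM t ω m i k * (t ^ (k.val + 1))⁻¹ * gM t ω m k j =
      t ^ (i.val + 1) * (t ^ (j.val + 1))⁻¹ *
        ∑ k : Fin m, t ^ (j.val - k.val) * (gM t ω m i k * gM t ω m k j) := by
      rw [Finset.mul_sum]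
      refine Finset.sum_congr rfl fun k _ => ?_
      by_cases hk : k < j
      · rw [← pw3 ht (le_of_lt hk)]
        ring
      · rw [gM_of_le (not_lt.1 hk)]; ring
    rw [h2, ← h1]
    have h3 := pw5 ht (show i.val < j.val from hlt)
    linear_combination (gM t ω m i j) * h3
  · have h2 : ∑ k, t ^ (i.val + 1) * gM t ω m i k * (t ^ (k.val + 1))⁻¹ * gM t ω m k j = 0 := by
      refine Finset.sum_eq_zero fun k _ => ?_
      by_cases hk : k < j
      · rw [gM_of_le (le_trans hk.le (not_lt.1 hlt)) (i := i) (j := k)]; ring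
      · rw [gM_of_le (not_lt.1 hk)]; ring
    rw [h2, gM_of_le (not_lt.1 hlt)]
    ring

end Pool.Agent.Work.MP_240aa8_pr
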