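import Mathlib

/-!
Operators on words (lists): weighted deletion sums, sums over splittings, and iterated sums
against product weights.
-/

namespace Pool.Agent.Work.MP_240aa8_pr

variable {K : Type*}

/-- Weighted deletion sum: `∑_k t^k F(w with the k-th letter deleted)`. -/
def ds (t : ℝ) : List K → (List K → ℝ) → ℝ
  | [], _ => 0
  | a :: w, F => F w + t * ds t w (fun w' => F (a :: w'))

/-- Sum over splittings `w = u ++ c :: v` of `f u c v`. -/
def ss : List K → (List K → K → List K → ℝ) → ℝ
  | [], _ => 0
  | a :: w, f => f [] a w + ss w (fun u c v => f (a :: u) c v)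

@[simp] lemma ds_nil (t : ℝ) (F : List K → ℝ) : ds t [] F = 0 := rfl
lemma ds_cons (t : ℝ) (a : K) (w : List K) (F : List K → ℝ) :
    ds t (a :: w) F = F w + t * ds t w (fun w' => F (a :: w')) := rfl
@[simp] lemma ss_nil (f : List K → K → List K → ℝ) : ss [] f = 0 := rfl
lemma ss_cons (a : K) (w : List K) (f : List K → K → List K → ℝ) :
    ss (a :: w) f = f [] a w + ss w (fun u c v => f (a :: u) c v) := rfl

lemma ds_congr {t : ℝ} : ∀ {w : List K} {F F' : List K → ℝ},
    (∀ w', w'.length + 1 = w.length → F w' = F' w') → ds t w F = ds t w F'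
  | [], _, _, _ => rfl
  | a :: w, F, F', h => by
      rw [ds_cons, ds_cons, h w (by simp), ds_congr (w := w)]
      intro w' hw'
      exact h _ (by simp [hw'])

lemma ss_congr : ∀ {w : List K} {f f' : List K → K → List K → ℝ},
    (∀ u c v, w = u ++ c :: v → f u c v = f' u c v) → ss w f = ss w f'
  | [], _, _, _ => rfl
  | a :: w, f, f', h => by
      rw [ss_cons, ss_cons, h [] a w rfl, ss_congr (w := w)]
      intro u c v huv
      exact h _ _ _ (by simp [huv])

lemma ds_append (t : ℝ) : ∀ (u v : List K) (F : List K → ℝ),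
    ds t (u ++ v) F = ds t u (fun u' => F (u' ++ v)) + t ^ u.length * ds t v (fun v' => F (u ++ v'))
  | [], v, F => by simp
  | a :: u, v, F => by
      rw [List.cons_append, ds_cons, ds_cons, ds_append t u v]
      simp only [List.cons_append, List.length_cons, pow_succ]
      ring

lemma ds_mul_left (t c : ℝ) : ∀ (w : List K) (F : List K → ℝ),
    ds t w (fun w' => c * F w') = c * ds t w F
  | [], F => by simp
  | a :: w, F => by
      rw [ds_cons, ds_cons, ds_mul_left t c w]; ring

lemma ds_mul_right (t c : ℝ) (w : List K) (F : List K → ℝ) :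
    ds t w (fun w' => F w' * c) = ds t w F * c := by
  rw [mul_comm, ← ds_mul_left]; simp only [mul_comm]

lemma ds_zero (t : ℝ) (w : List K) : ds t w (fun _ => 0) = 0 := by
  have := ds_mul_left t 0 w (fun _ => 0)
  simpa using this

lemma ds_sum {ι : Type*} (t : ℝ) (s : Finset ι) : ∀ (w : List K) (F : ι → List K → ℝ),
    ds t w (fun w' => ∑ i ∈ s, F i w') = ∑ i ∈ s, ds t w (F i)
  | [], F => by simp
  | a :: w, F => by
      rw [ds_cons, ds_sum t s w, Finset.mul_sum, ← Finset.sum_add_distrib]
      rfl

lemma ds_nonneg {t : ℝ} (ht : 0 ≤ t) : ∀ {w : List K} {F : List K → ℝ},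
    (∀ w', 0 ≤ F w') → 0 ≤ ds t w F
  | [], _, _ => le_rfl
  | a :: w, F, h => by
      rw [ds_cons]
      exact add_nonneg (h _) (mul_nonneg ht (ds_nonneg ht (fun w' => h _)))

lemma ds_map {L : Type*} (t : ℝ) (σ : K → L) : ∀ (w : List K) (F : List L → ℝ),
    ds t (w.map σ) F = ds t w (fun w' => F (w'.map σ))
  | [], _ => rfl
  | a :: w, F => by
      rw [List.map_cons, ds_cons, ds_cons, ds_map t σ w]
      rfl

lemma ss_mul_left (c : ℝ) : ∀ (w : List K) (f : List K → K → List K → ℝ),
    ss w (fun u a v => c * f u a v) = c * ss w f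
  | [], f => by simp
  | a :: w, f => by
      rw [ss_cons, ss_cons, ss_mul_left c w]; ring

lemma ss_add : ∀ (w : List K) (f g : List K → K → List K → ℝ),
    ss w (fun u a v => f u a v + g u a v) = ss w f + ss w g
  | [], f, g => by simp
  | a :: w, f, g => by
      rw [ss_cons, ss_cons, ss_cons, ss_add w]; ring

lemma ss_nonneg : ∀ {w : List K} {f : List K → K → List K → ℝ},
    (∀ u c v, w = u ++ c :: v → 0 ≤ f u c v) → 0 ≤ ss w f
  | [], _, _ => le_rfl
  | a :: w, f, h => by
      rw [ss_cons]
      refine add_nonneg (h _ _ _ rfl) (ss_nonneg fun u c v huv => h _ _ _ (by simp [huv]))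

lemma ss_zero {w : List K} {f : List K → K → List K → ℝ}
    (h : ∀ u c v, w = u ++ c :: v → f u c v = 0) : ss w f = 0 := by
  rw [ss_congr (f' := fun _ _ _ => 0) h]
  have := ss_mul_left 0 w (fun _ _ _ => 0)
  simpa using this

lemma ss_map {L : Type*} (σ : K → L) : ∀ (w : List K) (f : List L → L → List L → ℝ),
    ss (w.map σ) f = ss w (fun u c v => f (u.map σ) (σ c) (v.map σ))
  | [], _ => rfl
  | a :: w, f => by
      rw [List.map_cons, ss_cons, ss_cons, ss_map σ w]
      rfl

/-- Deleting a letter and then splitting is the same as splitting and then deleting. -/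
lemma ds_ss (t : ℝ) : ∀ (w : List K) (f : List K → K → List K → ℝ),
    ds t w (fun w' => ss w' f) =
      ss w (fun u c v => ds t u (fun u' => f u' c v) +
        t ^ (u.length + 1) * ds t v (fun v' => f u c v'))
  | [], f => by simp
  | a :: w, f => by
      rw [ds_cons, ss_cons]
      simp only [ss_cons]
      have h1 : ds t w (fun w' => f [] a w' + ss w' (fun u c v => f (a :: u) c v)) =
          ds t w (fun w' => f [] a w') + ds t w (fun w' => ss w' (fun u c v => f (a :: u) c v)) := by
        have := ds_sum t (Finset.univ : Finset (Fin 2)) w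
          (fun i w' => if i = 0 then f [] a w' else ss w' (fun u c v => f (a :: u) c v))
        simpa [Fin.sum_univ_two] using this
      rw [h1, ds_ss t w]
      have h2 : ss w (fun u c v => ds t (a :: u) (fun u' => f u' c v) +
          t ^ ((a :: u).length + 1) * ds t v (fun v' => f (a :: u) c v')) =
          ss w (fun u c v => f u c v) + t * ss w (fun u c v => ds t u (fun u' => f (a :: u') c v) +
        t ^ (u.length + 1) * ds t v (fun v' => f (a :: u) c v')) := by
        rw [← ss_mul_left, ← ss_add]
        refine ss_congr fun u c v _ => ?_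
        rw [ds_cons, List.length_cons]
        ring
      rw [h2]
      simp only [ds_nil, List.length_nil]
      ring

section Esum

variable [Fintype K]

/-- Iterated sum of `F` over words, against product weights. -/
def Es : List (K → ℝ) → (List K → ℝ) → ℝ
  | [], F => F []
  | φ :: L, F => ∑ a, φ a * Es L (fun w => F (a :: w))

@[simp] lemma Es_nil (F : List K → ℝ) : Es [] F = F [] := rfl
lemma Es_cons (φ : K → ℝ) (L : List (K → ℝ)) (F : List K → ℝ) :
    Es (φ :: L) F = ∑ a, φ a * Es L (fun w => F (a :: w)) := rfl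

lemma Es_congr : ∀ {L : List (K → ℝ)} {F F' : List K → ℝ},
    (∀ w, w.length = L.length → F w = F' w) → Es L F = Es L F'
  | [], F, F', h => h [] rfl
  | φ :: L, F, F', h => by
      rw [Es_cons, Es_cons]
      refine Finset.sum_congr rfl fun a _ => ?_
      rw [Es_congr (L := L)]
      intro w hw
      exact h _ (by simp [hw])

lemma Es_append : ∀ (L M : List (K → ℝ)) (F : List K → ℝ),
    Es (L ++ M) F = Es L (fun u => Es M (fun v => F (u ++ v)))
  | [], M, F => by simp
  | φ :: L, M, F => by
      rw [List.cons_append, Es_cons, Es_cons]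
      simp only [Es_append L M]
      rfl

lemma Es_mul_left (c : ℝ) : ∀ (L : List (K → ℝ)) (F : List K → ℝ),
    Es L (fun w => c * F w) = c * Es L F
  | [], F => rfl
  | φ :: L, F => by
      rw [Es_cons, Es_cons, Finset.mul_sum]
      refine Finset.sum_congr rfl fun a _ => ?_
      rw [Es_mul_left c L]; ring

lemma Es_mul_right (c : ℝ) (L : List (K → ℝ)) (F : List K → ℝ) :
    Es L (fun w => F w * c) = Es L F * c := by
  rw [mul_comm, ← Es_mul_left]; simp only [mul_comm]

lemma Es_sum {ι : Type*} (s : Finset ι) : ∀ (L : List (K → ℝ)) (F : ι → List K → ℝ),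
    Es L (fun w => ∑ i ∈ s, F i w) = ∑ i ∈ s, Es L (F i)
  | [], F => rfl
  | φ :: L, F => by
      rw [Es_cons]
      simp only [Es_sum s L, Es_cons, Finset.mul_sum]
      rw [Finset.sum_comm]

end Esum

end Pool.Agent.Work.MP_240aa8_pr
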