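import Pool.Agent.Work.MP_240aa8_pr.Ops

/-!
The path colouring: word function `pw` defined by a weighted deletion recursion, and its
`1`-dependence identity `∑ a, pw (u ++ a :: v) = pw u * pw v`.
-/

namespace Pool.Agent.Work.MP_240aa8_pr

open Finset

variable {K : Type}

/-- Proper words. -/
def Proper (w : List K) : Prop := w.IsChain (· ≠ ·)

noncomputable def zeta (t : ℝ) (m : ℕ) : ℝ := (1 + t) / t * ∑ i ∈ range (m + 1), t ^ i

open Classical in
noncomputable def pn (t : ℝ) : ℕ → List K → ℝ
  | 0, _ => 1
  | n + 1, w => if Proper w then ds t w (pn t n) / zeta t (n + 1) else 0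

noncomputable def pw (t : ℝ) (w : List K) : ℝ := pn t w.length w

@[simp] lemma pw_nil (t : ℝ) : pw t ([] : List K) = 1 := rfl

lemma proper_nil : Proper ([] : List K) := List.IsChain.nil

lemma zeta_pos {t : ℝ} (ht : 0 < t) (m : ℕ) : 0 < zeta t m := by
  unfold zeta
  refine mul_pos (div_pos (by linarith) ht) (Finset.sum_pos (fun i _ => pow_pos ht i) ⟨0, by simp⟩)

lemma zeta_add {t : ℝ} (m l : ℕ) : zeta t (m + l + 1) = zeta t m + t ^ (m + 1) * zeta t l := by
  unfold zeta
  have : ∑ i ∈ range (m + l + 1 + 1), t ^ i =
      ∑ i ∈ range (m + 1), t ^ i + t ^ (m + 1) * ∑ i ∈ range (l + 1), t ^ i := by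
    rw [show m + l + 1 + 1 = (m + 1) + (l + 1) by ring, Finset.sum_range_add, Finset.mul_sum]
    congr 1
    exact Finset.sum_congr rfl fun i _ => by rw [pow_add]
  rw [this]
  ring

lemma pw_improper {t : ℝ} {w : List K} (h : ¬ Proper w) : pw t w = 0 := by
  cases w with
  | nil => exact absurd proper_nil h
  | cons a w => simp [pw, pn, h]

lemma pw_eq {t : ℝ} (ht : 0 < t) {w : List K} (hw : w ≠ []) (h : Proper w) :
    zeta t w.length * pw t w = ds t w (pw t) := by
  cases w with
  | nil => exact absurd rfl hw
  | cons a w =>
      have : pw t (a :: w) = ds t (a :: w) (pn t w.length) / zeta t (w.length + 1) := by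
        simp [pw, pn, h]
      rw [this, List.length_cons, mul_div_cancel₀ _ (zeta_pos ht _).ne']
      refine ds_congr fun w' hw' => ?_
      rw [pw]
      congr 1
      simp at hw'
      exact hw'.symm

lemma pw_nonneg {t : ℝ} (ht : 0 < t) (w : List K) : 0 ≤ pw t w := by
  have : ∀ n (w : List K), 0 ≤ pn t n w := by
    intro n
    induction n with
    | zero => intro w; simp [pn]
    | succ n ih =>
        intro w
        rw [pn]
        split_ifs
        · exact div_nonneg (ds_nonneg ht.le ih) (zeta_pos ht _).le
        · exact le_rfl
  exact this _ _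

lemma proper_mid {u₀ v : List K} {e a : K} :
    Proper (u₀ ++ e :: a :: v) ↔ Proper (u₀ ++ [e]) ∧ e ≠ a ∧ Proper (a :: v) :=
  List.isChain_append_cons_cons

lemma pw_double {t : ℝ} (u v : List K) (a : K) : pw t (u ++ a :: a :: v) = 0 := by
  apply pw_improper
  rw [proper_mid]
  simp

lemma proper_cons_cons {a b : K} {v : List K} : Proper (a :: b :: v) ↔ a ≠ b ∧ Proper (b :: v) :=
  List.isChain_cons_cons

variable [Fintype K]

open Classical in
/-- Left part of the marginal computation. -/
lemma left_part {t : ℝ} (u₀ v : List K) (e : K) (hu : Proper (u₀ ++ [e])) (hv : Proper v) :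
    ∑ a, (if Proper (u₀ ++ [e] ++ a :: v) then
        ds t (u₀ ++ [e]) (fun u' => pw t (u' ++ a :: v)) else 0) =
      ds t (u₀ ++ [e]) (fun u' => ∑ a, pw t (u' ++ a :: v)) -
        t ^ u₀.length * pw t (u₀ ++ [e] ++ v) := by
  have h1 : ∀ a, (if Proper (u₀ ++ [e] ++ a :: v) then
        ds t (u₀ ++ [e]) (fun u' => pw t (u' ++ a :: v)) else 0) =
      ds t (u₀ ++ [e]) (fun u' => pw t (u' ++ a :: v)) -
        (if a = e then t ^ u₀.length * pw t (u₀ ++ a :: v) else 0) := by
    intro a
    by_cases hp : Proper (u₀ ++ [e] ++ a :: v)
    · rw [if_pos hp]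
      have hp' : Proper (u₀ ++ e :: a :: v) := by simpa using hp
      rw [proper_mid] at hp'
      rw [if_neg (Ne.symm hp'.2.1), sub_zero]
    · rw [if_neg hp]
      rw [ds_append, ds_cons, ds_nil]
      simp only [mul_zero, add_zero, List.append_nil]
      by_cases hae : a = e
      · subst hae
        rw [if_pos rfl]
        have : ds t u₀ (fun u' => pw t (u' ++ [a] ++ a :: v)) = 0 := by
          rw [ds_congr (F' := fun _ => 0), ds_zero]
          intro w' _
          have := pw_double (t := t) w' v a
          simpa using this
        rw [this]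
        ring
      · rw [if_neg hae]
        have hav : ¬ Proper (a :: v) := by
          intro h
          apply hp
          have : Proper (u₀ ++ e :: a :: v) := proper_mid.2 ⟨hu, Ne.symm hae, h⟩
          simpa using this
        cases v with
        | nil => exact absurd (List.IsChain.singleton a) hav
        | cons f v₀ =>
            rw [proper_cons_cons] at hav
            have haf : a = f := by
              by_contra hne
              exact hav ⟨hne, hv⟩
            subst haf
            have : ds t u₀ (fun u' => pw t (u' ++ [e] ++ a :: a :: v₀)) = 0 := by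
              rw [ds_congr (F' := fun _ => 0), ds_zero]
              intro w' _
              exact pw_double (t := t) (w' ++ [e]) v₀ a
            rw [this, pw_double]
            ring
  simp only [h1]
  rw [Finset.sum_sub_distrib, ds_sum, Finset.sum_ite_eq' Finset.univ e]
  simp

open Classical in
/-- Right part of the marginal computation. -/
lemma right_part {t : ℝ} (u v₀ : List K) (f : K) (hu : Proper u) (hv : Proper (f :: v₀)) :
    ∑ a, (if Proper (u ++ a :: f :: v₀) then
        ds t (f :: v₀) (fun v' => pw t (u ++ a :: v')) else 0) =
      ds t (f :: v₀) (fun v' => ∑ a, pw t (u ++ a :: v')) - pw t (u ++ f :: v₀) := by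
  have h1 : ∀ a, (if Proper (u ++ a :: f :: v₀) then
        ds t (f :: v₀) (fun v' => pw t (u ++ a :: v')) else 0) =
      ds t (f :: v₀) (fun v' => pw t (u ++ a :: v')) -
        (if a = f then pw t (u ++ a :: v₀) else 0) := by
    intro a
    by_cases hp : Proper (u ++ a :: f :: v₀)
    · rw [if_pos hp]
      rw [proper_mid] at hp
      rw [if_neg hp.2.1, sub_zero]
    · rw [if_neg hp]
      rw [ds_cons]
      by_cases haf : a = f
      · subst haf
        rw [if_pos rfl]
        have : ds t v₀ (fun v' => pw t (u ++ a :: a :: v')) = 0 := by
          rw [ds_congr (F' := fun _ => 0), ds_zero]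
          intro w' _
          exact pw_double (t := t) u w' a
        rw [this]
        ring
      · rw [if_neg haf]
        have hua : ¬ Proper (u ++ [a]) := by
          intro h
          exact hp (proper_mid.2 ⟨h, haf, hv⟩)
        rcases List.eq_nil_or_concat u with rfl | ⟨u₀, e, rfl⟩
        · exact absurd (List.IsChain.singleton a) hua
        · simp only [List.concat_eq_append] at *
          have hae : e = a := by
            by_contra hne
            apply hua
            have : Proper (u₀ ++ e :: a :: []) :=
              proper_mid.2 ⟨hu, hne, List.IsChain.singleton a⟩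
            simpa using this
          subst hae
          have h0 : ∀ w, pw t (u₀ ++ [e] ++ e :: w) = 0 := by
            intro w
            have := pw_double (t := t) u₀ w e
            simpa using this
          have : ds t v₀ (fun v' => pw t (u₀ ++ [e] ++ e :: f :: v')) = 0 := by
            rw [ds_congr (F' := fun _ => 0), ds_zero]
            intro w' _
            exact h0 _
          rw [this, h0]
          ring
  simp only [h1]
  rw [Finset.sum_sub_distrib, ds_sum, Finset.sum_ite_eq' Finset.univ f]
  simp

lemma card_ne_one (c : ℝ) (e : K) [DecidableEq K] :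
    ∑ a : K, (if a ≠ e then c else 0) = ((Fintype.card K : ℝ) - 1) * c := by
  have : ∀ a : K, (if a ≠ e then c else 0) = c - (if a = e then c else 0) := by
    intro a; by_cases h : a = e <;> simp [h]
  simp only [this]
  rw [Finset.sum_sub_distrib, Finset.sum_ite_eq']
  simp
  ring

lemma card_ne_two (c : ℝ) {e f : K} (hef : e ≠ f) [DecidableEq K] :
    ∑ a : K, (if e ≠ a ∧ a ≠ f then c else 0) = ((Fintype.card K : ℝ) - 2) * c := by
  have : ∀ a : K, (if e ≠ a ∧ a ≠ f then c else 0) =
      c - (if a = e then c else 0) - (if a = f then c else 0) := by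
    intro a
    by_cases h : a = e
    · subst h; simp [hef]
    · by_cases h' : a = f
      · simp [h', hef, Ne.symm hef]
      · simp [h, h', Ne.symm h]
  simp only [this]
  rw [Finset.sum_sub_distrib, Finset.sum_sub_distrib, Finset.sum_ite_eq', Finset.sum_ite_eq']
  simp
  ring

theorem pw_marg {t : ℝ} (ht : 0 < t) (hq : (Fintype.card K : ℝ) * t = (1 + t) ^ 2) :
    ∀ (N : ℕ) (u v : List K), u.length + v.length ≤ N →
      ∑ a, pw t (u ++ a :: v) = pw t u * pw t v := by
  classical
  intro N
  induction N using Nat.strong_induction_on with
  | _ N ih =>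
  intro u v hN
  by_cases hu : Proper u
  swap
  · rw [pw_improper hu, zero_mul]
    refine Finset.sum_eq_zero fun a _ => pw_improper fun h => hu ?_
    exact List.IsChain.left_of_append h
  by_cases hv : Proper v
  swap
  · rw [pw_improper hv, mul_zero]
    refine Finset.sum_eq_zero fun a _ => pw_improper fun h => hv ?_
    have := (List.IsChain.right_of_append h).tail
    rw [List.tail_cons] at this
    exact this
  -- the main identity
  have hz := (zeta_pos ht (u.length + v.length + 1)).ne'
  apply mul_left_cancel₀ hz
  rw [Finset.mul_sum]
  have h1 : ∀ a, zeta t (u.length + v.length + 1) * pw t (u ++ a :: v) =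
      (if Proper (u ++ a :: v) then ds t u (fun u' => pw t (u' ++ a :: v)) else 0) +
      t ^ u.length * (if Proper (u ++ a :: v) then pw t (u ++ v) else 0) +
      t ^ (u.length + 1) *
        (if Proper (u ++ a :: v) then ds t v (fun v' => pw t (u ++ a :: v')) else 0) := by
    intro a
    by_cases hp : Proper (u ++ a :: v)
    · rw [if_pos hp, if_pos hp, if_pos hp]
      have hl : (u ++ a :: v).length = u.length + v.length + 1 := by simp [add_assoc]
      rw [← hl, pw_eq ht (by simp) hp, ds_append, ds_cons]
      ring
    · rw [if_neg hp, if_neg hp, if_neg hp, pw_improper hp]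
      ring
  simp only [h1]
  rw [Finset.sum_add_distrib, Finset.sum_add_distrib, ← Finset.mul_sum, ← Finset.mul_sum]
  -- case analysis
  have ihL : u ≠ [] → ds t u (fun u' => ∑ a, pw t (u' ++ a :: v)) =
      zeta t u.length * pw t u * pw t v := by
    intro hne
    rw [pw_eq ht hne hu, ← ds_mul_right]
    refine ds_congr fun w' hw' => ?_
    exact ih (w'.length + v.length) (by omega) w' v le_rfl
  have ihR : v ≠ [] → ds t v (fun v' => ∑ a, pw t (u ++ a :: v')) =
      pw t u * (zeta t v.length * pw t v) := by
    intro hne
    rw [pw_eq ht hne hv, ← ds_mul_left]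
    refine ds_congr fun w' hw' => ?_
    exact ih (u.length + w'.length) (by omega) u w' le_rfl
  have hz0 : zeta t 0 = (1 + t) / t := by simp [zeta]
  rcases List.eq_nil_or_concat u with rfl | ⟨u₀, e, rfl⟩
  · cases v with
    | nil =>
        simp only [List.nil_append, ds_nil, ite_self, Finset.sum_const_zero, mul_zero, add_zero,
          zero_add, List.length_nil, pow_zero, one_mul, pw_nil, mul_one]
        have : ∀ a : K, (if Proper [a] then (1 : ℝ) else 0) = 1 := by
          intro a; exact if_pos (List.IsChain.singleton a)
        simp only [this]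
        simp only [Finset.sum_const, Finset.card_univ, nsmul_eq_mul, mul_one]
        have : zeta t 1 = (1 + t) ^ 2 / t := by
          simp [zeta, Finset.sum_range_succ]; ring
        rw [this, ← hq]
        field_simp
    | cons f v₀ =>
        rw [right_part [] v₀ f hu hv, ihR (by simp)]
        simp only [List.nil_append, ds_nil, ite_self, Finset.sum_const_zero, zero_add,
          List.length_nil, pow_zero, one_mul, pw_nil, pow_one]
        have : ∀ a : K, (if Proper (a :: f :: v₀) then pw t (f :: v₀) else 0) =
            if a ≠ f then pw t (f :: v₀) else 0 := by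
          intro a
          by_cases h : a = f
          · subst h
            rw [if_neg (by rw [proper_cons_cons]; simp), if_neg (by simp)]
          · rw [if_pos (proper_cons_cons.2 ⟨h, hv⟩), if_pos h]
        simp only [this]
        rw [card_ne_one]
        have hz1 := zeta_add (t := t) 0 (f :: v₀).length
        simp only [zero_add, pow_one] at hz1
        rw [hz1, hz0]
        field_simp
        linear_combination (pw t (f :: v₀)) * hq
  · simp only [List.concat_eq_append] at *
    rw [left_part u₀ v e hu hv, ihL (by simp)]
    cases v with
    | nil =>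
        simp only [ds_nil, ite_self, Finset.sum_const_zero, mul_zero, add_zero, List.append_nil,
          pw_nil, mul_one, List.length_nil]
        have : ∀ a : K, (if Proper (u₀ ++ [e] ++ [a]) then pw t (u₀ ++ [e]) else 0) =
            if a ≠ e then pw t (u₀ ++ [e]) else 0 := by
          intro a
          have h' : Proper (u₀ ++ [e] ++ [a]) ↔ Proper (u₀ ++ [e]) ∧ e ≠ a ∧ Proper [a] := by
            rw [← proper_mid]; simp
          by_cases h : a = e
          · subst h
            rw [if_neg (by rw [h']; simp), if_neg (by simp)]
          · rw [if_pos (h'.2 ⟨hu, Ne.symm h, List.IsChain.singleton a⟩), if_pos h]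
        simp only [this]
        rw [card_ne_one]
        have hz1 := zeta_add (t := t) (u₀ ++ [e]).length 0
        simp only [add_zero] at hz1
        rw [hz1, hz0]
        simp only [List.length_append, List.length_cons, List.length_nil, zero_add, pow_succ]
        field_simp
        linear_combination (pw t (u₀ ++ [e]) * t ^ u₀.length) * hq
    | cons f v₀ =>
        rw [right_part (u₀ ++ [e]) v₀ f hu hv, ihR (by simp)]
        have hz1 := zeta_add (t := t) (u₀ ++ [e]).length (f :: v₀).length
        rw [hz1]
        have hmid : ∑ a : K, (if Proper (u₀ ++ [e] ++ a :: f :: v₀) then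
            pw t (u₀ ++ [e] ++ f :: v₀) else 0) =
            ((Fintype.card K : ℝ) - 2) * pw t (u₀ ++ [e] ++ f :: v₀) := by
          by_cases hef : e = f
          · subst hef
            have : pw t (u₀ ++ [e] ++ e :: v₀) = 0 := by
              have := pw_double (t := t) u₀ v₀ e
              simpa using this
            rw [this]
            simp
          · rw [← card_ne_two _ hef]
            refine Finset.sum_congr rfl fun a _ => ?_
            have h' : Proper (u₀ ++ [e] ++ a :: f :: v₀) ↔
                Proper (u₀ ++ [e]) ∧ e ≠ a ∧ Proper (a :: f :: v₀) := by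
              rw [← proper_mid]; simp
            by_cases h : e ≠ a ∧ a ≠ f
            · rw [if_pos h, if_pos (h'.2 ⟨hu, h.1, proper_cons_cons.2 ⟨h.2, hv⟩⟩)]
            · rw [if_neg h, if_neg]
              rw [h', proper_cons_cons]
              tauto
        rw [hmid]
        simp only [List.length_append, List.length_cons, List.length_nil, zero_add, pow_succ]
        linear_combination (pw t (u₀ ++ [e] ++ f :: v₀) * t ^ u₀.length) * hq

end Pool.Agent.Work.MP_240aa8_pr
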