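import Pool.Agent.Work.MP_240aa8_pr.Three
import Pool.Agent.Work.MP_240aa8_pr.Cycle

/-!
Rotation invariance of the constructed colourings, and the distance of the cycle.
-/

set_option autoImplicit false

namespace Pool.Agent.Work.MP_240aa8_pr

open Finset SimpleGraph

/-- Word functions which are invariant under rotation give rotation invariant weights. -/
lemma ofFn_rot {K : Type} [Fintype K] {Pc : List K → ℝ} (hrot : ∀ a w, Pc (a :: w) = Pc (w ++ [a])) {m : ℕ}
    (x : Fin (m + 1) → K) : Pc (List.ofFn fun i : Fin (m + 1) => x (i + 1)) = Pc (List.ofFn x) := by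
  have h1 : List.ofFn (fun i : Fin (m + 1) => x (i + 1)) = (List.ofFn x).rotate 1 := by
    apply List.ext_getElem
    · simp
    · intro i h1 h2
      rw [List.getElem_ofFn, List.getElem_rotate, List.getElem_ofFn]
      congr 1
      apply Fin.ext
      simp [Fin.val_add]
  rw [h1, Pc_rotate hrot]

section three
variable {m : ℕ}

lemma adj_rot (hm : 2 ≤ m) (u v : Fin (m + 1)) :
    (cycleGraph (m + 1)).Adj (u + 1) (v + 1) ↔ (cycleGraph (m + 1)).Adj u v := by
  obtain ⟨r, rfl⟩ : ∃ r, m = r + 1 := ⟨m - 1, by omega⟩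
  rw [cycleGraph_adj, cycleGraph_adj]
  have h1 : u + 1 - (v + 1) = u - v := by abel
  have h2 : v + 1 - (u + 1) = v - u := by abel
  rw [h1, h2]

lemma avail_rot (hm : 2 ≤ m) (x : Fin (m + 1) → Option (Fin 3)) (v : Fin (m + 1)) :
    avail (fun i => x (i + 1)) v = avail x (v + 1) := by
  ext c
  rw [mem_avail, mem_avail]
  constructor
  · intro h u hu
    have h1 : (cycleGraph (m + 1)).Adj v (u - 1) := by
      rw [← adj_rot hm, sub_add_cancel]
      exact hu
    have h2 := h (u - 1) h1
    rw [sub_add_cancel] at h2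
    exact h2
  · intro h u hu
    exact h (u + 1) ((adj_rot hm v u).2 hu)

lemma kap_rot (hm : 2 ≤ m) (x : Fin (m + 1) → Option (Fin 3)) (v : Fin (m + 1)) (c : Fin 3) :
    kap (fun i => x (i + 1)) v c = kap x (v + 1) c := by
  unfold kap
  rw [avail_rot hm]

lemma w3_rot (hm : 2 ≤ m) {w4 : (Fin (m + 1) → Option (Fin 3)) → ℝ}
    (h4 : ∀ x, w4 (fun i => x (i + 1)) = w4 x) (y : Fin (m + 1) → Fin 3) :
    w3 w4 (fun i => y (i + 1)) = w3 w4 y := by
  unfold w3
  let ρ : (Fin (m + 1) → Option (Fin 3)) ≃ (Fin (m + 1) → Option (Fin 3)) :=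
    { toFun := fun x i => x (i + 1)
      invFun := fun x i => x (i - 1)
      left_inv := fun x => by funext i; simp
      right_inv := fun x => by funext i; simp }
  rw [← Equiv.sum_comp ρ]
  refine Finset.sum_congr rfl fun x _ => ?_
  have e : ρ x = fun i => x (i + 1) := rfl
  rw [e, h4]
  congr 1
  have h1 : ∀ v : Fin (m + 1), kap (fun i => x (i + 1)) v (y (v + 1)) =
      (fun u => kap x u (y u)) ((Equiv.addRight (1 : Fin (m + 1))) v) := fun v => kap_rot hm x v _
  rw [Finset.prod_congr rfl fun v _ => h1 v]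
  exact Equiv.prod_comp (Equiv.addRight (1 : Fin (m + 1))) (fun u => kap x u (y u))

end three

/-- Distance along the cycle. -/
def cdist {n : ℕ} (a b : ZMod n) : ℕ := min (a - b).val (b - a).val

lemma cdist_self {n : ℕ} (a : ZMod n) : cdist a a = 0 := by simp [cdist]

lemma cdist_step {m : ℕ} (hm : 2 ≤ m) (a b c : ZMod (m + 1))
    (h : (cycleGraph (m + 1)).Adj (a : Fin (m + 1)) (b : Fin (m + 1))) :
    cdist a c ≤ 1 + cdist b c := by
  obtain ⟨r, rfl⟩ : ∃ r, m = r + 1 := ⟨m - 1, by omega⟩
  rw [cycleGraph_adj] at h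
  have hab : (a - b : ZMod (r + 1 + 1)) = 1 ∨ (b - a : ZMod (r + 1 + 1)) = 1 := h
  haveI : Fact (1 < r + 1 + 1) := ⟨by omega⟩
  have h1 : (1 : ZMod (r + 1 + 1)).val = 1 := ZMod.val_one (r + 1 + 1)
  have key : ∀ x y : ZMod (r + 1 + 1), (x + y).val ≤ x.val + y.val := fun x y => ZMod.val_add_le x y
  have key2 : ∀ x : ZMod (r + 1 + 1), x ≠ 0 → (x - 1).val + 1 = x.val := by
    intro x hx
    have h2 : 1 ≤ x.val := Nat.one_le_iff_ne_zero.2 fun h => hx ((ZMod.val_eq_zero x).1 h)
    rw [ZMod.val_sub (by rw [h1]; exact h2), h1]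
    omega
  unfold cdist
  rcases hab with hab | hab
  · -- a = b + 1
    have e1 : a - c = 1 + (b - c) := by rw [← hab]; ring
    have e2 : c - a = (c - b) - 1 := by rw [← hab]; ring
    have k1 : (a - c).val ≤ 1 + (b - c).val := by
      rw [e1]
      refine (key _ _).trans ?_
      rw [h1]
    by_cases h0 : c - b = 0
    · have h00 : b - c = 0 := by rw [← neg_sub, h0, neg_zero]
      have k2 : (a - c).val ≤ 1 := by rw [h00] at k1; simpa using k1
      calc min (a - c).val (c - a).val ≤ (a - c).val := min_le_left _ _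
        _ ≤ 1 := k2
        _ ≤ _ := Nat.le_add_right _ _
    · have k2 : (c - a).val ≤ 1 + (c - b).val := by
        have := key2 _ h0
        rw [e2]; omega
      omega
  · have e1 : c - a = 1 + (c - b) := by rw [← hab]; ring
    have e2 : a - c = (b - c) - 1 := by rw [← hab]; ring
    have k1 : (c - a).val ≤ 1 + (c - b).val := by
      rw [e1]
      refine (key _ _).trans ?_
      rw [h1]
    by_cases h0 : b - c = 0
    · have h00 : c - b = 0 := by rw [← neg_sub, h0, neg_zero]
      have k2 : (c - a).val ≤ 1 := by rw [h00] at k1; simpa using k1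
      calc min (a - c).val (c - a).val ≤ (c - a).val := min_le_right _ _
        _ ≤ 1 := k2
        _ ≤ _ := Nat.le_add_right _ _
    · have k2 : (a - c).val ≤ 1 + (b - c).val := by
        have := key2 _ h0
        rw [e2]; omega
      omega

lemma cdist_le_dist {m : ℕ} (hm : 2 ≤ m) (a b : Fin (m + 1)) :
    cdist (n := m + 1) a b ≤ (cycleGraph (m + 1)).dist a b := by
  obtain ⟨p, hp⟩ := (cycleGraph_connected (n := m)).exists_walk_length_eq_dist a b
  rw [← hp]
  clear hp
  induction p with
  | nil => rw [cdist_self]; exact Nat.zero_le _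
  | @cons u v w hadj p ih =>
    rw [Walk.length_cons]
    have := cdist_step hm u v w hadj
    omega

end Pool.Agent.Work.MP_240aa8_pr
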