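import Pool.Agent.Work.MP_240aa8_pr.Rot

/-!
Measures with rotation invariant weights.
-/

set_option autoImplicit false

namespace Pool.Agent.Work.MP_240aa8_pr

open Finset SimpleGraph MeasureTheory ProbabilityTheory

variable {k m q : ℕ}

theorem exists_measure_rot {w : (Fin (m + 1) → Fin q) → ℝ} (h : IsSymDep k (m + 1) (Fin q) w)
    (hr : ∀ x, w (fun i => x (i + 1)) = w x) :
    ∃ μ : Measure (Fin (m + 1) → Fin q), IsProbabilityMeasure μ ∧
          (∀ᵐ x ∂μ, ∀ i j : Fin (m + 1), (cycleGraph (m + 1)).Adj i j → x i ≠ x j) ∧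
          (∀ σ : Equiv.Perm (Fin q), μ.map (fun x : Fin (m + 1) → Fin q => σ ∘ x) = μ) ∧
          (∀ A B : Set (Fin (m + 1)),
            (∀ a ∈ A, ∀ b ∈ B, k < (cycleGraph (m + 1)).dist a b) →
            IndepFun (fun x : Fin (m + 1) → Fin q => fun a : A => x a)
              (fun x : Fin (m + 1) → Fin q => fun b : B => x b) μ) ∧
          μ.map (fun (x : Fin (m + 1) → Fin q) i => x (i + 1)) = μ := by
  classical
  refine ⟨wmeas w, ⟨?_⟩, ?_, ?_, ?_, ?_⟩
  · rw [wmeas_apply w h.nonneg]
    simp [h.total]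
  · rw [ae_iff, wmeas_apply w h.nonneg]
    rw [Finset.sum_eq_zero, ENNReal.ofReal_zero]
    intro x _
    by_cases hx : w x = 0
    · rw [hx, zero_mul]
    · rw [Set.indicator_of_notMem, mul_zero]
      simp only [Set.mem_ofPred_eq, not_not]
      exact h.proper x hx
  · intro σ
    have hm : Measurable (fun x : Fin (m + 1) → Fin q => (σ ∘ x : Fin (m + 1) → Fin q)) :=
      measurable_of_finite _
    ext s hs
    rw [Measure.map_apply hm hs, wmeas_apply w h.nonneg, wmeas_apply w h.nonneg]
    congr 1
    have e : ∀ x : Fin (m + 1) → Fin q, w x = w (σ ∘ x) := fun x => (h.symm σ x).symm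
    let τ : (Fin (m + 1) → Fin q) ≃ (Fin (m + 1) → Fin q) :=
      { toFun := fun x => σ ∘ x
        invFun := fun x => σ.symm ∘ x
        left_inv := fun x => by funext i; simp
        right_inv := fun x => by funext i; simp }
    rw [← τ.sum_comp (fun x => w x * s.indicator (fun _ => (1 : ℝ)) x)]
    refine Finset.sum_congr rfl fun x _ => ?_
    have hτ : τ x = σ ∘ x := rfl
    rw [hτ, ← e x]
    congr 1
  · intro A B hAB
    rw [indepFun_iff_measure_inter_preimage_eq_mul]
    intro s t _ _
    rw [wmeas_apply w h.nonneg, wmeas_apply w h.nonneg, wmeas_apply w h.nonneg,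
      ← ENNReal.ofReal_mul]
    · congr 1
      have := h.dep A B hAB
        (((fun x : Fin (m + 1) → Fin q => fun a : A => x a) ⁻¹' s).indicator (fun _ => (1 : ℝ)))
        (((fun x : Fin (m + 1) → Fin q => fun b : B => x b) ⁻¹' t).indicator (fun _ => (1 : ℝ)))
        ?_ ?_
      · rw [← this]
        refine Finset.sum_congr rfl fun x _ => ?_
        congr 1
        simp only [Set.indicator, Set.mem_inter_iff]
        split_ifs <;> simp_all
      · intro x y hxy
        have : (fun a : A => x a) = (fun a : A => y a) := by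
          funext a; exact hxy a a.2
        simp only [Set.indicator, Set.mem_preimage, this]
      · intro x y hxy
        have : (fun a : B => x a) = (fun a : B => y a) := by
          funext a; exact hxy a a.2
        simp only [Set.indicator, Set.mem_preimage, this]
    · exact Finset.sum_nonneg fun x _ => mul_nonneg (h.nonneg x)
        (Set.indicator_nonneg (fun _ _ => zero_le_one) _)
  · have hm : Measurable (fun (x : Fin (m + 1) → Fin q) (i : Fin (m + 1)) => x (i + 1)) :=
      measurable_of_finite _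
    ext s hs
    rw [Measure.map_apply hm hs, wmeas_apply w h.nonneg, wmeas_apply w h.nonneg]
    congr 1
    let τ : (Fin (m + 1) → Fin q) ≃ (Fin (m + 1) → Fin q) :=
      { toFun := fun x i => x (i + 1)
        invFun := fun x i => x (i - 1)
        left_inv := fun x => by funext i; simp
        right_inv := fun x => by funext i; simp }
    rw [← τ.sum_comp (fun x => w x * s.indicator (fun _ => (1 : ℝ)) x)]
    refine Finset.sum_congr rfl fun x _ => ?_
    have hτ : τ x = fun i => x (i + 1) := rfl
    rw [hτ, hr x]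
    congr 1

/-- All cases, with rotation invariance. -/
theorem all_cases {k q m : ℕ} (hkq : (1 ≤ k ∧ 5 ≤ q) ∨ (2 ≤ k ∧ 4 ≤ q) ∨ (3 ≤ k ∧ 3 ≤ q))
    (hm : 2 ≤ m) : ∃ w : (Fin (m + 1) → Fin q) → ℝ, IsSymDep k (m + 1) (Fin q) w ∧
      ∀ x, w (fun i => x (i + 1)) = w x := by
  have hn : 3 ≤ m + 1 := by omega
  rcases Nat.lt_or_ge q 5 with hlt | hge
  · rcases Nat.lt_or_ge q 4 with hlt' | hge'
    · obtain rfl : q = 3 := by omega
      have hk : 3 ≤ k := by omega
      refine ⟨_, (three_isSymDep hn
        (four_isSymDep (K := Option (Fin 3)) (by simp) hn)).mono hk, ?_⟩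
      exact w3_rot hm (fun x => ofFn_rot Pc4_rot x)
    · obtain rfl : q = 4 := by omega
      have hk : 1 ≤ k := by omega
      refine ⟨_, (four_isSymDep (K := Fin 4) (by simp) hn).mono hk, ?_⟩
      exact fun x => ofFn_rot Pc4_rot x
  · have hq' : (5 : ℝ) ≤ q := by exact_mod_cast hge
    haveI : Nonempty (Fin q) := ⟨⟨0, by omega⟩⟩
    have hs : Real.sqrt ((q : ℝ) ^ 2 - 4 * q) ^ 2 = (q : ℝ) ^ 2 - 4 * q :=
      Real.sq_sqrt (by nlinarith)
    set s := Real.sqrt ((q : ℝ) ^ 2 - 4 * q) with hsdef
    have hs0 : 0 < s := Real.sqrt_pos.2 (by nlinarith)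
    have hs1 : s < q - 2 := by
      by_contra hcon
      push Not at hcon
      nlinarith
    have hs2 : (q : ℝ) - 4 < s := by
      by_contra hcon
      push Not at hcon
      nlinarith
    have ht : 0 < ((q : ℝ) - 2 - s) / 2 := by linarith
    have ht1 : ((q : ℝ) - 2 - s) / 2 < 1 := by linarith
    refine ⟨_, (cyc_isSymDep (K := Fin q) ht ht1 ?_ hn).mono (by omega), ?_⟩
    · rw [Fintype.card_fin]
      nlinarith
    · refine fun x => ofFn_rot (fun a w => ?_) x
      rw [Pcyc, Pcyc, Fc_rot]
      simp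

end Pool.Agent.Work.MP_240aa8_pr
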