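import Pool.Agent.Work.MP_240aa8_pr.Kernel

/-!
Segments of a sequence, and the kernel recursions as matrix relations.
-/

namespace Pool.Agent.Work.MP_240aa8_pr

open Finset Matrix

variable {K : Type}

/-- the segment `ω i, …, ω (j-1)` -/
def seg (ω : ℕ → K) (i j : ℕ) : List K := (List.range' i (j - i)).map ω

@[simp] lemma seg_self (ω : ℕ → K) (i : ℕ) : seg ω i i = [] := by simp [seg]

@[simp] lemma length_seg (ω : ℕ → K) (i j : ℕ) : (seg ω i j).length = j - i := by simp [seg]

lemma seg_cons (ω : ℕ → K) {i j : ℕ} (h : i < j) : seg ω i j = ω i :: seg ω (i + 1) j := by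
  unfold seg
  obtain ⟨l, rfl⟩ : ∃ l, j = i + (l + 1) := ⟨j - i - 1, by omega⟩
  have h1 : i + (l + 1) - i = l + 1 := by omega
  have h2 : i + (l + 1) - (i + 1) = l := by omega
  rw [h1, h2, List.range'_succ, List.map_cons]

lemma ss_append : ∀ (w₁ w₂ : List K) (f : List K → K → List K → ℝ),
    ss (w₁ ++ w₂) f = ss w₁ (fun u c v => f u c (v ++ w₂)) + ss w₂ (fun u c v => f (w₁ ++ u) c v)
  | [], w₂, f => by simp
  | a :: w₁, w₂, f => by
      rw [List.cons_append, ss_cons, ss_cons, ss_append w₁ w₂]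
      simp only [List.cons_append]
      ring

lemma ss_seg (ω : ℕ → K) : ∀ (l i : ℕ) (f : List K → K → List K → ℝ),
    ss (seg ω i (i + l)) f = ∑ k ∈ Ico i (i + l), f (seg ω i k) (ω k) (seg ω (k + 1) (i + l))
  | 0, i, f => by simp
  | l + 1, i, f => by
      rw [seg_cons ω (by omega), ss_cons, Finset.sum_eq_sum_Ico_succ_bot (by omega), seg_self]
      congr 1
      have h := ss_seg ω l (i + 1) (fun u c v => f (ω i :: u) c v)
      have e : i + 1 + l = i + (l + 1) := by ring
      rw [e] at h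
      rw [h]
      refine Finset.sum_congr rfl fun k hk => ?_
      rw [Finset.mem_Ico] at hk
      rw [seg_cons ω (show i < k by omega)]

lemma ss_seg' (ω : ℕ → K) {i j : ℕ} (h : i ≤ j) (f : List K → K → List K → ℝ) :
    ss (seg ω i j) f = ∑ k ∈ Ico i j, f (seg ω i k) (ω k) (seg ω (k + 1) j) := by
  obtain ⟨l, rfl⟩ : ∃ l, j = i + l := ⟨j - i, by omega⟩
  exact ss_seg ω l i f

lemma sum_Ico_fin {m : ℕ} (i : ℕ) {j : ℕ} (hj : j ≤ m) (F : ℕ → ℝ) :
    ∑ k ∈ Ico i j, F k = ∑ k : Fin m, if i ≤ k.val ∧ k.val < j then F k else 0 := by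
  rw [Fin.sum_univ_eq_sum_range (fun k => if i ≤ k ∧ k < j then F k else 0) m, ← Finset.sum_filter]
  refine Finset.sum_congr ?_ fun _ _ => rfl
  ext k
  simp only [Finset.mem_Ico, Finset.mem_filter, Finset.mem_range]
  omega

lemma g_rec' {t : ℝ} (ht : 0 < t) (ht1 : t < 1) {b d : Option K} (h : ok b d) (w : List K) :
    (1 - t ^ w.length) * g t b w d =
      ss w (fun u c v => t ^ (v.length + 1) * (g t b u (some c) * g t (some c) v d)) := by
  rcases eq_or_ne w [] with rfl | hw
  · simp
  · exact g_rec ht ht1 h hw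

variable (t : ℝ) (ω : ℕ → K) (m : ℕ)

/-- the kernel matrix -/
noncomputable def gM : Matrix (Fin m) (Fin m) ℝ :=
  Matrix.of fun i j => if i < j then g t (some (ω i)) (seg ω (i + 1) j) (some (ω j)) else 0

/-- from position `i` to an end letter `d` at the right end -/
noncomputable def aV (d : Option K) : Fin m → ℝ := fun i => g t (some (ω i)) (seg ω (i + 1) m) d

/-- from an end letter `d` at the left end to position `j` -/
noncomputable def bV (d : Option K) : Fin m → ℝ := fun j => g t d (seg ω 0 j) (some (ω j))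

/-- from position `i` around the extra letter `a` to position `j` -/
noncomputable def cM (a : K) : Matrix (Fin m) (Fin m) ℝ :=
  Matrix.of fun i j => g t (some (ω i)) (seg ω (i + 1) m ++ a :: seg ω 0 j) (some (ω j))

noncomputable def dM : Matrix (Fin m) (Fin m) ℝ := diagonal fun i => t ^ (i.val + 1)
noncomputable def dI : Matrix (Fin m) (Fin m) ℝ := diagonal fun i => (t ^ (i.val + 1))⁻¹

variable {t} {ω} {m}

lemma gM_apply (i j : Fin m) : gM t ω m i j =
    if i < j then g t (some (ω i)) (seg ω (i + 1) j) (some (ω j)) else 0 := rfl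

lemma gM_of_le {i j : Fin m} (h : j ≤ i) : gM t ω m i j = 0 := by
  rw [gM_apply, if_neg (not_lt.2 h)]

lemma gM_same {i j : Fin m} (h : ω i = ω j) : gM t ω m i j = 0 := by
  rw [gM_apply]
  split_ifs
  · exact g_not_ok t (by simp [h]) _
  · rfl

lemma gM_rec (ht : 0 < t) (ht1 : t < 1) {i j : Fin m} (hij : i < j) (h : ω i ≠ ω j) :
    (1 - t ^ (j.val - i.val - 1)) * gM t ω m i j =
      ∑ k : Fin m, t ^ (j.val - k.val) * (gM t ω m i k * gM t ω m k j) := by
  have hij' : i.val < j.val := hij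
  have h1 := g_rec' ht ht1 (ok_some.2 h) (seg ω (i + 1) j)
  rw [ss_seg' ω (by omega), length_seg, sum_Ico_fin (m := m) _ j.isLt.le] at h1
  have e : j.val - i.val - 1 = j.val - (i.val + 1) := by omega
  rw [gM_apply, if_pos hij, e, h1]
  refine Finset.sum_congr rfl fun k _ => ?_
  by_cases hk : i.val + 1 ≤ k.val ∧ k.val < j.val
  · rw [if_pos hk, gM_apply, gM_apply, if_pos (show i < k from Fin.lt_def.2 (by omega)),
      if_pos (show k < j from Fin.lt_def.2 (by omega)), length_seg]
    congr 2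
    omega
  · rw [if_neg hk]
    by_cases h2 : i < k
    · have h3 : j ≤ k := Fin.le_def.2 (by have := Fin.lt_def.1 h2; omega)
      rw [gM_of_le h3]; ring
    · rw [gM_of_le (not_lt.1 h2)]; ring

lemma aV_rec (ht : 0 < t) (ht1 : t < 1) {d : Option K} {i : Fin m} (h : ok (some (ω i)) d) :
    (1 - t ^ (m - 1 - i.val)) * aV t ω m d i =
      ∑ k : Fin m, t ^ (m - k.val) * (gM t ω m i k * aV t ω m d k) := by
  have hi := i.isLt
  have h1 := g_rec' ht ht1 h (seg ω (i + 1) m)
  rw [ss_seg' ω (by omega), length_seg, sum_Ico_fin (m := m) _ le_rfl] at h1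
  have e : m - 1 - i.val = m - (i.val + 1) := by omega
  rw [aV, e, h1]
  refine Finset.sum_congr rfl fun k _ => ?_
  have hk' := k.isLt
  by_cases hk : i.val + 1 ≤ k.val ∧ k.val < m
  · rw [if_pos hk, gM_apply, if_pos (show i < k from Fin.lt_def.2 (by omega)), length_seg, aV]
    congr 2
    omega
  · rw [if_neg hk]
    have h2 : k ≤ i := Fin.le_def.2 (by omega)
    rw [gM_of_le h2]; ring

lemma bV_rec (ht : 0 < t) (ht1 : t < 1) {d : Option K} {j : Fin m} (h : ok d (some (ω j))) :
    (1 - t ^ j.val) * bV t ω m d j =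
      ∑ k : Fin m, t ^ (j.val - k.val) * (bV t ω m d k * gM t ω m k j) := by
  have hj := j.isLt
  have h1 := g_rec' ht ht1 h (seg ω 0 j)
  rw [ss_seg' ω (by omega), length_seg, sum_Ico_fin (m := m) _ j.isLt.le, Nat.sub_zero] at h1
  rw [bV, h1]
  refine Finset.sum_congr rfl fun k _ => ?_
  by_cases hk : k.val < j.val
  · rw [if_pos ⟨by omega, hk⟩, gM_apply, if_pos (show k < j from Fin.lt_def.2 hk), length_seg, bV]
    congr 2
    omega
  · rw [if_neg (by omega)]
    have h2 : j ≤ k := Fin.le_def.2 (by omega)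
    rw [gM_of_le h2]; ring

lemma cM_rec (ht : 0 < t) (ht1 : t < 1) (a : K) {i j : Fin m} (h : ω i ≠ ω j) :
    (1 - t ^ (m - i.val + j.val)) * cM t ω m a i j =
      ∑ k : Fin m, t ^ (m - k.val + (j.val + 1)) * (gM t ω m i k * cM t ω m a k j) +
      t ^ (j.val + 1) * (aV t ω m (some a) i * bV t ω m (some a) j) +
      ∑ k : Fin m, t ^ (j.val - k.val) * (cM t ω m a i k * gM t ω m k j) := by
  have hi := i.isLt
  have hj := j.isLt
  have h1 := g_rec' ht ht1 (ok_some.2 h) (seg ω (i + 1) m ++ a :: seg ω 0 j)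
  rw [ss_append, ss_cons, ss_seg' ω (by omega), ss_seg' ω (by omega), List.length_append,
    List.length_cons, length_seg, length_seg, sum_Ico_fin (m := m) _ le_rfl,
    sum_Ico_fin (m := m) _ j.isLt.le] at h1
  simp only [List.append_nil, length_seg, Nat.sub_zero] at h1
  have e : m - i.val + j.val = m - (i.val + 1) + (j.val + 1) := by omega
  rw [e]
  have hc : cM t ω m a i j = g t (some (ω i)) (seg ω (i + 1) m ++ a :: seg ω 0 j) (some (ω j)) := rfl
  rw [hc, h1, ← add_assoc]
  congr 1
  · congr 1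
    refine Finset.sum_congr rfl fun k _ => ?_
    have hk' := k.isLt
    by_cases hk : i.val + 1 ≤ k.val ∧ k.val < m
    · rw [if_pos hk, gM_apply, if_pos (show i < k from Fin.lt_def.2 (by omega))]
      have hck : cM t ω m a k j =
        g t (some (ω k)) (seg ω (k + 1) m ++ a :: seg ω 0 j) (some (ω j)) := rfl
      rw [hck, List.length_append, List.length_cons, length_seg, length_seg]
      congr 2
      omega
    · rw [if_neg hk]
      have h2 : k ≤ i := Fin.le_def.2 (by omega)
      rw [gM_of_le h2]; ring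
  · refine Finset.sum_congr rfl fun k _ => ?_
    by_cases hk : k.val < j.val
    · rw [if_pos ⟨by omega, hk⟩, gM_apply, if_pos (show k < j from Fin.lt_def.2 hk)]
      have hck : cM t ω m a i k =
        g t (some (ω i)) (seg ω (i + 1) m ++ a :: seg ω 0 k) (some (ω k)) := rfl
      rw [hck]
      congr 2
      omega
    · rw [if_neg (by omega)]
      have h2 : j ≤ k := Fin.le_def.2 (by omega)
      rw [gM_of_le h2]; ring

lemma aV_not_ok {d : Option K} {i : Fin m} (h : ¬ ok (some (ω i)) d) : aV t ω m d i = 0 :=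
  g_not_ok t h _

lemma bV_not_ok {d : Option K} {j : Fin m} (h : ¬ ok d (some (ω j))) : bV t ω m d j = 0 :=
  g_not_ok t h _

lemma cM_same {a : K} {i j : Fin m} (h : ω i = ω j) : cM t ω m a i j = 0 :=
  g_not_ok t (by simp [h]) _

lemma aV_last {d : Option K} {i : Fin m} (hi : i.val + 1 = m) (h : ok (some (ω i)) d) :
    aV t ω m d i = 1 := by
  rw [aV, hi, seg_self, g_nil t h]

lemma bV_first {d : Option K} {j : Fin m} (hj : j.val = 0) (h : ok d (some (ω j))) :
    bV t ω m d j = 1 := by
  rw [hj] at h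
  rw [bV, hj, seg_self, g_nil t h]

end Pool.Agent.Work.MP_240aa8_pr
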